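import Pool.Agent.Q256.UI.Stm

/-! # Project UI (helper256), job FAM (helper26) -/

set_option autoImplicit false

namespace Pool.Agent.Q26.UI

open Finset MvPolynomial
open Pool.Agent.Q256.UI Pool.Agent.Q256.UP

theorem fam_image (Φ : MvPolynomial (Fin 2) ℤ) (d H : ℕ) :
    Fam Φ d H = (fun G => Φ + G) '' PBox (d - 1) H := by
  ext F
  constructor
  · rintro ⟨G, hG, rfl⟩
    exact ⟨G, hG, rfl⟩
  · rintro ⟨G, hG, rfl⟩
    exact ⟨G, hG, rfl⟩

theorem fam : S_FAM := by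
  refine ⟨fun Φ d H hd => ?_, ?_⟩
  · rw [fam_image]
    refine ⟨(finite_pbox _ _).image _, ?_⟩
    rw [Nat.card_image_of_injective (add_right_injective Φ), card_pbox]
    unfold NN
    congr 2
    omega
  · rintro Φ d H m K hm F ⟨G', hG', rfl⟩ G hG
    refine ⟨G' + G, pbox_add hG' ⟨hG.1.trans hm, hG.2⟩, ?_⟩
    rw [add_assoc]

end Pool.Agent.Q26.UI
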