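import Pool.Agent.Q256.UI.Stm

/-! # Project UI (helper256), job ONE (helper26) -/

set_option autoImplicit false

namespace Pool.Agent.Q26.UI

open Finset MvPolynomial
open Pool.Agent.Q256.UI Pool.Agent.Q256.UP Pool.Agent.Q256.CI

theorem eval_zero_coeff (F : MvPolynomial (Fin 2) ℤ) : eval ![(0 : ℤ), 0] F = F.coeff 0 := by
  have h : ![(0 : ℤ), 0] = 0 := by
    funext i
    fin_cases i <;> rfl
  rw [h, ← constantCoeff_eq, eval_zero]

theorem one : S_ONE := by
  classical
  intro d H Φ hd hΦ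
  have h0 : Φ.coeff 0 = 0 := by
    by_contra hne
    have := hΦ hne
    rw [Finsupp.weight_apply] at this
    simp at this
    omega
  have himg : {F | F ∈ Fam Φ d H ∧ eval ![(0 : ℤ), 0] F = 0} =
      (fun G => Φ + G) '' SBox ((PS (d - 1)).erase 0) H := by
    ext F
    constructor
    · rintro ⟨⟨G, hG, rfl⟩, hF⟩
      rw [eval_zero_coeff, coeff_add, h0, zero_add] at hF
      rw [pbox_eq] at hG
      refine ⟨G, ⟨hG.1, fun α hα => ?_⟩, rfl⟩
      rw [mem_erase]
      refine ⟨?_, hG.2 hα⟩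
      rintro rfl
      exact (mem_support_iff.1 hα) hF
    · rintro ⟨G, hG, rfl⟩
      refine ⟨⟨G, ?_, rfl⟩, ?_⟩
      · rw [pbox_eq]
        exact ⟨hG.1, fun α hα => mem_of_mem_erase (hG.2 hα)⟩
      · change eval ![(0 : ℤ), 0] (Φ + G) = 0
        rw [eval_zero_coeff, coeff_add, h0, zero_add]
        by_contra hne
        exact (mem_erase.1 (hG.2 (mem_support_iff.2 hne))).1 rfl
  rw [himg, Nat.card_image_of_injective (add_right_injective Φ), card_sbox, card_erase_of_mem
    ((mem_PS 0).2 (by simp)), card_PS]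
  unfold NN
  congr 3
  omega

end Pool.Agent.Q26.UI
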