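import Pool.Agent.Q26.CoxU3

set_option autoImplicit false

namespace Pool.Agent.Q26.CoxB

open Filter Topology LinearAlgebra.Projectivization Pool.Agent.Q26.CoxLim

/-! ### Estimates -/

lemma sg_smul (c : ℝ) (x : Fin 3 → ℝ) : sg (c • x) = c * sg x := by
  unfold sg
  simp only [Pi.smul_apply, smul_eq_mul]
  ring

lemma sg_sq (u : Fin 3 → ℝ) :
    sg u ^ 2 = 1 / 3 * (U3.form (al 0) u ^ 2 + U3.form (al 1) u ^ 2 + U3.form (al 2) u ^ 2) -
      5 / 6 * U3.form u u := by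
  rw [U3_form_al, U3_form_al, U3_form_al, U3_form]
  unfold sg
  ring

lemma dirs (u β : Fin 3 → ℝ) (hu : sg u ≠ 0) (hβ : sg β ≠ 0) :
    (u 0 / sg u - β 0 / sg β) ^ 2 + (u 1 / sg u - β 1 / sg β) ^ 2 +
      (u 2 / sg u - β 2 / sg β) ^ 2 =
    2 / 5 * (U3.form u u / sg u ^ 2 - 2 * U3.form u β / (sg u * sg β) +
      U3.form β β / sg β ^ 2) := by
  rw [U3_form, U3_form, U3_form]
  field_simp
  ring

lemma sg_tendsto {u : ℕ → Fin 3 → ℝ} {v : Fin 3 → ℝ} (h : Tendsto u atTop (𝓝 v)) :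
    Tendsto (fun n => sg (u n)) atTop (𝓝 (sg v)) := by
  rw [tendsto_pi_nhds] at h
  exact ((h 0).add (h 1)).add (h 2)

lemma form_tendsto {u : ℕ → Fin 3 → ℝ} {v : Fin 3 → ℝ} (h : Tendsto u atTop (𝓝 v)) :
    Tendsto (fun n => U3.form (u n) (u n)) atTop (𝓝 (U3.form v v)) := by
  have hs := sg_tendsto h
  rw [tendsto_pi_nhds] at h
  simp only [U3_form]
  exact ((((((h 0).mul (h 0)).add ((h 1).mul (h 1))).add ((h 2).mul (h 2))).const_mul _)).sub
    ((hs.const_mul _).mul hs)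

lemma form_smul_smul (c : ℝ) (x : Fin 3 → ℝ) : U3.form (c • x) (c • x) = c ^ 2 * U3.form x x := by
  rw [U3.form_smul_right, U3.form_comm, U3.form_smul_right]
  ring

/-- Vectors of fixed norm going to infinity with convergent directions: the limit is light-like and
the scalars tend to zero. -/
lemma light_of_tendsto {u : ℕ → Fin 3 → ℝ} {b : ℕ → ℝ} {v : Fin 3 → ℝ} {c : ℝ}
    (h : Tendsto (fun n => b n • u n) atTop (𝓝 v)) (hc : ∀ n, U3.form (u n) (u n) = c)
    (hs : Tendsto (fun n => |sg (u n)|) atTop atTop) :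
    Tendsto b atTop (𝓝 0) ∧ U3.form v v = 0 := by
  have h1 := (sg_tendsto h).abs
  have h2 : Tendsto (fun n => |b n|) atTop (𝓝 0) := by
    have h3 := h1.div_atTop hs
    have h4 : ∀ᶠ n in atTop, 0 < |sg (u n)| := hs.eventually_gt_atTop 0
    refine h3.congr' ?_
    filter_upwards [h4] with n hn
    rw [sg_smul, abs_mul, mul_div_assoc, div_self hn.ne', mul_one]
  have h5 : Tendsto b atTop (𝓝 0) := (tendsto_zero_iff_abs_tendsto_zero _).2 h2
  refine ⟨h5, ?_⟩
  have h6 := form_tendsto h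
  have h7 : Tendsto (fun n => U3.form (b n • u n) (b n • u n)) atTop (𝓝 (0 ^ 2 * c)) := by
    refine ((h5.pow 2).mul_const c).congr (fun n => ?_)
    rw [form_smul_smul, hc]
  have h8 := tendsto_nhds_unique h6 h7
  rw [h8]
  ring

lemma sg_ne_zero {v : Fin 3 → ℝ} (hv : v ≠ 0) (h : U3.form v v = 0) : sg v ≠ 0 := by
  intro hs
  rw [U3_form, hs] at h
  apply hv
  have h0 : v 0 = 0 := by nlinarith [sq_nonneg (v 0), sq_nonneg (v 1), sq_nonneg (v 2)]
  have h1 : v 1 = 0 := by nlinarith [sq_nonneg (v 0), sq_nonneg (v 1), sq_nonneg (v 2)]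
  have h2 : v 2 = 0 := by nlinarith [sq_nonneg (v 0), sq_nonneg (v 1), sq_nonneg (v 2)]
  ext i
  fin_cases i
  · exact h0
  · exact h1
  · exact h2

lemma mk_ne_of_form {u v : Fin 3 → ℝ} (hu : u ≠ 0) (hv : v ≠ 0) (h : U3.form u u ≠ 0)
    (h' : U3.form v v = 0) : Projectivization.mk ℝ u hu ≠ Projectivization.mk ℝ v hv := by
  intro heq
  rw [Projectivization.mk_eq_mk_iff'] at heq
  obtain ⟨a, ha⟩ := heq
  apply h
  rw [← ha, form_smul_smul, h', mul_zero]

lemma form_root {g : (Fin 3 → ℝ) ≃ₗ[ℝ] (Fin 3 → ℝ)} (hg : g ∈ U3.W) (i : Fin 3) :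
    U3.form (g (al i)) (g (al i)) = 1 := by
  rw [U3.form_W hg, U3.form_al_al, U3.b_diag]

/-- The sequences behind a limit root. -/
lemma limRoot_seq {v : Fin 3 → ℝ} (hv : v ≠ 0)
    (h : Projectivization.mk ℝ v hv ∈ U3.limRoots) :
    ∃ (g : ℕ → (Fin 3 → ℝ) ≃ₗ[ℝ] (Fin 3 → ℝ)) (s : ℕ → Fin 3) (b : ℕ → ℝ),
      (∀ n, g n ∈ U3.W) ∧ Tendsto (fun n => b n • g n (al (s n))) atTop (𝓝 v) ∧
      Tendsto (fun n => l1 (g n (al (s n)))) atTop atTop ∧ Tendsto b atTop (𝓝 0) ∧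
      U3.form v v = 0 := by
  obtain ⟨u, hu, hlim, hC, hne⟩ := seq_of_acc hv h
  have h1 : ∀ n, ∃ g ∈ U3.W, ∃ s : Fin 3, ∃ b : ℝ, b • g (al s) = u n := by
    intro n
    obtain ⟨s, hs⟩ := hC n
    rw [U3.orbit_mk] at hs
    obtain ⟨g, hg, h2, h3⟩ := hs
    rw [Projectivization.mk_eq_mk_iff'] at h3
    obtain ⟨b, hb⟩ := h3
    exact ⟨g, hg, s, b, hb⟩
  choose g hg s b hb using h1
  have hlim' : Tendsto (fun n => b n • g n (al (s n))) atTop (𝓝 v) := by
    simp only [hb]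
    exact hlim
  have hne0 : ∀ n, g n (al (s n)) ≠ 0 := fun n h =>
    al_ne_zero (s n) ((g n).injective (h.trans (map_zero (g n)).symm))
  have hne' : ∀ n, Projectivization.mk ℝ (g n (al (s n))) (hne0 n) ≠
      Projectivization.mk ℝ v hv := by
    intro n hn
    apply hne n
    rw [← hn, Projectivization.mk_eq_mk_iff']
    exact ⟨b n, hb n⟩
  let β : ℕ → Phi := fun n => ⟨g n (al (s n)), g n, hg n, s n, rfl⟩
  have hβ : Tendsto β atTop cofinite := by
    apply tendsto_of_fibers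
    intro w
    refine (finite_fiber hv hne0 hlim' hne' w.1).subset ?_
    intro n hn
    exact congrArg Subtype.val hn
  have hl1 : Tendsto (fun n => l1 (g n (al (s n)))) atTop atTop := l1_tendsto.comp hβ
  have hsg : Tendsto (fun n => |sg (g n (al (s n)))|) atTop atTop := by
    refine hl1.congr (fun n => ?_)
    rw [W_sg (hg n)]
  obtain ⟨h5, h6⟩ := light_of_tendsto hlim' (fun n => form_root (hg n) (s n)) hsg
  exact ⟨g, s, b, hg, hlim', hl1, h5, h6⟩


/-! ### Nested cones -/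

/-- The cone of vectors with nonnegative coordinates whose coordinate `i` is at least twice each
other one. -/
def Pc (i : Fin 3) : Set (Fin 3 → ℝ) := {v | (∀ j, 0 ≤ v j) ∧ ∀ j, j ≠ i → 2 * v j ≤ v i}

lemma refl_formula (i : Fin 3) (x : Fin 3 → ℝ) (j : Fin 3) :
    U3.refl i x j = if j = i then 3 * sg x - 4 * x i else x j := by
  rw [U3.refl_apply, U3_form_al]
  unfold sg al
  fin_cases i <;> fin_cases j <;> simp <;> ring

lemma Pc_step {i k : Fin 3} (h : i ≠ k) {v : Fin 3 → ℝ} (hv : v ∈ Pc k) :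
    U3.refl i v ∈ Pc i ∧ 2 * v k ≤ U3.refl i v i := by
  obtain ⟨h1, h2⟩ := hv
  have a0 := h1 0
  have a1 := h1 1
  have a2 := h1 2
  have b0 := h2 0
  have b1 := h2 1
  have b2 := h2 2
  have key : ∀ j, 2 * v j ≤ 3 * sg v - 4 * v i := by
    intro j
    unfold sg
    fin_cases i <;> fin_cases k <;> fin_cases j <;> simp at h b0 b1 b2 ⊢ <;> linarith
  refine ⟨⟨?_, ?_⟩, ?_⟩
  · intro j
    rw [refl_formula]
    split_ifs
    · exact le_trans (by linarith [h1 j]) (key j)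
    · exact h1 j
  · intro j hj
    rw [refl_formula, refl_formula, if_neg hj, if_pos rfl]
    exact key j
  · rw [refl_formula, if_pos rfl]
    exact key k

lemma Pc_sg {i : Fin 3} {v : Fin 3 → ℝ} (hv : v ∈ Pc i) : v i ≤ sg v ∧ sg v ≤ 2 * v i := by
  obtain ⟨h1, h2⟩ := hv
  have a0 := h1 0
  have a1 := h1 1
  have a2 := h1 2
  have b0 := h2 0
  have b1 := h2 1
  have b2 := h2 2
  unfold sg
  fin_cases i <;> simp at b0 b1 b2 ⊢ <;> constructor <;> linarith

lemma Pc_disjoint {i j : Fin 3} (h : i ≠ j) {v : Fin 3 → ℝ} (hi : v ∈ Pc i) (hj : v ∈ Pc j) :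
    v = 0 := by
  have h1 := hi.2 j (Ne.symm h)
  have h2 := hj.2 i h
  have h3 := hi.1 i
  have h4 := hi.1 j
  have h5 : v i = 0 := by linarith
  ext k
  show v k = 0
  by_cases hk : k = i
  · rw [hk, h5]
  · have := hi.2 k hk
    have := hi.1 k
    linarith

end Pool.Agent.Q26.CoxB
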