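import Mathlib

set_option autoImplicit false
set_option linter.unusedSectionVars false

namespace Pool.Agent.Q26.CoxLim

open Filter Topology LinearAlgebra.Projectivization

/-! ### Geometric Coxeter systems, limit roots and limit directions -/

/-- A Coxeter system of finite rank given by its Coxeter matrix `M` (the entry `0` stands for
infinity) together with the matrix `b` of a geometric bilinear form. -/
structure GeomCoxeter (ι : Type) where
  /-- The Coxeter matrix. -/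
  M : CoxeterMatrix ι
  /-- The values of the form on the simple roots. -/
  b : ι → ι → ℝ
  b_symm : ∀ s t, b s t = b t s
  b_diag : ∀ s, b s s = 1
  b_fin : ∀ s t, M s t ≠ 0 → b s t = -Real.cos (Real.pi / M s t)
  b_inf : ∀ s t, M s t = 0 → b s t ≤ -1

section General

variable {ι : Type} [Fintype ι] [DecidableEq ι]

/-- The simple root with index `s`. -/
def al (s : ι) : ι → ℝ := Pi.single s 1

lemma al_ne_zero (s : ι) : al s ≠ 0 := by
  intro h
  have := congrFun h s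
  simp [al] at this

/-- The bilinear form. -/
def GeomCoxeter.form (D : GeomCoxeter ι) (x y : ι → ℝ) : ℝ := ∑ s, ∑ t, x s * y t * D.b s t

lemma GeomCoxeter.form_add_right (D : GeomCoxeter ι) (x y z : ι → ℝ) :
    D.form x (y + z) = D.form x y + D.form x z := by
  unfold GeomCoxeter.form
  rw [← Finset.sum_add_distrib]
  refine Finset.sum_congr rfl (fun s _ => ?_)
  rw [← Finset.sum_add_distrib]
  refine Finset.sum_congr rfl (fun t _ => ?_)
  rw [Pi.add_apply]
  ring

lemma GeomCoxeter.form_smul_right (D : GeomCoxeter ι) (x y : ι → ℝ) (c : ℝ) :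
    D.form x (c • y) = c * D.form x y := by
  unfold GeomCoxeter.form
  rw [Finset.mul_sum]
  refine Finset.sum_congr rfl (fun s _ => ?_)
  rw [Finset.mul_sum]
  refine Finset.sum_congr rfl (fun t _ => ?_)
  rw [Pi.smul_apply, smul_eq_mul]
  ring

lemma GeomCoxeter.form_comm (D : GeomCoxeter ι) (x y : ι → ℝ) : D.form x y = D.form y x := by
  unfold GeomCoxeter.form
  rw [Finset.sum_comm]
  refine Finset.sum_congr rfl (fun s _ => Finset.sum_congr rfl (fun t _ => ?_))
  rw [D.b_symm]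
  ring

lemma GeomCoxeter.form_al_al (D : GeomCoxeter ι) (s t : ι) : D.form (al s) (al t) = D.b s t := by
  unfold GeomCoxeter.form al
  rw [Finset.sum_eq_single s, Finset.sum_eq_single t]
  · simp
  · intro u _ hu
    simp [Pi.single_eq_of_ne hu]
  · simp
  · intro u _ hu
    simp [Pi.single_eq_of_ne hu]
  · simp

/-- The map `x ↦ x - 2 B(α_s, x) α_s`, as a linear map. -/
def GeomCoxeter.reflLin (D : GeomCoxeter ι) (s : ι) : (ι → ℝ) →ₗ[ℝ] (ι → ℝ) where
  toFun x := x - (2 * D.form (al s) x) • al s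
  map_add' x y := by
    rw [D.form_add_right, mul_add, add_smul]
    abel
  map_smul' c x := by
    rw [D.form_smul_right, RingHom.id_apply, smul_sub, smul_smul]
    congr 2
    ring

lemma GeomCoxeter.reflLin_invol (D : GeomCoxeter ι) (s : ι) :
    Function.Involutive (D.reflLin s) := by
  intro x
  have h1 : ∀ y, D.reflLin s y = y - (2 * D.form (al s) y) • al s := fun _ => rfl
  have h2 : D.form (al s) (x - (2 * D.form (al s) x) • al s) = -D.form (al s) x := by
    rw [sub_eq_add_neg, ← neg_smul, D.form_add_right, D.form_smul_right, D.form_al_al, D.b_diag]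
    ring
  rw [h1, h1, h2, sub_sub, ← add_smul]
  have h3 : 2 * D.form (al s) x + 2 * -D.form (al s) x = 0 := by ring
  rw [h3, zero_smul, sub_zero]

/-- The reflection `x ↦ x - 2 B(α_s, x) α_s`. -/
def GeomCoxeter.refl (D : GeomCoxeter ι) (s : ι) : (ι → ℝ) ≃ₗ[ℝ] (ι → ℝ) :=
  LinearEquiv.ofInvolutive (D.reflLin s) (D.reflLin_invol s)

lemma GeomCoxeter.refl_apply (D : GeomCoxeter ι) (s : ι) (x : ι → ℝ) :
    D.refl s x = x - (2 * D.form (al s) x) • al s := rfl

/-- The Coxeter group, as the group of linear maps generated by the simple reflections. -/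
def GeomCoxeter.W (D : GeomCoxeter ι) : Subgroup ((ι → ℝ) ≃ₗ[ℝ] (ι → ℝ)) :=
  Subgroup.closure (Set.range D.refl)

/-- The system is Lorentzian: in suitable linear coordinates the quadratic form is a sum of
squares with exactly one negative sign. -/
def GeomCoxeter.Lorentzian (D : GeomCoxeter ι) : Prop :=
  ∃ (i₀ : ι) (e : (ι → ℝ) ≃ₗ[ℝ] (ι → ℝ)), ∀ x : ι → ℝ,
    D.form x x = ∑ i, (if i = i₀ then -1 else 1) * (e x i) ^ 2

/-- The usual topology of the real projective space. -/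
noncomputable instance projTop : TopologicalSpace (ℙ ℝ (ι → ℝ)) :=
  TopologicalSpace.coinduced (Projectivization.mk' ℝ) inferInstance

/-- The orbit of a point of the projective space. -/
noncomputable def GeomCoxeter.orbit (D : GeomCoxeter ι) (p : ℙ ℝ (ι → ℝ)) : Set (ℙ ℝ (ι → ℝ)) :=
  {q | ∃ g ∈ D.W, q = Projectivization.map (g : (ι → ℝ) →ₗ[ℝ] (ι → ℝ)) g.injective p}

/-- The set `E_p` of accumulation points of the orbit of `p`. -/
def GeomCoxeter.limDir (D : GeomCoxeter ι) (p : ℙ ℝ (ι → ℝ)) : Set (ℙ ℝ (ι → ℝ)) :=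
  {q | AccPt q (𝓟 (D.orbit p))}

/-- The set of the directions of the roots. -/
def GeomCoxeter.rootDir (D : GeomCoxeter ι) : Set (ℙ ℝ (ι → ℝ)) :=
  {q | ∃ s : ι, q ∈ D.orbit (Projectivization.mk ℝ (al s) (al_ne_zero s))}

/-- The set of limit roots. -/
def GeomCoxeter.limRoots (D : GeomCoxeter ι) : Set (ℙ ℝ (ι → ℝ)) :=
  {q | AccPt q (𝓟 D.rootDir)}

/-! ### Accumulation points in the projective space -/

lemma continuous_mk' : Continuous (Projectivization.mk' ℝ : {v : ι → ℝ // v ≠ 0} → ℙ ℝ (ι → ℝ)) :=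
  continuous_coinduced_rng

/-- The set of the directions of vectors with a multiple close to `v`. -/
def nearDir (v : ι → ℝ) (ε : ℝ) : Set (ℙ ℝ (ι → ℝ)) :=
  {q | ∃ (u : ι → ℝ) (hu : u ≠ 0), ‖u - v‖ < ε ∧ q = Projectivization.mk ℝ u hu}

lemma nearDir_open (v : ι → ℝ) (ε : ℝ) : IsOpen (nearDir v ε) := by
  rw [isOpen_coinduced]
  have h1 : Projectivization.mk' ℝ ⁻¹' nearDir v ε =
      ⋃ a : {a : ℝ // a ≠ 0}, {u : {v : ι → ℝ // v ≠ 0} | ‖a.1 • u.1 - v‖ < ε} := by
    ext u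
    constructor
    · rintro ⟨w, hw, hwv, h⟩
      rw [Projectivization.mk'_eq_mk, Projectivization.mk_eq_mk_iff'] at h
      obtain ⟨a, ha⟩ := h
      have ha0 : a ≠ 0 := by
        rintro rfl
        rw [zero_smul] at ha
        exact u.2 ha.symm
      refine Set.mem_iUnion.2 ⟨⟨a⁻¹, inv_ne_zero ha0⟩, ?_⟩
      show ‖a⁻¹ • u.1 - v‖ < ε
      rw [← ha, smul_smul, inv_mul_cancel₀ ha0, one_smul]
      exact hwv
    · intro h
      obtain ⟨⟨a, ha⟩, h⟩ := Set.mem_iUnion.1 h
      refine ⟨a • u.1, smul_ne_zero ha u.2, h, ?_⟩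
      rw [Projectivization.mk'_eq_mk, Projectivization.mk_eq_mk_iff']
      exact ⟨a⁻¹, by rw [smul_smul, inv_mul_cancel₀ ha, one_smul]⟩
  rw [h1]
  apply isOpen_iUnion
  intro a
  apply isOpen_lt
  · exact (((continuous_const_smul a.1).comp continuous_subtype_val).sub continuous_const).norm
  · exact continuous_const

lemma mem_nearDir {v : ι → ℝ} (hv : v ≠ 0) {ε : ℝ} (hε : 0 < ε) :
    Projectivization.mk ℝ v hv ∈ nearDir v ε :=
  ⟨v, hv, by rw [sub_self, norm_zero]; exact hε, rfl⟩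

/-- If vectors tend to `v ≠ 0` then the directions tend to the direction of `v`. -/
lemma tendsto_mk {u : ℕ → ι → ℝ} {v : ι → ℝ} (hv : v ≠ 0) (hu : ∀ n, u n ≠ 0)
    (h : Tendsto u atTop (𝓝 v)) :
    Tendsto (fun n => Projectivization.mk ℝ (u n) (hu n)) atTop
      (𝓝 (Projectivization.mk ℝ v hv)) := by
  have h1 : Tendsto (fun n => (⟨u n, hu n⟩ : {v : ι → ℝ // v ≠ 0})) atTop (𝓝 ⟨v, hv⟩) :=
    tendsto_subtype_rng.2 h
  exact (continuous_mk'.tendsto _).comp h1

lemma tendsto_mk_smul {u : ℕ → ι → ℝ} {a : ℕ → ℝ} {v : ι → ℝ} (hv : v ≠ 0) (hu : ∀ n, u n ≠ 0)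
    (h : Tendsto (fun n => a n • u n) atTop (𝓝 v)) :
    Tendsto (fun n => Projectivization.mk ℝ (u n) (hu n)) atTop
      (𝓝 (Projectivization.mk ℝ v hv)) := by
  have h0 : ∀ᶠ n in atTop, a n • u n ≠ 0 := h.eventually_ne hv
  obtain ⟨N, hN⟩ := eventually_atTop.1 h0
  rw [← tendsto_add_atTop_iff_nat N]
  have h1 : ∀ n, a (n + N) • u (n + N) ≠ 0 := fun n => hN _ (by omega)
  have h2 := tendsto_mk hv h1 ((tendsto_add_atTop_iff_nat N).2 h)
  refine h2.congr (fun n => ?_)
  rw [Projectivization.mk_eq_mk_iff']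
  exact ⟨a (n + N), rfl⟩

/-- A sufficient condition for accumulation. -/
lemma acc_of_seq {C : Set (ℙ ℝ (ι → ℝ))} {u : ℕ → ι → ℝ} {a : ℕ → ℝ} {v : ι → ℝ}
    (hv : v ≠ 0) (hu : ∀ n, u n ≠ 0) (h : Tendsto (fun n => a n • u n) atTop (𝓝 v))
    (hC : ∀ n, Projectivization.mk ℝ (u n) (hu n) ∈ C)
    (hne : ∀ n, Projectivization.mk ℝ (u n) (hu n) ≠ Projectivization.mk ℝ v hv) :
    AccPt (Projectivization.mk ℝ v hv) (𝓟 C) := by
  rw [accPt_iff_nhds]
  intro U hU
  obtain ⟨n, hn⟩ := ((tendsto_mk_smul hv hu h).eventually hU).exists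
  exact ⟨_, ⟨hn, hC n⟩, hne n⟩

/-- A necessary condition for accumulation. -/
lemma seq_of_acc {C : Set (ℙ ℝ (ι → ℝ))} {v : ι → ℝ} (hv : v ≠ 0)
    (h : AccPt (Projectivization.mk ℝ v hv) (𝓟 C)) :
    ∃ u : ℕ → ι → ℝ, ∃ hu : ∀ n, u n ≠ 0, Tendsto u atTop (𝓝 v) ∧
      (∀ n, Projectivization.mk ℝ (u n) (hu n) ∈ C) ∧
      ∀ n, Projectivization.mk ℝ (u n) (hu n) ≠ Projectivization.mk ℝ v hv := by
  rw [accPt_iff_nhds] at h
  have h1 : ∀ n : ℕ, ∃ u : ι → ℝ, ∃ hu : u ≠ 0, ‖u - v‖ < 1 / ((n : ℝ) + 1) ∧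
      Projectivization.mk ℝ u hu ∈ C ∧
      Projectivization.mk ℝ u hu ≠ Projectivization.mk ℝ v hv := by
    intro n
    have hpos : (0 : ℝ) < 1 / ((n : ℝ) + 1) := by positivity
    obtain ⟨y, ⟨hy1, hy2⟩, hy3⟩ := h _ ((nearDir_open v _).mem_nhds (mem_nearDir hv hpos))
    obtain ⟨u, hu, huv, rfl⟩ := hy1
    exact ⟨u, hu, huv, hy2, hy3⟩
  choose u hu huv huC hune using h1
  refine ⟨u, hu, ?_, huC, hune⟩
  rw [tendsto_iff_norm_sub_tendsto_zero]
  exact squeeze_zero (fun _ => norm_nonneg _) (fun n => (huv n).le)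
    tendsto_one_div_add_atTop_nhds_zero_nat

/-- If `a_n u_n → v` with `u_n` never parallel to `v` then each value is taken finitely often. -/
lemma finite_fiber {u : ℕ → ι → ℝ} {a : ℕ → ℝ} {v : ι → ℝ} (hv : v ≠ 0)
    (hu : ∀ n, u n ≠ 0) (h : Tendsto (fun n => a n • u n) atTop (𝓝 v))
    (hne : ∀ n, Projectivization.mk ℝ (u n) (hu n) ≠ Projectivization.mk ℝ v hv)
    (w : ι → ℝ) : {n | u n = w}.Finite := by
  by_contra hcon
  have hinf : {n | u n = w}.Infinite := hcon
  have hfreq : ∃ᶠ n in atTop, u n = w := Nat.frequently_atTop_iff_infinite.2 hinf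
  have hcl : v ∈ closure ((Submodule.span ℝ {w} : Submodule ℝ (ι → ℝ)) : Set (ι → ℝ)) := by
    apply mem_closure_of_frequently_of_tendsto _ h
    refine hfreq.mono (fun n hn => ?_)
    rw [hn]
    exact Submodule.smul_mem _ _ (Submodule.mem_span_singleton_self w)
  rw [(Submodule.closed_of_finiteDimensional (Submodule.span ℝ {w})).closure_eq] at hcl
  obtain ⟨c, hc⟩ := Submodule.mem_span_singleton.1 hcl
  obtain ⟨n, hn⟩ := hfreq.exists
  apply hne n
  rw [Projectivization.mk_eq_mk_iff']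
  have hc0 : c ≠ 0 := by
    rintro rfl
    rw [zero_smul] at hc
    exact hv hc.symm
  refine ⟨c⁻¹, ?_⟩
  rw [← hc, smul_smul, inv_mul_cancel₀ hc0, one_smul, hn]

/-- The form is invariant under the group. -/
lemma GeomCoxeter.form_refl (D : GeomCoxeter ι) (s : ι) (x y : ι → ℝ) :
    D.form (D.refl s x) (D.refl s y) = D.form x y := by
  rw [D.refl_apply, D.refl_apply, sub_eq_add_neg, sub_eq_add_neg, ← neg_smul, ← neg_smul,
    D.form_add_right, D.form_smul_right, D.form_comm _ y, D.form_comm _ (al s),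
    D.form_add_right, D.form_add_right, D.form_smul_right, D.form_smul_right, D.form_al_al,
    D.b_diag, D.form_comm y x, D.form_comm y (al s)]
  ring

lemma GeomCoxeter.form_W (D : GeomCoxeter ι) {g : (ι → ℝ) ≃ₗ[ℝ] (ι → ℝ)} (hg : g ∈ D.W)
    (x y : ι → ℝ) : D.form (g x) (g y) = D.form x y := by
  unfold GeomCoxeter.W at hg
  induction hg using Subgroup.closure_induction generalizing x y with
  | mem g hg =>
      obtain ⟨s, rfl⟩ := hg
      exact D.form_refl s x y
  | one => rfl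
  | mul g h _ _ hg hh =>
      show D.form (g (h x)) (g (h y)) = _
      rw [hg, hh]
  | inv g _ hg =>
      have h1 : ∀ z, g (g⁻¹ z) = z := fun z => by
        show (g * g⁻¹) z = z
        rw [mul_inv_cancel]
        rfl
      rw [← hg, h1, h1]

lemma GeomCoxeter.orbit_mk (D : GeomCoxeter ι) {x : ι → ℝ} (hx : x ≠ 0) :
    D.orbit (Projectivization.mk ℝ x hx) =
      {q | ∃ g ∈ D.W, ∃ h : g x ≠ 0, q = Projectivization.mk ℝ (g x) h} := by
  ext q
  constructor
  · rintro ⟨g, hg, rfl⟩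
    exact ⟨g, hg, fun h => hx (g.injective (h.trans (map_zero g).symm)), rfl⟩
  · rintro ⟨g, hg, h, rfl⟩
    exact ⟨g, hg, rfl⟩

lemma GeomCoxeter.orbit_eq (D : GeomCoxeter ι) {x : ι → ℝ} (hx : x ≠ 0)
    {g : (ι → ℝ) ≃ₗ[ℝ] (ι → ℝ)} (hg : g ∈ D.W) (hgx : g x ≠ 0) :
    D.orbit (Projectivization.mk ℝ (g x) hgx) = D.orbit (Projectivization.mk ℝ x hx) := by
  rw [D.orbit_mk, D.orbit_mk]
  ext q
  constructor
  · rintro ⟨h, hh, h1, rfl⟩
    exact ⟨h * g, D.W.mul_mem hh hg, h1, rfl⟩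
  · rintro ⟨h, hh, h1, rfl⟩
    have h2 : (h * g⁻¹) (g x) = h x := by
      show h (g⁻¹ (g x)) = h x
      have : g⁻¹ (g x) = x := by
        show (g⁻¹ * g) x = x
        rw [inv_mul_cancel]
        rfl
      rw [this]
    refine ⟨h * g⁻¹, D.W.mul_mem hh (D.W.inv_mem hg), ?_, ?_⟩
    · rw [h2]
      exact h1
    · congr 1
      exact h2.symm

end General

end Pool.Agent.Q26.CoxLim
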