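import Pool.Agent.Helper741.Matsumoto

set_option autoImplicit false

namespace Pool.Agent.Q26.CoxSign

open CoxeterSystem Pool.Agent.Helper741 Pool.Agent.Helper741.TExt

variable {B : Type*} {M : CoxeterMatrix B} {W : Type*} [Group W] (cs : CoxeterSystem M W)

/-- `nn w r = 1` iff `r` is a left inversion of `w` (the mod 2 inversion cocycle). -/
noncomputable def nn (w r : W) : ZMod 2 := (invc cs w).v r

@[simp] lemma nn_one (r : W) : nn cs 1 r = 0 := by simp [nn]

lemma nn_simple [DecidableEq W] (i : B) (r : W) :
    nn cs (cs.simple i) r = if cs.simple i = r then 1 else 0 := by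
  simp [nn, Finsupp.single_apply]

lemma nn_simple_self (i : B) : nn cs (cs.simple i) (cs.simple i) = 1 := by
  classical
  rw [nn_simple, if_pos rfl]

lemma nn_mul (x y r : W) : nn cs (x * y) r = nn cs x r + nn cs y (x⁻¹ * r * x) := by
  simp [nn]

lemma neg_zmod2 (a : ZMod 2) : -a = a := by
  revert a; decide

lemma add_self_zmod2 (a : ZMod 2) : a + a = 0 := by
  revert a; decide

lemma nn_inv (x r : W) : nn cs x⁻¹ r = nn cs x (x * r * x⁻¹) := by
  simp [nn]

lemma nn_wordProd (ω : List B) (r : W) [DecidableEq W] :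
    nn cs (cs.wordProd ω) r = ((cs.leftInvSeq ω).count r : ℕ) := by
  induction ω generalizing r with
  | nil => simp
  | cons i ω ih =>
    rw [cs.wordProd_cons, nn_mul, nn_simple, ih, leftInvSeq, List.count_cons]
    have h1 : List.count r (List.map (MulAut.conj (cs.simple i)) (cs.leftInvSeq ω)) =
        List.count ((cs.simple i)⁻¹ * r * cs.simple i) (cs.leftInvSeq ω) := by
      have h2 : r = MulAut.conj (cs.simple i) ((cs.simple i)⁻¹ * r * cs.simple i) := by
        simp only [MulAut.conj_apply]; group
      conv_lhs => rw [h2]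
      exact List.count_map_of_injective _ _ (MulAut.conj (cs.simple i)).injective _
    rw [h1]
    by_cases h3 : cs.simple i = r
    · simp [h3, add_comm]
    · simp [h3]

lemma isLeftInversion_of_nn {w r : W} (h : nn cs w r ≠ 0) : cs.length (r * w) < cs.length w := by
  classical
  obtain ⟨ω, hred, rfl⟩ := cs.exists_isReduced w
  exact (cs.isLeftInversion_of_mem_leftInvSeq hred (mem_leftInvSeq_of_invc cs ω r h)).2

/-- If the only left inversion of `x` is `x` itself, then `x` has length at most one. -/
lemma length_le_one {x : W} (h : ∀ r, nn cs x r ≠ 0 → r = x) : cs.length x ≤ 1 := by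
  classical
  obtain ⟨ω, hred, hx⟩ := cs.exists_isReduced x
  rw [hx, hred.eq, ← cs.length_leftInvSeq ω]
  have hnd := hred.nodup_leftInvSeq
  have hall : ∀ r ∈ cs.leftInvSeq ω, r = x := by
    intro r hr
    apply h
    rw [hx, nn_wordProd, List.count_eq_one_of_mem hnd hr]
    exact one_ne_zero
  match hL : cs.leftInvSeq ω with
  | [] => simp
  | [a] => simp
  | a :: b :: l =>
    exfalso
    rw [hL] at hnd hall
    have h1 := hall a (by simp)
    have h2 := hall b (by simp)
    rw [h1, h2] at hnd
    simp at hnd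

lemma eq_one_of_nn {x : W} (h : ∀ r, nn cs x r = 0) : x = 1 := by
  classical
  obtain ⟨ω, hred, hx⟩ := cs.exists_isReduced x
  have : cs.leftInvSeq ω = [] := by
    rw [List.eq_nil_iff_forall_not_mem]
    intro r hr
    have h1 := h r
    rw [hx, nn_wordProd, List.count_eq_one_of_mem hred.nodup_leftInvSeq hr] at h1
    exact one_ne_zero h1
  have h2 : ω.length = 0 := by rw [← cs.length_leftInvSeq ω, this]; rfl
  rw [List.length_eq_zero_iff] at h2
  rw [hx, h2]; simp

/-- the parabolic subgroup generated by two simple reflections -/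
def PP (i j : B) : Subgroup W := Subgroup.closure {cs.simple i, cs.simple j}

lemma PP_comm (i j : B) : PP cs i j = PP cs j i := by
  unfold PP; rw [Set.pair_comm]

lemma simple_mem_left (i j : B) : cs.simple i ∈ PP cs i j :=
  Subgroup.subset_closure (by simp)

lemma simple_mem_right (i j : B) : cs.simple j ∈ PP cs i j :=
  Subgroup.subset_closure (by simp)

/-- Left inversions of an element of the parabolic subgroup lie in it. -/
lemma nn_eq_zero_of_not_mem {i j : B} {a r : W} (ha : a ∈ PP cs i j) (hr : r ∉ PP cs i j) :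
    nn cs a r = 0 := by
  classical
  induction ha using Subgroup.closure_induction generalizing r with
  | mem x hx =>
    simp only [Set.mem_insert_iff, Set.mem_singleton_iff] at hx
    rcases hx with rfl | rfl
    · rw [nn_simple, if_neg]
      rintro rfl; exact hr (simple_mem_left cs i j)
    · rw [nn_simple, if_neg]
      rintro rfl; exact hr (simple_mem_right cs i j)
  | one => simp
  | mul x y hx hy ihx ihy =>
    rw [nn_mul, ihx hr, ihy, add_zero]
    intro h
    apply hr
    have h1 := mul_mem (mul_mem (show x ∈ PP cs i j from hx) h) (inv_mem (show x ∈ PP cs i j from hx))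
    have h2 : x * (x⁻¹ * r * x) * x⁻¹ = r := by group
    rwa [h2] at h1
  | inv x hx ihx =>
    rw [nn_inv, ihx]
    intro h
    apply hr
    have h1 := mul_mem (mul_mem (inv_mem (show x ∈ PP cs i j from hx)) h) (show x ∈ PP cs i j from hx)
    have h2 : x⁻¹ * (x * r * x⁻¹) * x = r := by group
    rwa [h2] at h1

/-- Minimal coset representatives. -/
lemma exists_min (P : Subgroup W) (w : W) : ∃ a ∈ P, ∀ d ∈ P, nn cs (a * w) d = 0 := by
  have hne : (Set.range (fun a : P => cs.length ((a : W) * w))).Nonempty := ⟨_, ⟨1, rfl⟩⟩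
  obtain ⟨⟨a, ha⟩, haw⟩ := Nat.sInf_mem hne
  refine ⟨a, ha, fun d hd => ?_⟩
  by_contra hn
  have h1 := isLeftInversion_of_nn cs hn
  have h2 : sInf (Set.range (fun a : P => cs.length ((a : W) * w))) ≤ cs.length (d * a * w) :=
    Nat.sInf_le ⟨⟨d * a, mul_mem hd ha⟩, rfl⟩
  simp only at haw
  rw [← haw, mul_assoc] at h2
  omega

section Fin
variable [Fintype B] [DecidableEq B]

lemma length_alt {i j : B} (hij : i ≠ j) {k : ℕ} (hk : M i j = 0 ∨ k ≤ M i j) :
    cs.length (alt (cs.simple i) (cs.simple j) k) = k := by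
  rw [← wordProd_aw, (isReduced_aw cs hij hk).eq, aw_length]

omit [Fintype B] [DecidableEq B] in
lemma alt_comm_simple (i j : B) :
    alt (cs.simple i) (cs.simple j) (M i j) = alt (cs.simple j) (cs.simple i) (M i j) :=
  alt_comm_of_pow (cs.simple_mul_simple_self i) (cs.simple_mul_simple_self j)
    (cs.simple_mul_simple_pow i j)

omit [Fintype B] [DecidableEq B] in
lemma simple_mul_alt_of {i j : B} (hij : i ≠ j) (h0 : M i j ≠ 0) {x : W}
    (h : (∃ k ≤ M i j, x = alt (cs.simple i) (cs.simple j) k) ∨
      (∃ k ≤ M i j, x = alt (cs.simple j) (cs.simple i) k)) :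
    (∃ k ≤ M i j, cs.simple i * x = alt (cs.simple i) (cs.simple j) k) ∨
      (∃ k ≤ M i j, cs.simple i * x = alt (cs.simple j) (cs.simple i) k) := by
  have h2 := two_le_of_ne M hij h0
  rcases h with ⟨k, hk, rfl⟩ | ⟨k, hk, rfl⟩
  · cases k with
    | zero => exact Or.inl ⟨1, by omega, by simp⟩
    | succ k =>
      right
      refine ⟨k, by omega, ?_⟩
      rw [alt_succ, ← mul_assoc, cs.simple_mul_simple_self, one_mul]
  · by_cases hkm : k = M i j
    · right
      obtain ⟨m, hm⟩ : ∃ m, M i j = m + 1 := ⟨M i j - 1, by omega⟩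
      refine ⟨m, by omega, ?_⟩
      rw [hkm, ← alt_comm_simple, hm, alt_succ, ← mul_assoc, cs.simple_mul_simple_self, one_mul]
    · left
      refine ⟨k + 1, by omega, ?_⟩
      rw [alt_succ]

omit [Fintype B] [DecidableEq B] in
/-- Elements of a finite rank two parabolic subgroup are alternating products. -/
lemma mem_PP_alt {i j : B} (hij : i ≠ j) (h0 : M i j ≠ 0) {x : W} (hx : x ∈ PP cs i j) :
    (∃ k ≤ M i j, x = alt (cs.simple i) (cs.simple j) k) ∨
      (∃ k ≤ M i j, x = alt (cs.simple j) (cs.simple i) k) := by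
  have h0' : M j i ≠ 0 := by rwa [M.symmetric j i]
  have key : ∀ y ∈ ({cs.simple i, cs.simple j} : Set W), ∀ x : W,
      ((∃ k ≤ M i j, x = alt (cs.simple i) (cs.simple j) k) ∨
      (∃ k ≤ M i j, x = alt (cs.simple j) (cs.simple i) k)) →
      ((∃ k ≤ M i j, y * x = alt (cs.simple i) (cs.simple j) k) ∨
      (∃ k ≤ M i j, y * x = alt (cs.simple j) (cs.simple i) k)) := by
    rintro y hy x h
    simp only [Set.mem_insert_iff, Set.mem_singleton_iff] at hy
    rcases hy with rfl | rfl
    · exact simple_mul_alt_of cs hij h0 h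
    · have := simple_mul_alt_of cs (Ne.symm hij) h0' (x := x) (by rw [M.symmetric j i]; exact h.symm)
      rw [M.symmetric j i] at this
      exact this.symm
  unfold PP at hx
  induction hx using Subgroup.closure_induction_left with
  | one => exact Or.inl ⟨0, by omega, by simp⟩
  | mul_left y hy x _ ih => exact key y hy x ih
  | inv_mul_cancel y hy x _ ih =>
    have : y⁻¹ = y := by
      simp only [Set.mem_insert_iff, Set.mem_singleton_iff] at hy
      rcases hy with rfl | rfl <;> exact cs.inv_simple _
    rw [this]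
    exact key y hy x ih

/-- An element of a finite rank two parabolic subgroup of length one is one of its generators. -/
lemma eq_simple_of_length {i j : B} (hij : i ≠ j) (h0 : M i j ≠ 0) {x : W} (hx : x ∈ PP cs i j)
    (hl : cs.length x = 1) : x = cs.simple i ∨ x = cs.simple j := by
  rcases mem_PP_alt cs hij h0 hx with ⟨k, hk, rfl⟩ | ⟨k, hk, rfl⟩
  · rw [length_alt cs hij (Or.inr hk)] at hl
    rw [hl]; simp
  · rw [length_alt cs (Ne.symm hij) (Or.inr (by rwa [M.symmetric j i]))] at hl
    rw [hl]; simp

/-- Key lemma: a reflection `u s' u⁻¹` in the rank two parabolic subgroup with `u` minimal in its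
left coset is a simple generator of this parabolic. -/
lemma conj_simple_of_min {i j : B} (hij : i ≠ j) (h0 : M i j ≠ 0) {u : W}
    (hu : ∀ d ∈ PP cs i j, nn cs u d = 0) {k : B}
    (hx : u * cs.simple k * u⁻¹ ∈ PP cs i j) :
    u * cs.simple k * u⁻¹ = cs.simple i ∨ u * cs.simple k * u⁻¹ = cs.simple j := by
  classical
  apply eq_simple_of_length cs hij h0 hx
  set x := u * cs.simple k * u⁻¹ with hxdef
  have hle : cs.length x ≤ 1 := by
    apply length_le_one
    intro r hr
    by_contra hne
    apply hr
    by_cases hrP : r ∈ PP cs i j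
    · rw [hxdef, nn_mul, nn_mul, hu r hrP, nn_inv, nn_simple]
      have e1 : (u * cs.simple k)⁻¹ * r * (u * cs.simple k) =
        u⁻¹ * (x⁻¹ * r * x) * u := by rw [hxdef]; group
      have e2 : u * ((u * cs.simple k)⁻¹ * r * (u * cs.simple k)) * u⁻¹ = x⁻¹ * r * x := by
        rw [e1]; group
      rw [e2, hu _ (mul_mem (mul_mem (inv_mem hx) hrP) hx), if_neg]
      · ring
      · intro h
        apply hne
        rw [hxdef, h]; group
    · exact nn_eq_zero_of_not_mem cs hx hrP
  have hne : x ≠ 1 := by
    intro h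
    have h1 : cs.simple k = 1 := by
      have : cs.simple k = u⁻¹ * x * u := by rw [hxdef]; group
      rw [this, h]; group
    have h2 := cs.length_simple k
    rw [h1, cs.length_one] at h2
    omega
  have hne' : cs.length x ≠ 0 := by
    rw [Ne, cs.length_eq_zero_iff]; exact hne
  omega

end Fin

end Pool.Agent.Q26.CoxSign
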