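import Pool.Agent.Q26.CoxSgA

set_option autoImplicit false

namespace Pool.Agent.Q26.CoxSign

open CoxeterSystem Pool.Agent.Helper741 Pool.Agent.Helper741.TExt

variable {B : Type*} {M : CoxeterMatrix B} {W : Type*} [Group W] (cs : CoxeterSystem M W)

/-- `c` is invariant under simultaneous conjugation and under swapping. -/
structure Inv (c : B → B → ℤˣ) : Prop where
  conj : ∀ i j i' j' : B, i ≠ j → M i j ≠ 0 → i' ≠ j' → M i' j' ≠ 0 → ∀ g : W,
    g * cs.simple i * g⁻¹ = cs.simple i' → g * cs.simple j * g⁻¹ = cs.simple j' →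
    c i j = c i' j'
  symm : ∀ i j : B, i ≠ j → M i j ≠ 0 → c i j = c j i

/-- canonical pairs of reflections of sign `-1` -/
def Can (c : B → B → ℤˣ) (r r' : W) : Prop :=
  ∃ (g : W) (i j : B), i ≠ j ∧ M i j ≠ 0 ∧ c i j = -1 ∧ (∀ d ∈ PP cs i j, nn cs g⁻¹ d = 0) ∧
    r = g * cs.simple i * g⁻¹ ∧ r' = g * cs.simple j * g⁻¹

variable {cs}

lemma Can.symm {c : B → B → ℤˣ} (hc : Inv cs c) {r r' : W} (h : Can cs c r r') : Can cs c r' r := by
  obtain ⟨g, i, j, hij, h0, hm, hg, h1, h2⟩ := h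
  refine ⟨g, j, i, hij.symm, by rwa [M.symmetric j i], ?_, ?_, h2, h1⟩
  · rw [← hc.symm i j hij h0]; exact hm
  · intro d hd; exact hg d (by rwa [PP_comm])

variable (cs)

section Fin
variable [Fintype B] [DecidableEq B]

variable {cs} in
lemma Can.ne {c : B → B → ℤˣ} {r r' : W} (h : Can cs c r r') : r ≠ r' := by
  obtain ⟨g, i, j, hij, h0, hm, hg, h1, h2⟩ := h
  intro he
  rw [h1, h2] at he
  have := mul_left_cancel (mul_right_cancel he)
  exact hij (simple_injective cs this)

omit [Fintype B] [DecidableEq B] in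
lemma PP_conj {i j i' j' : B} {u : W} (h : (u * cs.simple i' * u⁻¹ = cs.simple i ∧
    u * cs.simple j' * u⁻¹ = cs.simple j) ∨ (u * cs.simple i' * u⁻¹ = cs.simple j ∧
    u * cs.simple j' * u⁻¹ = cs.simple i)) {e : W} (he : e ∈ PP cs i j) :
    u⁻¹ * e * u ∈ PP cs i' j' := by
  unfold PP at he
  induction he using Subgroup.closure_induction with
  | mem x hx =>
    simp only [Set.mem_insert_iff, Set.mem_singleton_iff] at hx
    rcases h with ⟨h1, h2⟩ | ⟨h1, h2⟩ <;> rcases hx with rfl | rfl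
    · rw [← h1]
      have : u⁻¹ * (u * cs.simple i' * u⁻¹) * u = cs.simple i' := by group
      rw [this]; exact simple_mem_left cs i' j'
    · rw [← h2]
      have : u⁻¹ * (u * cs.simple j' * u⁻¹) * u = cs.simple j' := by group
      rw [this]; exact simple_mem_right cs i' j'
    · rw [← h2]
      have : u⁻¹ * (u * cs.simple j' * u⁻¹) * u = cs.simple j' := by group
      rw [this]; exact simple_mem_right cs i' j'
    · rw [← h1]
      have : u⁻¹ * (u * cs.simple i' * u⁻¹) * u = cs.simple i' := by group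
      rw [this]; exact simple_mem_left cs i' j'
  | one => simp
  | mul x y _ _ hx hy =>
    have : u⁻¹ * (x * y) * u = (u⁻¹ * x * u) * (u⁻¹ * y * u) := by group
    rw [this]; exact mul_mem hx hy
  | inv x _ hx =>
    have : u⁻¹ * x⁻¹ * u = (u⁻¹ * x * u)⁻¹ := by group
    rw [this]; exact inv_mem hx

/-- Uniqueness of the canonical pair inside a rank two reflection subgroup. -/
theorem can_unique {c : B → B → ℤˣ} (hc : Inv cs c) {i j : B} (hij : i ≠ j) (h0 : M i j ≠ 0)
    {w : W} (hw : ∀ d ∈ PP cs i j, nn cs w⁻¹ d = 0) {r r' : W} (h : Can cs c r r')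
    (hr : w⁻¹ * r * w ∈ PP cs i j) (hr' : w⁻¹ * r' * w ∈ PP cs i j) :
    c i j = -1 ∧ ((r = w * cs.simple i * w⁻¹ ∧ r' = w * cs.simple j * w⁻¹) ∨
      (r = w * cs.simple j * w⁻¹ ∧ r' = w * cs.simple i * w⁻¹)) := by
  obtain ⟨v, i', j', hij', h0', hm', hv, h1, h2⟩ := h
  obtain ⟨a, ha, hau⟩ := exists_min cs (PP cs i j) (w⁻¹ * v)
  obtain ⟨u, hu⟩ : ∃ u, u = a * (w⁻¹ * v) := ⟨_, rfl⟩
  rw [← hu] at hau
  have hx : u * cs.simple i' * u⁻¹ ∈ PP cs i j := by
    have : u * cs.simple i' * u⁻¹ = a * (w⁻¹ * r * w) * a⁻¹ := by rw [hu, h1]; group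
    rw [this]
    exact mul_mem (mul_mem ha hr) (inv_mem ha)
  have hy : u * cs.simple j' * u⁻¹ ∈ PP cs i j := by
    have : u * cs.simple j' * u⁻¹ = a * (w⁻¹ * r' * w) * a⁻¹ := by rw [hu, h2]; group
    rw [this]
    exact mul_mem (mul_mem ha hr') (inv_mem ha)
  have hx' := conj_simple_of_min cs hij h0 hau hx
  have hy' := conj_simple_of_min cs hij h0 hau hy
  have hne : u * cs.simple i' * u⁻¹ ≠ u * cs.simple j' * u⁻¹ := by
    intro he
    exact hij' (simple_injective cs (mul_left_cancel (mul_right_cancel he)))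
  have hcase : (u * cs.simple i' * u⁻¹ = cs.simple i ∧
    u * cs.simple j' * u⁻¹ = cs.simple j) ∨ (u * cs.simple i' * u⁻¹ = cs.simple j ∧
    u * cs.simple j' * u⁻¹ = cs.simple i) := by
    rcases hx' with hx' | hx' <;> rcases hy' with hy' | hy'
    · exact absurd (hx'.trans hy'.symm) hne
    · exact Or.inl ⟨hx', hy'⟩
    · exact Or.inr ⟨hx', hy'⟩
    · exact absurd (hx'.trans hy'.symm) hne
  have hcij : c i j = -1 := by
    rcases hcase with ⟨h3, h4⟩ | ⟨h3, h4⟩
    · rw [← hc.conj i' j' i j hij' h0' hij h0 u h3 h4]; exact hm'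
    · rw [hc.symm i j hij h0, ← hc.conj i' j' j i hij' h0' hij.symm (by rwa [M.symmetric j i]) u h3 h4]
      exact hm'
  have ha1 : a = 1 := by
    apply eq_one_of_nn cs
    intro e
    by_cases he : e ∈ PP cs i j
    · have h3 := hv _ (PP_conj cs hcase he)
      have h4 : v⁻¹ = u⁻¹ * (a * w⁻¹) := by rw [hu]; group
      rw [h4, nn_mul, nn_inv, nn_mul] at h3
      have e1 : u * (u⁻¹ * e * u) * u⁻¹ = e := by group
      have e2 : u⁻¹⁻¹ * (u⁻¹ * e * u) * u⁻¹ = e := by group
      rw [e1, e2, hau e he, hw _ (mul_mem (mul_mem (inv_mem ha) he) ha), zero_add, add_zero] at h3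
      exact h3
    · exact nn_eq_zero_of_not_mem cs ha he
  refine ⟨hcij, ?_⟩
  have hu' : v = w * u := by rw [hu, ha1]; group
  rcases hcase with ⟨h3, h4⟩ | ⟨h3, h4⟩
  · left
    constructor
    · rw [h1, hu', ← h3]; group
    · rw [h2, hu', ← h4]; group
  · right
    constructor
    · rw [h1, hu', ← h3]; group
    · rw [h2, hu', ← h4]; group

end Fin

open Classical in
/-- the sign kernel -/
noncomputable def kap (c : B → B → ℤˣ) (r r' : W) : ZMod 2 :=
  if Can cs c r r' ∧ WellOrderingRel r r' then 1 else 0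

/-- `KK r v = ∑_{r'} v(r') kap(r, r')` -/
noncomputable def KK (c : B → B → ℤˣ) (r : W) : (W →₀ ZMod 2) →ₗ[ZMod 2] ZMod 2 :=
  Finsupp.linearCombination (ZMod 2) (kap cs c r)

lemma KK_single (c : B → B → ℤˣ) (r x : W) : KK cs c r (Finsupp.single x 1) = kap cs c r x := by
  simp [KK]

/-- the permutation attached to a simple reflection -/
noncomputable def step (c : B → B → ℤˣ) (i : B) (p : W × ZMod 2) : W × ZMod 2 :=
  (p.1 * cs.simple i, p.2 + KK cs c (p.1 * cs.simple i * p.1⁻¹) (invc cs p.1).v)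

lemma invc_mul_simple_v (w : W) (i : B) :
    (invc cs (w * cs.simple i)).v = (invc cs w).v + Finsupp.single (w * cs.simple i * w⁻¹) 1 := by
  rw [map_mul, mul_v, invc_w, invc_simple, el_v, act_single]

section Fin
variable [Fintype B] [DecidableEq B]

lemma kap_self (c : B → B → ℤˣ) (r : W) : kap cs c r r = 0 := by
  rw [kap, if_neg]
  rintro ⟨h, -⟩
  exact h.ne rfl

lemma step_step (c : B → B → ℤˣ) (i : B) (p : W × ZMod 2) : step cs c i (step cs c i p) = p := by
  obtain ⟨w, ε⟩ := p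
  unfold step
  have h1 : w * cs.simple i * cs.simple i * (w * cs.simple i)⁻¹ = w * cs.simple i * w⁻¹ := by
    rw [mul_inv_rev, cs.inv_simple, mul_assoc w, cs.simple_mul_simple_self, mul_one, mul_assoc]
  ext1
  · simp
  · simp only
    rw [h1, invc_mul_simple_v, map_add, KK_single, kap_self, add_zero, add_assoc, add_self_zmod2,
      add_zero]

/-- the permutation attached to a simple reflection -/
noncomputable def stepE (c : B → B → ℤˣ) (i : B) : Equiv.Perm (W × ZMod 2) :=
  ⟨step cs c i, step cs c i, step_step cs c i, step_step cs c i⟩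

lemma stepE_apply (c : B → B → ℤˣ) (i : B) (p : W × ZMod 2) : stepE cs c i p = step cs c i p := rfl

lemma stepE_mul_self (c : B → B → ℤˣ) (i : B) : stepE cs c i * stepE cs c i = 1 := by
  ext1 p
  exact step_step cs c i p

end Fin

end Pool.Agent.Q26.CoxSign
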