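import Pool.Agent.Q26.CoxSgB

set_option autoImplicit false

namespace Pool.Agent.Q26.CoxSign

open CoxeterSystem Pool.Agent.Helper741 Pool.Agent.Helper741.TExt

/-! ### two summation lemmas -/

lemma sum_two_period (m : ℕ) (g : ℕ → ZMod 2) (hg : ∀ p, g (p + m) = g p) :
    ∑ p ∈ Finset.range (2 * m), g p = 0 := by
  rw [two_mul, Finset.sum_range_add]
  have : ∀ p, g (m + p) = g p := fun p => by rw [add_comm]; exact hg p
  simp only [this]
  exact add_self_zmod2 _

lemma sum_two_period₂ (m : ℕ) (f : ℕ → ℕ → ZMod 2) (h1 : ∀ p q, f (p + m) q = f p q)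
    (h2 : ∀ p q, f p (q + m) = f p q) :
    ∑ p ∈ Finset.range (2 * m), ∑ q ∈ Finset.range p, f p q =
      ∑ p ∈ Finset.range m, ∑ q ∈ Finset.range m, f p q := by
  rw [two_mul, Finset.sum_range_add]
  have e1 : ∀ p, ∑ q ∈ Finset.range (m + p), f (m + p) q =
      ∑ q ∈ Finset.range m, f p q + ∑ q ∈ Finset.range p, f p q := by
    intro p
    rw [Finset.sum_range_add]
    have a1 : ∀ q, f (m + p) q = f p q := fun q => by rw [add_comm]; exact h1 p q
    have a2 : ∀ q, f p (m + q) = f p q := fun q => by rw [add_comm]; exact h2 p q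
    simp only [a1, a2]
  simp only [e1]
  rw [Finset.sum_add_distrib, add_comm (∑ p ∈ Finset.range m, ∑ q ∈ Finset.range m, f p q),
    ← add_assoc, add_self_zmod2, zero_add]

variable {B : Type*} {M : CoxeterMatrix B} {W : Type*} [Group W] (cs : CoxeterSystem M W)

/-- the reflections of the dihedral subgroup `w W_{ij} w⁻¹`, in their natural order -/
def rho (w : W) (i j : B) (p : ℕ) : W :=
  w * ((cs.simple i * cs.simple j) ^ p * cs.simple i) * w⁻¹

lemma rho_add (w : W) (i j : B) (p : ℕ) : rho cs w i j (p + M i j) = rho cs w i j p := by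
  unfold rho
  rw [pow_add, cs.simple_mul_simple_pow, mul_one]

lemma conj_alt (w : W) (i j : B) (p : ℕ) :
    w * alt (cs.simple i) (cs.simple j) p * (if Even p then cs.simple i else cs.simple j) *
      (w * alt (cs.simple i) (cs.simple j) p)⁻¹ = rho cs w i j p := by
  unfold rho
  rw [← alt_conj (cs.simple_mul_simple_self i) (cs.simple_mul_simple_self j)]
  group

lemma invc_alt_v (w : W) (i j : B) (p : ℕ) :
    (invc cs (w * alt (cs.simple i) (cs.simple j) p)).v =
      (invc cs w).v + ∑ q ∈ Finset.range p, Finsupp.single (rho cs w i j q) 1 := by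
  induction p with
  | zero => simp
  | succ p ih =>
    rw [alt_succ', ← mul_assoc, Finset.sum_range_succ, ← add_assoc, ← ih, ← conj_alt]
    split_ifs
    · rw [invc_mul_simple_v]
    · rw [invc_mul_simple_v]

section Fin
variable [Fintype B] [DecidableEq B]

/-- alternating products of the two permutations -/
noncomputable def iter (c : B → B → ℤˣ) (i j : B) : ℕ → Equiv.Perm (W × ZMod 2)
  | 0 => 1
  | (p + 1) => (if Even p then stepE cs c i else stepE cs c j) * iter c i j p

lemma iter_two_mul (c : B → B → ℤˣ) (i j : B) (k : ℕ) :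
    iter cs c i j (2 * k) = (stepE cs c j * stepE cs c i) ^ k := by
  induction k with
  | zero => rfl
  | succ k ih =>
    have h1 : 2 * (k + 1) = (2 * k + 1) + 1 := by ring
    have he : Even (2 * k) := even_two_mul k
    have ho : ¬ Even (2 * k + 1) := by rw [Nat.even_add_one]; simpa using he
    rw [h1, iter, iter, if_neg ho, if_pos he, ih, pow_succ', mul_assoc]

lemma iter_apply (c : B → B → ℤˣ) (i j : B) (w : W) (ε : ZMod 2) (p : ℕ) :
    iter cs c i j p (w, ε) = (w * alt (cs.simple i) (cs.simple j) p,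
      ε + ∑ q ∈ Finset.range p, (KK cs c (rho cs w i j q) (invc cs w).v +
        ∑ l ∈ Finset.range q, kap cs c (rho cs w i j q) (rho cs w i j l))) := by
  induction p with
  | zero => simp [iter]
  | succ p ih =>
    rw [iter, Equiv.Perm.mul_apply, ih, alt_succ', Finset.sum_range_succ]
    have key : ∀ k : B, w * alt (cs.simple i) (cs.simple j) p * cs.simple k *
        (w * alt (cs.simple i) (cs.simple j) p)⁻¹ = rho cs w i j p →
        KK cs c (w * alt (cs.simple i) (cs.simple j) p * cs.simple k *
        (w * alt (cs.simple i) (cs.simple j) p)⁻¹) (invc cs (w * alt (cs.simple i) (cs.simple j) p)).v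
        = KK cs c (rho cs w i j p) (invc cs w).v +
        ∑ l ∈ Finset.range p, kap cs c (rho cs w i j p) (rho cs w i j l) := by
      intro k hk
      rw [hk, invc_alt_v, map_add, map_sum]
      simp only [KK_single]
    have hc := conj_alt cs w i j p
    split_ifs with hp
    · rw [if_pos hp] at hc
      rw [stepE_apply]
      unfold step
      simp only
      rw [key i hc, mul_assoc, add_assoc]
    · rw [if_neg hp] at hc
      rw [stepE_apply]
      unfold step
      simp only
      rw [key j hc, mul_assoc, add_assoc]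

lemma pow_ne_one {i j : B} (hij : i ≠ j) (h0 : M i j ≠ 0) {d : ℕ} (hd : 0 < d) (hdm : d < M i j) :
    (cs.simple i * cs.simple j) ^ d ≠ 1 := by
  intro h
  have key : ∀ e : ℕ, 0 < e → 2 * e ≤ M i j → (cs.simple i * cs.simple j) ^ e ≠ 1 := by
    intro e he hem h1
    rw [← alt_mul_two] at h1
    have h2 := length_alt cs hij (k := 2 * e) (Or.inr hem)
    rw [h1, cs.length_one] at h2
    omega
  by_cases h2 : 2 * d ≤ M i j
  · exact key d hd h2 h
  · apply key (M i j - d) (by omega) (by omega)
    have h3 : (cs.simple i * cs.simple j) ^ (M i j - d) * (cs.simple i * cs.simple j) ^ d = 1 := by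
      rw [← pow_add, Nat.sub_add_cancel hdm.le, cs.simple_mul_simple_pow]
    rwa [h, mul_one] at h3

lemma rho_inj {i j : B} (hij : i ≠ j) (h0 : M i j ≠ 0) (w : W) {p q : ℕ} (hp : p < M i j)
    (hq : q < M i j) (h : rho cs w i j p = rho cs w i j q) : p = q := by
  unfold rho at h
  have h1 := mul_right_cancel (mul_left_cancel (mul_right_cancel h))
  wlog hpq : p < q generalizing p q
  · rcases Nat.lt_or_ge q p with h2 | h2
    · exact (this hq hp h.symm h1.symm h2).symm
    · omega
  exfalso
  have h2 : (cs.simple i * cs.simple j) ^ (q - p) = 1 := by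
    have h3 : (cs.simple i * cs.simple j) ^ (q - p) * (cs.simple i * cs.simple j) ^ p =
      (cs.simple i * cs.simple j) ^ p := by
      rw [← pow_add, Nat.sub_add_cancel hpq.le, h1]
    exact mul_eq_right.mp h3
  exact pow_ne_one cs hij h0 (by omega) (by omega) h2

omit [Fintype B] [DecidableEq B] in
lemma refl_form {i j : B} (hij : i ≠ j) (h0 : M i j ≠ 0) {x : W} (hx : x ∈ PP cs i j)
    (hodd : ¬ Even (cs.length x)) : ∃ p < M i j, x = (cs.simple i * cs.simple j) ^ p * cs.simple i := by
  classical
  have par : ∀ (a b : B) (k : ℕ), cs.length (alt (cs.simple a) (cs.simple b) k) % 2 = k % 2 := by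
    intro a b k
    induction k with
    | zero => simp
    | succ k ih =>
      rw [alt_succ', cs.length_mul_mod_two]
      have : cs.length (if Even k then cs.simple a else cs.simple b) = 1 := by
        split_ifs <;> exact cs.length_simple _
      rw [this, Nat.add_mod, ih]
      omega
  have h2 := two_le_of_ne M hij h0
  rcases mem_PP_alt cs hij h0 hx with ⟨k, hk, rfl⟩ | ⟨k, hk, rfl⟩
  · rw [Nat.even_iff, par, ← Nat.even_iff] at hodd
    obtain ⟨t, rfl⟩ := Nat.not_even_iff_odd.mp hodd
    exact ⟨t, by omega, alt_mul_two_add_one _ _ _⟩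
  · rw [Nat.even_iff, par, ← Nat.even_iff] at hodd
    obtain ⟨t, rfl⟩ := Nat.not_even_iff_odd.mp hodd
    refine ⟨M i j - 1 - t, by omega, ?_⟩
    rw [alt_mul_two_add_one]
    have hmm : (cs.simple i * cs.simple j) ^ (M i j - 1 - t) * (cs.simple i * cs.simple j) ^ (t + 1)
        = 1 := by
      rw [← pow_add]
      have : M i j - 1 - t + (t + 1) = M i j := by omega
      rw [this, cs.simple_mul_simple_pow]
    have hinv : cs.simple j * cs.simple i = (cs.simple i * cs.simple j)⁻¹ := by
      rw [mul_inv_rev, cs.inv_simple, cs.inv_simple]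
    have h3 : (cs.simple i * cs.simple j) ^ (M i j - 1 - t) = (cs.simple j * cs.simple i) ^ (t + 1) := by
      rw [hinv, inv_pow]
      exact eq_inv_of_mul_eq_one_left hmm
    rw [h3, pow_succ, mul_assoc, mul_assoc, cs.simple_mul_simple_self, mul_one]

theorem sum_kap {c : B → B → ℤˣ} (hc : Inv cs c) {i j : B} (hij : i ≠ j) (h0 : M i j ≠ 0) (w : W) :
    ∑ p ∈ Finset.range (M i j), ∑ q ∈ Finset.range (M i j),
      kap cs c (rho cs w i j p) (rho cs w i j q) = if c i j = -1 then 1 else 0 := by
  classical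
  obtain ⟨a, ha, haw⟩ := exists_min cs (PP cs i j) w⁻¹
  obtain ⟨w₀, hw₀⟩ : ∃ w₀, w₀ = w * a⁻¹ := ⟨_, rfl⟩
  have hw₀i : a * w⁻¹ = w₀⁻¹ := by rw [hw₀]; group
  rw [hw₀i] at haw
  have hmem : ∀ p, (cs.simple i * cs.simple j) ^ p * cs.simple i ∈ PP cs i j := fun p =>
    mul_mem (pow_mem (mul_mem (simple_mem_left cs i j) (simple_mem_right cs i j)) _)
      (simple_mem_left cs i j)
  have hrho : ∀ p, w₀⁻¹ * rho cs w i j p * w₀ ∈ PP cs i j := by
    intro p
    have : w₀⁻¹ * rho cs w i j p * w₀ = a * ((cs.simple i * cs.simple j) ^ p * cs.simple i) * a⁻¹ := by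
      rw [hw₀, rho]; group
    rw [this]
    exact mul_mem (mul_mem ha (hmem p)) (inv_mem ha)
  have huniq : ∀ p q, Can cs c (rho cs w i j p) (rho cs w i j q) → _ := fun p q h =>
    can_unique cs hc hij h0 haw h (hrho p) (hrho q)
  by_cases hcij : c i j = -1
  · rw [if_pos hcij]
    -- the two canonical reflections
    have hex : ∀ k : B, cs.simple k ∈ PP cs i j →
        ∃ p < M i j, w₀ * cs.simple k * w₀⁻¹ = rho cs w i j p := by
      intro k hk
      have h1 : a⁻¹ * cs.simple k * a ∈ PP cs i j := mul_mem (mul_mem (inv_mem ha) hk) ha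
      have h2 : ¬ Even (cs.length (a⁻¹ * cs.simple k * a)) := by
        rw [Nat.not_even_iff_odd]
        apply IsReflection.odd_length
        refine ⟨a⁻¹, k, by simp⟩
      obtain ⟨p, hp, hpe⟩ := refl_form cs hij h0 h1 h2
      refine ⟨p, hp, ?_⟩
      rw [rho, ← hpe, hw₀]; group
    have hcan : Can cs c (w₀ * cs.simple i * w₀⁻¹) (w₀ * cs.simple j * w₀⁻¹) :=
      ⟨w₀, i, j, hij, h0, hcij, haw, rfl, rfl⟩
    obtain ⟨p0, hp0, hp0e⟩ := hex i (simple_mem_left cs i j)
    obtain ⟨q0, hq0, hq0e⟩ := hex j (simple_mem_right cs i j)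
    rw [hp0e, hq0e] at hcan
    simp only [hp0e, hq0e] at huniq
    have hne := hcan.ne
    have aux : ∀ p0 q0 : ℕ, p0 < M i j → q0 < M i j → Can cs c (rho cs w i j p0) (rho cs w i j q0) →
        WellOrderingRel (rho cs w i j p0) (rho cs w i j q0) →
        (∀ p q, Can cs c (rho cs w i j p) (rho cs w i j q) →
          (rho cs w i j p = rho cs w i j p0 ∧ rho cs w i j q = rho cs w i j q0) ∨
          (rho cs w i j p = rho cs w i j q0 ∧ rho cs w i j q = rho cs w i j p0)) →
        ∑ p ∈ Finset.range (M i j), ∑ q ∈ Finset.range (M i j),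
          kap cs c (rho cs w i j p) (rho cs w i j q) = 1 := by
      intro p0 q0 hp0 hq0 hcan hlt hu
      rw [Finset.sum_eq_single p0, Finset.sum_eq_single q0]
      · rw [kap, if_pos ⟨hcan, hlt⟩]
      · intro q hq hqne
        rw [kap, if_neg]
        rintro ⟨h1, h2⟩
        rcases hu _ _ h1 with ⟨h3, h4⟩ | ⟨h3, h4⟩
        · exact hqne (rho_inj cs hij h0 w (Finset.mem_range.mp hq) hq0 h4)
        · exact hcan.ne h3
      · intro h; exact absurd (Finset.mem_range.mpr hq0) h
      · intro p hp hpne
        apply Finset.sum_eq_zero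
        intro q hq
        rw [kap, if_neg]
        rintro ⟨h1, h2⟩
        rcases hu _ _ h1 with ⟨h3, h4⟩ | ⟨h3, h4⟩
        · exact hpne (rho_inj cs hij h0 w (Finset.mem_range.mp hp) hp0 h3)
        · rw [h3, h4] at h2
          exact asymm h2 hlt
      · intro h; exact absurd (Finset.mem_range.mpr hp0) h
    rcases trichotomous_of (WellOrderingRel (α := W)) (rho cs w i j p0) (rho cs w i j q0) with
      hlt | he | hlt
    · exact aux p0 q0 hp0 hq0 hcan hlt (fun p q h => (huniq p q h).2)
    · exact absurd he hne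
    · exact aux q0 p0 hq0 hp0 (hcan.symm hc) hlt (fun p q h => (huniq p q h).2.symm)
  · rw [if_neg hcij]
    apply Finset.sum_eq_zero
    intro p _
    apply Finset.sum_eq_zero
    intro q _
    rw [kap, if_neg]
    rintro ⟨h1, -⟩
    exact hcij (huniq p q h1).1

/-- The relation of the pair `(i, j)` in the permutation group. -/
theorem stepE_pow {c : B → B → ℤˣ} (hc : Inv cs c) {i j : B} (hij : i ≠ j) (h0 : M i j ≠ 0)
    (w : W) (ε : ZMod 2) :
    ((stepE cs c j * stepE cs c i) ^ (M i j)) (w, ε) = (w, ε + if c i j = -1 then 1 else 0) := by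
  rw [← iter_two_mul, iter_apply, alt_mul_two, cs.simple_mul_simple_pow, mul_one,
    Finset.sum_add_distrib, sum_two_period (M i j), sum_two_period₂ (M i j), sum_kap cs hc hij h0,
    zero_add]
  · intro p q; rw [rho_add]
  · intro p q; rw [rho_add]
  · intro p; rw [rho_add]

end Fin

end Pool.Agent.Q26.CoxSign
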