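import Pool.Agent.Q26.CoxLim

set_option autoImplicit false
set_option linter.unusedSectionVars false

namespace Pool.Agent.Q26.CoxLim

open Filter Topology LinearAlgebra.Projectivization

/-! ### The universal Coxeter group of rank three with all form values `-3/2` -/

/-- The Coxeter system: three generators, no relations but the squares, all form values `-3/2`. -/
noncomputable def U3 : GeomCoxeter (Fin 3) where
  M := {
    M := fun i j => if i = j then 1 else 0
    isSymm := by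
      ext i j
      show (if j = i then 1 else 0) = (if i = j then 1 else 0)
      by_cases h : i = j
      · subst h; rfl
      · rw [if_neg h, if_neg (fun h' => h h'.symm)]
    diagonal := fun i => if_pos rfl
    off_diagonal := fun i j h => by
      rw [if_neg h]
      norm_num }
  b := fun i j => if i = j then 1 else -(3 / 2)
  b_symm := by
    intro i j
    by_cases h : i = j
    · subst h; rfl
    · rw [if_neg h, if_neg (fun h' => h h'.symm)]
  b_diag := fun i => if_pos rfl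
  b_fin := by
    intro i j h
    change (if i = j then 1 else 0) ≠ 0 at h
    have hij : i = j := by
      by_contra hne
      exact h (if_neg hne)
    show (if i = j then (1 : ℝ) else -(3 / 2)) =
      -Real.cos (Real.pi / ((if i = j then 1 else 0 : ℕ) : ℝ))
    rw [if_pos hij, if_pos hij]
    simp
  b_inf := by
    intro i j h
    change (if i = j then 1 else 0) = 0 at h
    have hij : i ≠ j := by
      intro hij
      rw [if_pos hij] at h
      exact one_ne_zero h
    show (if i = j then (1 : ℝ) else -(3 / 2)) ≤ -1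
    rw [if_neg hij]
    norm_num

/-- The sum of the coordinates. -/
def sg (x : Fin 3 → ℝ) : ℝ := x 0 + x 1 + x 2

lemma U3_form (x y : Fin 3 → ℝ) :
    U3.form x y = 5 / 2 * (x 0 * y 0 + x 1 * y 1 + x 2 * y 2) - 3 / 2 * sg x * sg y := by
  unfold GeomCoxeter.form sg
  simp only [U3, Fin.sum_univ_three]
  norm_num [Fin.ext_iff]
  ring

lemma U3_form_al (i : Fin 3) (y : Fin 3 → ℝ) :
    U3.form (al i) y = 5 / 2 * y i - 3 / 2 * sg y := by
  rw [U3_form]
  fin_cases i <;> simp [al, sg]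

lemma U3_lorentzian : U3.Lorentzian := by
  let f : (Fin 3 → ℝ) →ₗ[ℝ] (Fin 3 → ℝ) :=
    { toFun := fun x => ![Real.sqrt (2 / 3) * sg x, Real.sqrt (5 / 4) * (x 0 - x 1),
        Real.sqrt (5 / 12) * (x 0 + x 1 - 2 * x 2)]
      map_add' := by
        intro x y
        ext i
        fin_cases i <;> simp [sg] <;> ring
      map_smul' := by
        intro c x
        ext i
        fin_cases i <;> simp [sg] <;> ring }
  have hf : Function.Injective f := by
    rw [← LinearMap.ker_eq_bot, LinearMap.ker_eq_bot']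
    intro x hx
    have h0 : Real.sqrt (2 / 3) * sg x = 0 := congrFun hx 0
    have h1 : Real.sqrt (5 / 4) * (x 0 - x 1) = 0 := congrFun hx 1
    have h2 : Real.sqrt (5 / 12) * (x 0 + x 1 - 2 * x 2) = 0 := congrFun hx 2
    have h0' : sg x = 0 := by
      rcases mul_eq_zero.1 h0 with h | h
      · exact absurd h (Real.sqrt_ne_zero'.2 (by norm_num))
      · exact h
    have h1' : x 0 - x 1 = 0 := by
      rcases mul_eq_zero.1 h1 with h | h
      · exact absurd h (Real.sqrt_ne_zero'.2 (by norm_num))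
      · exact h
    have h2' : x 0 + x 1 - 2 * x 2 = 0 := by
      rcases mul_eq_zero.1 h2 with h | h
      · exact absurd h (Real.sqrt_ne_zero'.2 (by norm_num))
      · exact h
    unfold sg at h0'
    ext i
    fin_cases i
    · show x 0 = 0
      linarith
    · show x 1 = 0
      linarith
    · show x 2 = 0
      linarith
  refine ⟨0, LinearEquiv.ofInjectiveEndo f hf, ?_⟩
  intro x
  have h : ∀ i, LinearEquiv.ofInjectiveEndo f hf x i = f x i := fun _ => rfl
  simp only [h, Fin.sum_univ_three]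
  have h0 : f x 0 = Real.sqrt (2 / 3) * sg x := rfl
  have h1 : f x 1 = Real.sqrt (5 / 4) * (x 0 - x 1) := rfl
  have h2 : f x 2 = Real.sqrt (5 / 12) * (x 0 + x 1 - 2 * x 2) := rfl
  rw [h0, h1, h2, mul_pow, mul_pow, mul_pow, Real.sq_sqrt (by norm_num),
    Real.sq_sqrt (by norm_num), Real.sq_sqrt (by norm_num), U3_form, if_pos trivial,
    if_neg (by decide), if_neg (by decide)]
  unfold sg
  ring

/-! ### Roots have coordinates of the same sign -/

/-- The reflections on integer vectors. -/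
def sZ (i : Fin 3) (z : Fin 3 → ℤ) : Fin 3 → ℤ :=
  fun j => if j = i then 3 * (z 0 + z 1 + z 2) - 4 * z i else z j

/-- The integer vector as a real vector. -/
def toR (z : Fin 3 → ℤ) : Fin 3 → ℝ := fun j => (z j : ℝ)

lemma refl_toR (i : Fin 3) (z : Fin 3 → ℤ) : U3.refl i (toR z) = toR (sZ i z) := by
  rw [GeomCoxeter.refl_apply, U3_form_al]
  ext j
  unfold sZ toR sg al
  fin_cases i <;> fin_cases j <;> simp <;> ring

lemma sZ_sZ (i : Fin 3) (z : Fin 3 → ℤ) : sZ i (sZ i z) = z := by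
  ext j
  unfold sZ
  fin_cases i <;> fin_cases j <;> simp <;> ring

lemma sZ_neg (i : Fin 3) (z : Fin 3 → ℤ) : sZ i (-z) = -sZ i z := by
  ext j
  unfold sZ
  fin_cases i <;> fin_cases j <;> simp <;> ring

/-- Positive roots, with the last reflection used. -/
inductive Rt : (Fin 3 → ℤ) → Option (Fin 3) → Prop
  | base (j : Fin 3) : Rt (Pi.single j 1) none
  | step (i : Fin 3) (z : Fin 3 → ℤ) (o : Option (Fin 3)) (h : Rt z o) (ho : o ≠ some i)
      (hz : z ≠ Pi.single i 1) : Rt (sZ i z) (some i)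

lemma Rt_refl {z : Fin 3 → ℤ} {o : Option (Fin 3)} (h : Rt z o) (i : Fin 3) :
    (∃ o', Rt (sZ i z) o') ∨ (z = Pi.single i 1 ∧ sZ i z = -z) := by
  by_cases hz : z = Pi.single i 1
  · right
    refine ⟨hz, ?_⟩
    rw [hz]
    ext j
    unfold sZ
    fin_cases i <;> fin_cases j <;> simp
  · left
    by_cases ho : o = some i
    · rcases h with _ | ⟨i', z', o', h', ho', hz'⟩
      · cases ho
      · have : i' = i := Option.some.inj ho
        subst this
        rw [sZ_sZ]
        exact ⟨o', h'⟩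
    · exact ⟨some i, Rt.step i z o h ho hz⟩

lemma Rt_pos {z : Fin 3 → ℤ} {o : Option (Fin 3)} (h : Rt z o) :
    (∀ j, 0 ≤ z j) ∧ (∀ i, o = some i → ∀ j, z j ≤ z i) := by
  induction h with
  | base j =>
      refine ⟨fun k => ?_, fun i hi => by cases hi⟩
      by_cases hk : k = j
      · subst hk
        simp
      · simp [hk]
  | step i z o h ho hz ih =>
      obtain ⟨ih1, ih2⟩ := ih
      have key : ∀ j, z j ≤ 3 * (z 0 + z 1 + z 2) - 4 * z i := by
        rcases o with _ | k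
        · cases h with
          | base k =>
            have hki : k ≠ i := by
              rintro rfl
              exact hz rfl
            intro j
            fin_cases i <;> fin_cases k <;> fin_cases j <;> simp at hki ⊢
        · have hk := ih2 k rfl
          have hki : k ≠ i := fun h => ho (congrArg some h)
          intro j
          have h0 := hk 0
          have h1 := hk 1
          have h2 := hk 2
          have p0 := ih1 0
          have p1 := ih1 1
          have p2 := ih1 2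
          fin_cases i <;> fin_cases k <;> fin_cases j <;> simp at hki h0 h1 h2 ⊢ <;> omega
      refine ⟨?_, ?_⟩
      · intro j
        unfold sZ
        split_ifs
        · exact le_trans (ih1 i) (key i)
        · exact ih1 j
      · intro k hk j
        have : i = k := Option.some.inj hk
        subst this
        unfold sZ
        rw [if_pos rfl]
        split_ifs
        · exact le_rfl
        · exact key j

lemma toR_neg (z : Fin 3 → ℤ) : toR (-z) = -toR z := by
  ext j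
  simp [toR]

lemma al_toR (j : Fin 3) : al j = toR (Pi.single j 1) := by
  ext k
  unfold al toR
  by_cases h : k = j
  · subst h
    simp
  · simp [h]

/-- The image of a simple root under the group is, up to sign, a nonnegative integer vector. -/
lemma W_root {g : (Fin 3 → ℝ) ≃ₗ[ℝ] (Fin 3 → ℝ)} (hg : g ∈ U3.W) (z : Fin 3 → ℤ)
    (hz : ∃ o, Rt z o) : ∃ z', (∃ o, Rt z' o) ∧ (g (toR z) = toR z' ∨ g (toR z) = toR (-z')) := by
  unfold GeomCoxeter.W at hg
  have hgen : ∀ (s : Fin 3) (z : Fin 3 → ℤ), (∃ o, Rt z o) →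
      ∃ z', (∃ o, Rt z' o) ∧
        (U3.refl s (toR z) = toR z' ∨ U3.refl s (toR z) = toR (-z')) := by
    rintro s z ⟨o, ho⟩
    rcases Rt_refl ho s with h | ⟨_, h⟩
    · exact ⟨sZ s z, h, Or.inl (refl_toR s z)⟩
    · exact ⟨z, ⟨o, ho⟩, Or.inr (by rw [refl_toR, h])⟩
  have hcomp : ∀ (g h : (Fin 3 → ℝ) ≃ₗ[ℝ] (Fin 3 → ℝ)),
      (∀ z : Fin 3 → ℤ, (∃ o, Rt z o) →
        ∃ z', (∃ o, Rt z' o) ∧ (g (toR z) = toR z' ∨ g (toR z) = toR (-z'))) →
      (∀ z : Fin 3 → ℤ, (∃ o, Rt z o) →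
        ∃ z', (∃ o, Rt z' o) ∧ (h (toR z) = toR z' ∨ h (toR z) = toR (-z'))) →
      (∀ z : Fin 3 → ℤ, (∃ o, Rt z o) →
        ∃ z', (∃ o, Rt z' o) ∧ ((g * h) (toR z) = toR z' ∨ (g * h) (toR z) = toR (-z'))) := by
    intro g h hg hh z hz
    obtain ⟨z', hz', h1⟩ := hh z hz
    obtain ⟨z'', hz'', h2⟩ := hg z' hz'
    refine ⟨z'', hz'', ?_⟩
    have h3 : ∀ x, (g * h) x = g (h x) := fun _ => rfl
    rw [h3]
    rcases h1 with h1 | h1 <;> rcases h2 with h2 | h2 <;> rw [h1]
    · exact Or.inl h2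
    · exact Or.inr h2
    · right
      rw [toR_neg, map_neg, h2, toR_neg]
    · left
      rw [toR_neg, map_neg, h2, toR_neg, neg_neg]
  induction hg using Subgroup.closure_induction_left generalizing z with
  | one => exact ⟨z, hz, Or.inl rfl⟩
  | mul_left g hg h hh ih =>
      obtain ⟨s, rfl⟩ := hg
      exact hcomp _ _ (hgen s) ih z hz
  | inv_mul_cancel g hg h hh ih =>
      obtain ⟨s, rfl⟩ := hg
      have hinv : (U3.refl s)⁻¹ = U3.refl s := rfl
      rw [hinv]
      exact hcomp _ _ (hgen s) ih z hz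

/-- The sum of the absolute values of the coordinates. -/
def l1 (x : Fin 3 → ℝ) : ℝ := |x 0| + |x 1| + |x 2|

lemma l1_nonneg (x : Fin 3 → ℝ) : 0 ≤ l1 x := by
  unfold l1
  positivity

lemma W_int {g : (Fin 3 → ℝ) ≃ₗ[ℝ] (Fin 3 → ℝ)} (hg : g ∈ U3.W) (i : Fin 3) :
    ∃ z : Fin 3 → ℤ, g (al i) = toR z ∧ ((∀ j, 0 ≤ z j) ∨ (∀ j, z j ≤ 0)) := by
  obtain ⟨z', ⟨o, ho⟩, h⟩ := W_root hg (Pi.single i 1) ⟨none, Rt.base i⟩
  rw [← al_toR] at h
  rcases h with h | h
  · exact ⟨z', h, Or.inl (Rt_pos ho).1⟩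
  · refine ⟨-z', h, Or.inr (fun j => ?_)⟩
    have := (Rt_pos ho).1 j
    simp only [Pi.neg_apply]
    omega

lemma W_sg {g : (Fin 3 → ℝ) ≃ₗ[ℝ] (Fin 3 → ℝ)} (hg : g ∈ U3.W) (i : Fin 3) :
    |sg (g (al i))| = l1 (g (al i)) := by
  obtain ⟨z, hz, h⟩ := W_int hg i
  rw [hz]
  unfold sg l1 toR
  rcases h with h | h
  · have h0 : (0 : ℝ) ≤ z 0 := by exact_mod_cast h 0
    have h1 : (0 : ℝ) ≤ z 1 := by exact_mod_cast h 1
    have h2 : (0 : ℝ) ≤ z 2 := by exact_mod_cast h 2
    rw [abs_of_nonneg h0, abs_of_nonneg h1, abs_of_nonneg h2, abs_of_nonneg (by positivity)]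
  · have h0 : (z 0 : ℝ) ≤ 0 := by exact_mod_cast h 0
    have h1 : (z 1 : ℝ) ≤ 0 := by exact_mod_cast h 1
    have h2 : (z 2 : ℝ) ≤ 0 := by exact_mod_cast h 2
    rw [abs_of_nonpos h0, abs_of_nonpos h1, abs_of_nonpos h2, abs_of_nonpos (by linarith)]
    ring

lemma form_expand (y x : Fin 3 → ℝ) :
    U3.form y x = y 0 * U3.form (al 0) x + y 1 * U3.form (al 1) x + y 2 * U3.form (al 2) x := by
  rw [U3_form_al, U3_form_al, U3_form_al, U3_form]
  unfold sg
  ring

lemma W_form_ge {g : (Fin 3 → ℝ) ≃ₗ[ℝ] (Fin 3 → ℝ)} (hg : g ∈ U3.W) (i : Fin 3)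
    {x : Fin 3 → ℝ} {m : ℝ} (hx : ∀ j, m ≤ U3.form (al j) x) :
    m * l1 (g (al i)) ≤ |U3.form (g (al i)) x| := by
  obtain ⟨z, hz, h⟩ := W_int hg i
  rw [hz, form_expand]
  unfold l1 toR
  have x0 := hx 0
  have x1 := hx 1
  have x2 := hx 2
  rcases h with h | h
  · have h0 : (0 : ℝ) ≤ z 0 := by exact_mod_cast h 0
    have h1 : (0 : ℝ) ≤ z 1 := by exact_mod_cast h 1
    have h2 : (0 : ℝ) ≤ z 2 := by exact_mod_cast h 2
    rw [abs_of_nonneg h0, abs_of_nonneg h1, abs_of_nonneg h2]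
    refine le_trans ?_ (le_abs_self _)
    nlinarith [mul_le_mul_of_nonneg_left x0 h0, mul_le_mul_of_nonneg_left x1 h1,
      mul_le_mul_of_nonneg_left x2 h2]
  · have h0 : (z 0 : ℝ) ≤ 0 := by exact_mod_cast h 0
    have h1 : (z 1 : ℝ) ≤ 0 := by exact_mod_cast h 1
    have h2 : (z 2 : ℝ) ≤ 0 := by exact_mod_cast h 2
    rw [abs_of_nonpos h0, abs_of_nonpos h1, abs_of_nonpos h2]
    refine le_trans ?_ (neg_le_abs _)
    nlinarith [mul_le_mul_of_nonpos_left x0 h0, mul_le_mul_of_nonpos_left x1 h1,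
      mul_le_mul_of_nonpos_left x2 h2]

lemma coord_le_l1 (x : Fin 3 → ℝ) (j : Fin 3) : |x j| ≤ l1 x := by
  unfold l1
  have h0 := abs_nonneg (x 0)
  have h1 := abs_nonneg (x 1)
  have h2 := abs_nonneg (x 2)
  fin_cases j
  · show |x 0| ≤ _
    linarith
  · show |x 1| ≤ _
    linarith
  · show |x 2| ≤ _
    linarith

lemma int_mem_Icc {z : Fin 3 → ℤ} {M : ℕ} (h : l1 (toR z) ≤ M) (j : Fin 3) :
    -(M : ℤ) ≤ z j ∧ z j ≤ M := by
  have h1 := (coord_le_l1 (toR z) j).trans h
  have h2 : |(z j : ℝ)| ≤ M := h1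
  rw [abs_le] at h2
  constructor
  · exact_mod_cast h2.1
  · exact_mod_cast h2.2

/-- The set of roots. -/
def Phi : Set (Fin 3 → ℝ) := {β | ∃ g ∈ U3.W, ∃ i, β = g (al i)}

lemma fin_roots (M : ℕ) : {β | β ∈ Phi ∧ l1 β ≤ M}.Finite := by
  have h1 : {β | β ∈ Phi ∧ l1 β ≤ M} ⊆
      toR '' (Set.Icc (fun _ => -(M : ℤ)) (fun _ => (M : ℤ))) := by
    rintro β ⟨⟨g, hg, i, rfl⟩, hβ⟩
    obtain ⟨z, hz, _⟩ := W_int hg i
    rw [hz] at hβ ⊢
    exact ⟨z, ⟨fun j => (int_mem_Icc hβ j).1, fun j => (int_mem_Icc hβ j).2⟩, rfl⟩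
  exact ((Set.finite_Icc _ _).image _).subset h1

lemma ext_al {g h : (Fin 3 → ℝ) ≃ₗ[ℝ] (Fin 3 → ℝ)} (H : ∀ i, g (al i) = h (al i)) : g = h := by
  apply LinearEquiv.toLinearMap_injective
  apply LinearMap.pi_ext'
  intro i
  apply LinearMap.ext_ring
  exact H i

lemma fin_W (M : ℕ) : {g : U3.W | ∀ i, l1 (g.1 (al i)) ≤ M}.Finite := by
  have hch : ∀ g : U3.W, ∃ z : Fin 3 → Fin 3 → ℤ, ∀ i, g.1 (al i) = toR (z i) := by
    intro g
    choose z hz _ using fun i => W_int g.2 i
    exact ⟨z, hz⟩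
  choose φ hφ using hch
  apply Set.Finite.of_injOn (f := φ)
    (t := Set.Icc (fun _ _ => -(M : ℤ)) (fun _ _ => (M : ℤ)))
  · intro g hg
    have h1 : ∀ i, l1 (toR (φ g i)) ≤ M := by
      intro i
      rw [← hφ]
      exact hg i
    exact ⟨fun i j => (int_mem_Icc (h1 i) j).1, fun i j => (int_mem_Icc (h1 i) j).2⟩
  · intro g _ h _ hgh
    apply Subtype.ext
    apply ext_al
    intro i
    rw [hφ, hφ, hgh]
  · exact Set.finite_Icc _ _

/-- The size of a group element. -/
def NN (g : (Fin 3 → ℝ) ≃ₗ[ℝ] (Fin 3 → ℝ)) : ℝ := l1 (g (al 0)) + l1 (g (al 1)) + l1 (g (al 2))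

lemma l1_le_NN (g : (Fin 3 → ℝ) ≃ₗ[ℝ] (Fin 3 → ℝ)) (i : Fin 3) : l1 (g (al i)) ≤ NN g := by
  unfold NN
  have h0 := l1_nonneg (g (al 0))
  have h1 := l1_nonneg (g (al 1))
  have h2 := l1_nonneg (g (al 2))
  fin_cases i
  · show l1 (g (al 0)) ≤ _
    linarith
  · show l1 (g (al 1)) ≤ _
    linarith
  · show l1 (g (al 2)) ≤ _
    linarith

lemma NN_tendsto : Tendsto (fun g : U3.W => NN g.1) cofinite atTop := by
  rw [tendsto_atTop]
  intro b
  rw [eventually_cofinite]
  obtain ⟨M, hM⟩ := exists_nat_ge b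
  refine (fin_W M).subset ?_
  intro g hg i
  have h1 : NN g.1 < b := not_le.1 hg
  exact (l1_le_NN g.1 i).trans (h1.le.trans hM)

lemma l1_tendsto : Tendsto (fun β : Phi => l1 β.1) cofinite atTop := by
  rw [tendsto_atTop]
  intro b
  rw [eventually_cofinite]
  obtain ⟨M, hM⟩ := exists_nat_ge b
  apply Set.Finite.of_finite_image (f := Subtype.val) _ Subtype.val_injective.injOn
  refine (fin_roots M).subset ?_
  rintro _ ⟨β, hβ, rfl⟩
  have h1 : l1 β.1 < b := not_le.1 hβ
  exact ⟨β.2, h1.le.trans hM⟩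

lemma tendsto_of_fibers {X : Type} {u : ℕ → X} (h : ∀ x, {n | u n = x}.Finite) :
    Tendsto u atTop cofinite := by
  rw [← Nat.cofinite_eq_atTop]
  intro S hS
  rw [mem_map, mem_cofinite]
  rw [mem_cofinite] at hS
  have h1 : (u ⁻¹' S)ᶜ = ⋃ x ∈ Sᶜ, {n | u n = x} := by
    ext n
    simp
  rw [h1]
  exact hS.biUnion (fun x _ => h x)

end Pool.Agent.Q26.CoxLim
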