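import Mathlib

set_option autoImplicit false

namespace Pool.Agent.Q26.Ends

/-! ### Abstract ray trees -/

/-- A rooted tree in which every vertex has exactly one child of each label `k : ℕ`. -/
structure RayTree (V : Type*) where
  root : V
  step : ℕ → V → V
  inj : ∀ k v k' v', step k v = step k' v' → k = k' ∧ v = v'
  root_ne : ∀ k v, step k v ≠ root
  ind : ∀ S : Set V, root ∈ S → (∀ k v, v ∈ S → step k v ∈ S) → ∀ v, v ∈ S

namespace RayTree

variable {V : Type*} (T : RayTree V)

/-- the vertex with a given address -/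
def vert : List ℕ → V
  | [] => T.root
  | k :: w => T.step k (vert w)

lemma vert_injective : Function.Injective T.vert := by
  intro w
  induction w with
  | nil =>
    intro w' h
    cases w' with
    | nil => rfl
    | cons k w' => exact absurd h.symm (T.root_ne _ _)
  | cons k w ih =>
    intro w' h
    cases w' with
    | nil => exact absurd h (T.root_ne _ _)
    | cons k' w' =>
      obtain ⟨h1, h2⟩ := T.inj _ _ _ _ h
      rw [h1, ih h2]

lemma vert_surjective : Function.Surjective T.vert := by
  intro v
  apply T.ind (Set.range T.vert)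
  · exact ⟨[], rfl⟩
  · rintro k _ ⟨w, rfl⟩
    exact ⟨k :: w, rfl⟩

/-- addresses of vertices -/
noncomputable def equivList : List ℕ ≃ V := Equiv.ofBijective T.vert ⟨T.vert_injective, T.vert_surjective⟩

@[simp] lemma equivList_apply (w : List ℕ) : T.equivList w = T.vert w := rfl

/-- finitely many edges of each label are cut by `A` -/
def Cut (A : Set V) : Prop := ∀ k, {v | ¬ (v ∈ A ↔ T.step k v ∈ A)}.Finite

variable {V' : Type*} (T' : RayTree V')

/-- any two ray trees are isomorphic -/
noncomputable def iso : V ≃ V' := T.equivList.symm.trans T'.equivList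

lemma iso_step (k : ℕ) (v : V) : T.iso T' (T.step k v) = T'.step k (T.iso T' v) := by
  obtain ⟨w, rfl⟩ := T.equivList.surjective v
  have h1 : T.step k (T.equivList w) = T.equivList (k :: w) := rfl
  simp only [iso, Equiv.trans_apply]
  rw [h1, Equiv.symm_apply_apply, Equiv.symm_apply_apply]
  rfl

lemma cut_preimage_iff (A : Set V') : T.Cut (T.iso T' ⁻¹' A) ↔ T'.Cut A := by
  unfold Cut
  refine forall_congr' (fun k => ?_)
  have h : {v | ¬ (v ∈ T.iso T' ⁻¹' A ↔ T.step k v ∈ T.iso T' ⁻¹' A)} =
      T.iso T' ⁻¹' {v | ¬ (v ∈ A ↔ T'.step k v ∈ A)} := by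
    ext v
    simp only [Set.mem_ofPred_eq, Set.mem_preimage, iso_step]
  rw [h]
  constructor
  · intro hf
    have := hf.image (T.iso T')
    rwa [Set.image_preimage_eq _ (T.iso T').surjective] at this
  · intro hf
    exact hf.preimage (T.iso T').injective.injOn

end RayTree

/-! ### Commensurated sets -/

/-- `A` is commensurated by the action. -/
def LC (G : Type*) {X : Type*} [Group G] [MulAction G X] (A : Set X) : Prop :=
  ∀ g : G, {x | ¬ (x ∈ A ↔ g • x ∈ A)}.Finite

lemma finite_mul {G X : Type*} [Group G] [MulAction G X] {A : Set X} {g h : G}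
    (hg : {x | ¬ (x ∈ A ↔ g • x ∈ A)}.Finite) (hh : {x | ¬ (x ∈ A ↔ h • x ∈ A)}.Finite) :
    {x | ¬ (x ∈ A ↔ (g * h) • x ∈ A)}.Finite := by
  have h1 : {x | ¬ (x ∈ A ↔ (g * h) • x ∈ A)} ⊆ {x | ¬ (x ∈ A ↔ h • x ∈ A)} ∪
      (fun x => h • x) ⁻¹' {x | ¬ (x ∈ A ↔ g • x ∈ A)} := by
    intro x hx
    simp only [Set.mem_union, Set.mem_preimage, Set.mem_ofPred_eq, mul_smul] at hx ⊢
    tauto
  exact (hh.union (hg.preimage (MulAction.injective h).injOn)).subset h1

lemma finite_inv {G X : Type*} [Group G] [MulAction G X] {A : Set X} {g : G}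
    (hg : {x | ¬ (x ∈ A ↔ g • x ∈ A)}.Finite) : {x | ¬ (x ∈ A ↔ g⁻¹ • x ∈ A)}.Finite := by
  have h1 : {x | ¬ (x ∈ A ↔ g⁻¹ • x ∈ A)} ⊆
      (fun x => g⁻¹ • x) ⁻¹' {x | ¬ (x ∈ A ↔ g • x ∈ A)} := by
    intro x hx
    simp only [Set.mem_preimage, Set.mem_ofPred_eq, smul_inv_smul] at hx ⊢
    tauto
  exact (hg.preimage (MulAction.injective g⁻¹).injOn).subset h1

lemma finite_one {G X : Type*} [Group G] [MulAction G X] {A : Set X} :
    {x | ¬ (x ∈ A ↔ (1 : G) • x ∈ A)}.Finite := by
  simp

/-! ### The free group -/

namespace Free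

/-- enumeration of the letters -/
def dec : ℕ ≃ ℕ × Bool := Equiv.boolProdNatEquivNat.symm.trans (Equiv.prodComm Bool ℕ)

/-- inverse letter -/
def bar (a : ℕ × Bool) : ℕ × Bool := (a.1, !a.2)

@[simp] lemma bar_bar (a : ℕ × Bool) : bar (bar a) = a := by simp [bar]

/-- the `k`-th letter that may be put in front of the reduced word `L` -/
def nxt : List (ℕ × Bool) → ℕ → ℕ × Bool
  | [], k => dec k
  | h :: _, k => if k < dec.symm (bar h) then dec k else dec (k + 1)

lemma nxt_cons (h : ℕ × Bool) (t : List (ℕ × Bool)) (k : ℕ) :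
    nxt (h :: t) k = if k < dec.symm (bar h) then dec k else dec (k + 1) := rfl

lemma nxt_eq_or (L : List (ℕ × Bool)) (k : ℕ) : nxt L k = dec k ∨ nxt L k = dec (k + 1) := by
  cases L with
  | nil => left; rfl
  | cons h t =>
    rw [nxt_cons]
    split_ifs
    · left; rfl
    · right; rfl

lemma nxt_ne (h : ℕ × Bool) (t : List (ℕ × Bool)) (k : ℕ) : nxt (h :: t) k ≠ bar h := by
  rw [nxt_cons]
  split_ifs with h1
  · intro h2
    rw [← h2, Equiv.symm_apply_apply] at h1
    omega
  · intro h2
    rw [← h2, Equiv.symm_apply_apply] at h1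
    omega

lemma nxt_inj (L : List (ℕ × Bool)) {k k' : ℕ} (h : nxt L k = nxt L k') : k = k' := by
  cases L with
  | nil => exact dec.injective h
  | cons a t =>
    rw [nxt_cons, nxt_cons] at h
    split_ifs at h with h1 h2 h2
    · exact dec.injective h
    · have := dec.injective h; omega
    · have := dec.injective h; omega
    · have := dec.injective h; omega

lemma exists_nxt (L : List (ℕ × Bool)) (a : ℕ × Bool) (ha : ∀ h t, L = h :: t → a ≠ bar h) :
    ∃ k, nxt L k = a ∧ (k = dec.symm a ∨ k = dec.symm a - 1) := by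
  cases L with
  | nil => exact ⟨dec.symm a, by simp [nxt], Or.inl rfl⟩
  | cons h t =>
    have h1 : dec.symm a ≠ dec.symm (bar h) := fun h2 => ha h t rfl (dec.symm.injective h2)
    rcases lt_or_gt_of_ne h1 with h2 | h2
    · exact ⟨dec.symm a, by simp [nxt, h2], Or.inl rfl⟩
    · refine ⟨dec.symm a - 1, ?_, Or.inr rfl⟩
      rw [nxt_cons, if_neg (by omega)]
      have : dec.symm a - 1 + 1 = dec.symm a := by omega
      rw [this, Equiv.apply_symm_apply]

lemma isReduced_cons {a : ℕ × Bool} {L : List (ℕ × Bool)} (hL : FreeGroup.IsReduced L)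
    (ha : ∀ h t, L = h :: t → a ≠ bar h) : FreeGroup.IsReduced (a :: L) := by
  cases L with
  | nil => simp [FreeGroup.IsReduced]
  | cons h t =>
    unfold FreeGroup.IsReduced at hL ⊢
    rw [List.isChain_cons_cons]
    refine ⟨?_, hL⟩
    intro h1
    by_contra h2
    apply ha h t rfl
    ext
    · simp [bar, h1]
    · simp only [bar]
      revert h2
      cases a.2 <;> cases h.2 <;> simp

lemma ne_bar_of_isReduced {a h : ℕ × Bool} {t : List (ℕ × Bool)}
    (hL : FreeGroup.IsReduced (a :: h :: t)) : a ≠ bar h := by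
  unfold FreeGroup.IsReduced at hL
  rw [List.isChain_cons_cons] at hL
  intro h1
  have := hL.1 (by rw [h1]; rfl)
  rw [h1] at this
  simp [bar] at this

lemma toWord_mk_mul {a : ℕ × Bool} {g : FreeGroup ℕ} (ha : ∀ h t, g.toWord = h :: t → a ≠ bar h) :
    (FreeGroup.mk [a] * g).toWord = a :: g.toWord := by
  have h1 : FreeGroup.mk [a] * g = FreeGroup.mk (a :: g.toWord) := by
    conv_lhs => rw [← FreeGroup.mk_toWord (x := g)]
    rw [FreeGroup.mul_mk]
    rfl
  rw [h1, FreeGroup.toWord_mk]
  exact (isReduced_cons FreeGroup.isReduced_toWord ha).reduce_eq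

/-- children of `g` -/
noncomputable def step (k : ℕ) (g : FreeGroup ℕ) : FreeGroup ℕ :=
  FreeGroup.mk [nxt g.toWord k] * g

lemma toWord_step (k : ℕ) (g : FreeGroup ℕ) :
    (step k g).toWord = nxt g.toWord k :: g.toWord := by
  apply toWord_mk_mul
  intro h t hL
  rw [hL]
  exact nxt_ne h t k

lemma mk_bar_mul (a : ℕ × Bool) (g : FreeGroup ℕ) :
    FreeGroup.mk [bar a] * (FreeGroup.mk [a] * g) = g := by
  rw [← mul_assoc]
  have : FreeGroup.mk [bar a] * FreeGroup.mk [a] = 1 := by
    have h1 : FreeGroup.mk [bar a] = (FreeGroup.mk [a])⁻¹ := by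
      rw [FreeGroup.inv_mk]
      simp [FreeGroup.invRev, bar]
    rw [h1, inv_mul_cancel]
  rw [this, one_mul]

/-- the ray tree of the free group -/
noncomputable def tree : RayTree (FreeGroup ℕ) where
  root := 1
  step := step
  inj k v k' v' h := by
    have h1 := congrArg FreeGroup.toWord h
    rw [toWord_step, toWord_step, List.cons.injEq] at h1
    have h2 : v = v' := FreeGroup.toWord_injective h1.2
    subst h2
    exact ⟨nxt_inj _ h1.1, rfl⟩
  root_ne k v h := by
    have h1 := congrArg FreeGroup.toWord h
    rw [toWord_step, FreeGroup.toWord_one] at h1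
    exact absurd h1 (by simp)
  ind S h1 h2 v := by
    have key : ∀ L : List (ℕ × Bool), FreeGroup.IsReduced L → FreeGroup.mk L ∈ S := by
      intro L
      induction L with
      | nil => intro _; exact h1
      | cons a L ih =>
        intro hL
        have hL' : FreeGroup.IsReduced L := by
          unfold FreeGroup.IsReduced at hL ⊢
          exact hL.tail
        have hw : (FreeGroup.mk L).toWord = L := by
          rw [FreeGroup.toWord_mk]; exact hL'.reduce_eq
        obtain ⟨k, hk, -⟩ := exists_nxt L a (by
          rintro h t rfl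
          exact ne_bar_of_isReduced hL)
        have h3 := h2 k _ (ih hL')
        unfold step at h3
        rw [hw, hk, FreeGroup.mul_mk] at h3
        exact h3
    have := key v.toWord FreeGroup.isReduced_toWord
    rwa [FreeGroup.mk_toWord] at this

theorem lc_iff_cut (A : Set (FreeGroup ℕ)) : LC (FreeGroup ℕ) A ↔ tree.Cut A := by
  constructor
  · intro h k
    refine ((h (FreeGroup.mk [dec k])).union (h (FreeGroup.mk [dec (k + 1)]))).subset ?_
    intro v hv
    simp only [Set.mem_ofPred_eq, Set.mem_union, smul_eq_mul] at hv ⊢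
    have h1 : tree.step k v = FreeGroup.mk [nxt v.toWord k] * v := rfl
    rw [h1] at hv
    rcases nxt_eq_or v.toWord k with h2 | h2
    · left; rwa [h2] at hv
    · right; rwa [h2] at hv
  · intro h
    have key : ∀ a : ℕ × Bool, {x | ¬ (x ∈ A ↔ (FreeGroup.mk [a]) • x ∈ A)}.Finite := by
      intro a
      have hfin : ∀ k, (step k '' {v | ¬ (v ∈ A ↔ tree.step k v ∈ A)}).Finite :=
        fun k => (h k).image _
      refine ((((h (dec.symm a)).union (h (dec.symm a - 1))).union
        (hfin (dec.symm (bar a)))).union (hfin (dec.symm (bar a) - 1))).subset ?_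
      intro v hv
      simp only [Set.mem_ofPred_eq, smul_eq_mul] at hv
      by_cases hc : ∃ t, v.toWord = bar a :: t
      · obtain ⟨t, ht⟩ := hc
        have hred : FreeGroup.IsReduced (bar a :: t) := ht ▸ FreeGroup.isReduced_toWord
        have hred' : FreeGroup.IsReduced t := by
          unfold FreeGroup.IsReduced at hred ⊢
          exact hred.tail
        have hv' : v = FreeGroup.mk [bar a] * FreeGroup.mk t := by
          rw [FreeGroup.mul_mk, ← FreeGroup.mk_toWord (x := v), ht]
          rfl
        have hu : FreeGroup.mk [a] * v = FreeGroup.mk t := by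
          rw [hv']
          have := mk_bar_mul (bar a) (FreeGroup.mk t)
          rwa [bar_bar] at this
        have huw : (FreeGroup.mk t).toWord = t := by
          rw [FreeGroup.toWord_mk]; exact hred'.reduce_eq
        obtain ⟨k, hk, hk'⟩ := exists_nxt t (bar a) (by
          rintro h t rfl
          exact ne_bar_of_isReduced hred)
        have hstep : step k (FreeGroup.mk t) = v := by
          unfold step
          rw [huw, hk, hv']
        have hmem : v ∈ step k '' {v | ¬ (v ∈ A ↔ tree.step k v ∈ A)} := by
          refine ⟨FreeGroup.mk t, ?_, hstep⟩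
          simp only [Set.mem_ofPred_eq]
          have h2 : tree.step k (FreeGroup.mk t) = v := hstep
          rw [h2, ← hu]
          tauto
        rcases hk' with rfl | rfl
        · exact Or.inl (Or.inr hmem)
        · exact Or.inr hmem
      · obtain ⟨k, hk, hk'⟩ := exists_nxt v.toWord a (by
          intro h t h1 h2
          apply hc
          exact ⟨t, by rw [h1, h2, bar_bar]⟩)
        have hmem : v ∈ {v | ¬ (v ∈ A ↔ tree.step k v ∈ A)} := by
          have h2 : tree.step k v = FreeGroup.mk [a] * v := by
            change step k v = _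
            unfold step
            rw [hk]
          simp only [Set.mem_ofPred_eq]
          rw [h2]
          exact hv
        rcases hk' with rfl | rfl
        · exact Or.inl (Or.inl (Or.inl hmem))
        · exact Or.inl (Or.inl (Or.inr hmem))
    intro g
    induction g using FreeGroup.induction_on with
    | C1 => exact finite_one
    | of i => exact key (i, true)
    | inv_of i _ => exact finite_inv (key (i, true))
    | mul x y hx hy => exact finite_mul hx hy

end Free

end Pool.Agent.Q26.Ends
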