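import Pool.Agent.Q26.EndsA

set_option autoImplicit false

namespace Pool.Agent.Q26.Ends

open Monoid

/-! ### The free product of copies of `ℤ²` -/

namespace Prod

/-- `ℤ²`, multiplicatively -/
abbrev Z2 : Type := Multiplicative (ℤ × ℤ)

/-- The factors. -/
abbrev Fac : ℕ → Type := fun _ => Z2

/-- an enumeration of `ℤ²` starting at the identity -/
noncomputable def en : ℕ ≃ Z2 :=
  let e : ℕ ≃ Z2 := (Denumerable.eqv (ℤ × ℤ)).symm.trans Multiplicative.ofAdd
  (Equiv.swap 0 (e.symm 1)).trans e

lemma en_zero : en 0 = 1 := by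
  simp [en]

/-- next element in the enumeration -/
noncomputable def nx (m : Z2) : Z2 := en (en.symm m + 1)

lemma nx_ne_one (m : Z2) : nx m ≠ 1 := by
  unfold nx
  rw [← en_zero]
  intro h
  have := en.injective h
  omega

lemma nx_injective : Function.Injective nx := by
  intro m m' h
  have := en.injective h
  exact en.symm.injective (by omega)

/-- A set `S ⊆ ℤ²` that is almost invariant under both generators is finite or cofinite. -/
lemma finite_or_cofinite (S : Set Z2)
    (h1 : {m | ¬ (m ∈ S ↔ Multiplicative.ofAdd ((1, 0) : ℤ × ℤ) * m ∈ S)}.Finite)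
    (h2 : {m | ¬ (m ∈ S ↔ Multiplicative.ofAdd ((0, 1) : ℤ × ℤ) * m ∈ S)}.Finite) :
    S.Finite ∨ Sᶜ.Finite := by
  -- pass to a predicate on pairs of integers
  let P : ℤ → ℤ → Prop := fun a b => Multiplicative.ofAdd ((a, b) : ℤ × ℤ) ∈ S
  have e1 : ∀ a b : ℤ, Multiplicative.ofAdd ((1, 0) : ℤ × ℤ) * Multiplicative.ofAdd ((a, b) : ℤ × ℤ) =
      Multiplicative.ofAdd ((a + 1, b) : ℤ × ℤ) := by
    intro a b
    rw [← ofAdd_add]
    congr 1
    ext <;> simp [add_comm]
  have e2 : ∀ a b : ℤ, Multiplicative.ofAdd ((0, 1) : ℤ × ℤ) * Multiplicative.ofAdd ((a, b) : ℤ × ℤ) =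
      Multiplicative.ofAdd ((a, b + 1) : ℤ × ℤ) := by
    intro a b
    rw [← ofAdd_add]
    congr 1
    ext <;> simp [add_comm]
  have hfin := h1.union h2
  obtain ⟨N, hN⟩ : ∃ N : ℤ, ∀ m ∈ ({m | ¬ (m ∈ S ↔ Multiplicative.ofAdd ((1, 0) : ℤ × ℤ) * m ∈ S)} ∪
      {m | ¬ (m ∈ S ↔ Multiplicative.ofAdd ((0, 1) : ℤ × ℤ) * m ∈ S)} : Set Z2),
      |(Multiplicative.toAdd m).1| + |(Multiplicative.toAdd m).2| ≤ N := by
    obtain ⟨N, hN⟩ := (hfin.image (fun m : Z2 => |(Multiplicative.toAdd m).1| +
      |(Multiplicative.toAdd m).2|)).bddAbove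
    exact ⟨N, fun m hm => hN ⟨m, hm, rfl⟩⟩
  have hH : ∀ a b : ℤ, N < |a| + |b| → (P a b ↔ P (a + 1) b) := by
    intro a b hab
    by_contra hc
    have := hN (Multiplicative.ofAdd (a, b)) (Or.inl (by
      simp only [Set.mem_ofPred_eq]
      rw [e1]
      exact hc))
    simp only [toAdd_ofAdd] at this
    omega
  have hV : ∀ a b : ℤ, N < |a| + |b| → (P a b ↔ P a (b + 1)) := by
    intro a b hab
    by_contra hc
    have := hN (Multiplicative.ofAdd (a, b)) (Or.inr (by
      simp only [Set.mem_ofPred_eq]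
      rw [e2]
      exact hc))
    simp only [toAdd_ofAdd] at this
    omega
  -- rows and columns far from the origin are constant
  have row : ∀ b : ℤ, N < |b| → ∀ a a' : ℤ, P a b ↔ P a' b := by
    intro b hb
    have h0 : ∀ a : ℤ, P a b ↔ P 0 b := by
      intro a
      induction a using Int.induction_on with
      | zero => rfl
      | succ n ih =>
        rw [← ih]
        exact (hH _ _ (by have := abs_nonneg (n : ℤ); omega)).symm
      | pred n ih =>
        rw [← ih]
        have := hH (-(n : ℤ) - 1) b (by have := abs_nonneg (-(n : ℤ) - 1); omega)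
        rwa [sub_add_cancel] at this
    intro a a'
    rw [h0 a, h0 a']
  have col : ∀ a : ℤ, N < |a| → ∀ b b' : ℤ, P a b ↔ P a b' := by
    intro a ha
    have h0 : ∀ b : ℤ, P a b ↔ P a 0 := by
      intro b
      induction b using Int.induction_on with
      | zero => rfl
      | succ n ih =>
        rw [← ih]
        exact (hV _ _ (by have := abs_nonneg (n : ℤ); omega)).symm
      | pred n ih =>
        rw [← ih]
        have := hV a (-(n : ℤ) - 1) (by have := abs_nonneg (-(n : ℤ) - 1); omega)
        rwa [sub_add_cancel] at this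
    intro b b'
    rw [h0 b, h0 b']
  obtain ⟨L, hLN, hL0⟩ : ∃ L : ℤ, N < L ∧ 0 < L := ⟨|N| + 1, by have := le_abs_self N; omega,
    by have := abs_nonneg N; omega⟩
  have hLabs : N < |L| := by rw [abs_of_pos hL0]; exact hLN
  have hall : ∀ a b : ℤ, (L < |a| ∨ L < |b|) → (P a b ↔ P L L) := by
    intro a b hab
    rcases hab with h | h
    · rw [col a (by omega) b L, row L hLabs a L]
    · rw [row b (by omega) a L, col L hLabs b L]
  -- the box
  have hbox : (Set.Finite {m : Z2 | |(Multiplicative.toAdd m).1| ≤ L ∧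
      |(Multiplicative.toAdd m).2| ≤ L}) := by
    have : {m : Z2 | |(Multiplicative.toAdd m).1| ≤ L ∧ |(Multiplicative.toAdd m).2| ≤ L} ⊆
        Multiplicative.toAdd ⁻¹' ((Set.Icc (-L) L) ×ˢ (Set.Icc (-L) L)) := by
      rintro m ⟨hm1, hm2⟩
      rw [abs_le] at hm1 hm2
      exact ⟨⟨hm1.1, hm1.2⟩, ⟨hm2.1, hm2.2⟩⟩
    refine Set.Finite.subset ?_ this
    exact ((Set.finite_Icc _ _).prod (Set.finite_Icc _ _)).preimage
      (Multiplicative.toAdd.injective.injOn)
  by_cases hP : P L L
  · right
    refine hbox.subset ?_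
    intro m hm
    by_contra hc
    apply hm
    have h3 : L < |(Multiplicative.toAdd m).1| ∨ L < |(Multiplicative.toAdd m).2| := by
      simp only [Set.mem_ofPred_eq, not_and_or, not_le] at hc
      exact hc
    exact (hall _ _ h3).mpr hP
  · left
    refine hbox.subset ?_
    intro m hm
    by_contra hc
    have h3 : L < |(Multiplicative.toAdd m).1| ∨ L < |(Multiplicative.toAdd m).2| := by
      simp only [Set.mem_ofPred_eq, not_and_or, not_le] at hc
      exact hc
    exact hP ((hall _ _ h3).mp hm)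

/-- a set of `ℤ²` invariant under both generators is trivial -/
lemma const_of_invariant (S : Set Z2)
    (h1 : ∀ m, m ∈ S ↔ Multiplicative.ofAdd ((1, 0) : ℤ × ℤ) * m ∈ S)
    (h2 : ∀ m, m ∈ S ↔ Multiplicative.ofAdd ((0, 1) : ℤ × ℤ) * m ∈ S) (m m' : Z2) :
    m ∈ S ↔ m' ∈ S := by
  let P : ℤ → ℤ → Prop := fun a b => Multiplicative.ofAdd ((a, b) : ℤ × ℤ) ∈ S
  have hH : ∀ a b : ℤ, P a b ↔ P (a + 1) b := by
    intro a b
    have := h1 (Multiplicative.ofAdd (a, b))
    rw [← ofAdd_add] at this
    have e : ((1, 0) : ℤ × ℤ) + (a, b) = (a + 1, b) := by ext <;> simp [add_comm]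
    rwa [e] at this
  have hV : ∀ a b : ℤ, P a b ↔ P a (b + 1) := by
    intro a b
    have := h2 (Multiplicative.ofAdd (a, b))
    rw [← ofAdd_add] at this
    have e : ((0, 1) : ℤ × ℤ) + (a, b) = (a, b + 1) := by ext <;> simp [add_comm]
    rwa [e] at this
  have h0 : ∀ a b : ℤ, P a b ↔ P 0 b := by
    intro a b
    induction a using Int.induction_on with
    | zero => rfl
    | succ n ih => rw [← ih]; exact (hH _ _).symm
    | pred n ih =>
      rw [← ih]
      have := hH (-(n : ℤ) - 1) b
      rwa [sub_add_cancel] at this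
  have h00 : ∀ b : ℤ, P 0 b ↔ P 0 0 := by
    intro b
    induction b using Int.induction_on with
    | zero => rfl
    | succ n ih => rw [← ih]; exact (hV _ _).symm
    | pred n ih =>
      rw [← ih]
      have := hV 0 (-(n : ℤ) - 1)
      rwa [sub_add_cancel] at this
  have key : ∀ m : Z2, m ∈ S ↔ P 0 0 := fun m => (h0 _ _).trans (h00 _)
  rw [key m, key m']

/-! #### the tree -/

/-- the children of a word -/
noncomputable def step (k : ℕ) (w : CoprodI.Word Fac) : CoprodI.Word Fac :=
  (CoprodI.Word.equivPair k).symm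
    { CoprodI.Word.equivPair k w with head := nx (CoprodI.Word.equivPair k w).head }

lemma equivPair_step (k : ℕ) (w : CoprodI.Word Fac) : CoprodI.Word.equivPair k (step k w) =
    { CoprodI.Word.equivPair k w with head := nx (CoprodI.Word.equivPair k w).head } := by
  unfold step
  rw [Equiv.apply_symm_apply]

lemma step_symm (k : ℕ) (h : Z2) (t : CoprodI.Word Fac) (ht : t.fstIdx ≠ some k) :
    step k ((CoprodI.Word.equivPair k).symm ⟨h, t, ht⟩) =
      (CoprodI.Word.equivPair k).symm ⟨nx h, t, ht⟩ := by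
  apply (CoprodI.Word.equivPair k).injective
  rw [equivPair_step]
  apply CoprodI.Word.Pair.ext
  · simp
  · simp

lemma fstIdx_step (k : ℕ) (w : CoprodI.Word Fac) : (step k w).fstIdx = some k := by
  unfold step
  rw [CoprodI.Word.equivPair_symm]
  unfold CoprodI.Word.rcons
  rw [dif_neg]
  · exact CoprodI.Word.fstIdx_cons _ _ _ _
  · exact nx_ne_one _

/-- the ray tree of the free product -/
noncomputable def tree : RayTree (CoprodI.Word Fac) where
  root := CoprodI.Word.empty
  step := step
  inj k v k' v' h := by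
    have h1 : k = k' := by
      have := fstIdx_step k v
      rw [h, fstIdx_step k' v'] at this
      exact (Option.some.inj this).symm
    subst h1
    refine ⟨rfl, ?_⟩
    have h2 := congrArg (CoprodI.Word.equivPair k) h
    rw [equivPair_step, equivPair_step, CoprodI.Word.Pair.mk.injEq] at h2
    apply (CoprodI.Word.equivPair k).injective
    exact CoprodI.Word.Pair.ext (nx_injective h2.1) h2.2
  root_ne k v h := by
    have := fstIdx_step k v
    rw [h] at this
    simp [CoprodI.Word.fstIdx] at this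
  ind S h1 h2 v := by
    induction v using CoprodI.Word.consRecOn with
    | empty => exact h1
    | cons i m w h3 h4 ih =>
      have key : ∀ n : ℕ, (CoprodI.Word.equivPair i).symm ⟨en n, w, h3⟩ ∈ S := by
        intro n
        induction n with
        | zero =>
          rw [CoprodI.Word.equivPair_symm]
          unfold CoprodI.Word.rcons
          rw [dif_pos en_zero]
          exact ih
        | succ n ihn =>
          have h5 := h2 i _ ihn
          rw [step_symm] at h5
          have h6 : nx (en n) = en (n + 1) := by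
            unfold nx; rw [Equiv.symm_apply_apply]
          rwa [h6] at h5
      have h5 := key (en.symm m)
      rw [CoprodI.Word.equivPair_symm] at h5
      unfold CoprodI.Word.rcons at h5
      simp only [Equiv.apply_symm_apply] at h5
      rw [dif_neg h4] at h5
      exact h5

/-! #### commensurated sets -/

/-- the part of `A` in the orbit of type `k` with tail `t` -/
def sec (k : ℕ) (t : CoprodI.Word Fac) (ht : t.fstIdx ≠ some k) (A : Set (CoprodI.Word Fac)) :
    Set Z2 := {m | (CoprodI.Word.equivPair k).symm ⟨m, t, ht⟩ ∈ A}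

lemma smul_symm (k : ℕ) (g h : Z2) (t : CoprodI.Word Fac) (ht : t.fstIdx ≠ some k) :
    CoprodI.of (M := Fac) (i := k) g • (CoprodI.Word.equivPair k).symm ⟨h, t, ht⟩ =
      (CoprodI.Word.equivPair k).symm ⟨g * h, t, ht⟩ := by
  apply (CoprodI.Word.equivPair k).injective
  rw [CoprodI.Word.equivPair_smul_same]
  apply CoprodI.Word.Pair.ext
  · simp
  · simp

lemma exists_symm (k : ℕ) (w : CoprodI.Word Fac) : ∃ (h : Z2) (t : CoprodI.Word Fac)
    (ht : t.fstIdx ≠ some k), w = (CoprodI.Word.equivPair k).symm ⟨h, t, ht⟩ :=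
  ⟨(CoprodI.Word.equivPair k w).head, (CoprodI.Word.equivPair k w).tail,
    (CoprodI.Word.equivPair k w).fstIdx_ne, by
      rw [Equiv.eq_symm_apply]⟩

lemma tail_symm (k : ℕ) (h : Z2) (t : CoprodI.Word Fac) (ht : t.fstIdx ≠ some k) :
    (CoprodI.Word.equivPair k ((CoprodI.Word.equivPair k).symm ⟨h, t, ht⟩)).tail = t := by
  rw [Equiv.apply_symm_apply]

lemma symm_injective (k : ℕ) (t : CoprodI.Word Fac) (ht : t.fstIdx ≠ some k) :
    Function.Injective (fun h : Z2 => (CoprodI.Word.equivPair k).symm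
      (⟨h, t, ht⟩ : CoprodI.Word.Pair Fac k)) := by
  intro h h' hh
  have := (CoprodI.Word.equivPair k).symm.injective hh
  rw [CoprodI.Word.Pair.mk.injEq] at this
  exact this.1

/-- A family of cut sets `{w | ¬ (w ∈ A ↔ φ w ∈ A)}`, where `φ` acts on the heads, is finite
iff only finitely many tails are involved, and for each of them finitely many heads. -/
lemma finite_iff (k : ℕ) (φ : CoprodI.Word Fac → CoprodI.Word Fac) (f : Z2 → Z2)
    (hφ : ∀ h t ht, φ ((CoprodI.Word.equivPair k).symm ⟨h, t, ht⟩) =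
      (CoprodI.Word.equivPair k).symm ⟨f h, t, ht⟩) (A : Set (CoprodI.Word Fac)) :
    {w | ¬ (w ∈ A ↔ φ w ∈ A)}.Finite ↔
      {t : CoprodI.Word Fac | ∃ ht, ∃ m, ¬ (m ∈ sec k t ht A ↔ f m ∈ sec k t ht A)}.Finite ∧
      ∀ t ht, {m | ¬ (m ∈ sec k t ht A ↔ f m ∈ sec k t ht A)}.Finite := by
  constructor
  · intro h
    constructor
    · refine (h.image (fun w => (CoprodI.Word.equivPair k w).tail)).subset ?_
      rintro t ⟨ht, m, hm⟩
      refine ⟨(CoprodI.Word.equivPair k).symm ⟨m, t, ht⟩, ?_, tail_symm k m t ht⟩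
      simp only [Set.mem_ofPred_eq]
      rw [hφ]
      exact hm
    · intro t ht
      refine (h.preimage (symm_injective k t ht).injOn).subset ?_
      intro m hm
      simp only [Set.mem_preimage, Set.mem_ofPred_eq]
      rw [hφ]
      exact hm
  · rintro ⟨h1, h2⟩
    have h3 : (⋃ t ∈ {t : CoprodI.Word Fac | ∃ ht, ∃ m, ¬ (m ∈ sec k t ht A ↔ f m ∈ sec k t ht A)},
        ⋃ ht : t.fstIdx ≠ some k, (fun h : Z2 => (CoprodI.Word.equivPair k).symm
          (⟨h, t, ht⟩ : CoprodI.Word.Pair Fac k)) ''
          {m | ¬ (m ∈ sec k t ht A ↔ f m ∈ sec k t ht A)}).Finite := by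
      refine h1.biUnion (fun t _ => ?_)
      exact Set.finite_iUnion (fun ht => (h2 t ht).image _)
    refine h3.subset ?_
    intro w hw
    obtain ⟨h, t, ht, rfl⟩ := exists_symm k w
    simp only [Set.mem_ofPred_eq] at hw
    rw [hφ] at hw
    simp only [Set.mem_iUnion]
    exact ⟨t, ⟨ht, h, hw⟩, ht, h, hw, rfl⟩

lemma nx_const {S : Set Z2} (h : ∀ m, m ∈ S ↔ nx m ∈ S) (m m' : Z2) : m ∈ S ↔ m' ∈ S := by
  have key : ∀ n : ℕ, en n ∈ S ↔ en 0 ∈ S := by
    intro n
    induction n with
    | zero => rfl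
    | succ n ih =>
      rw [← ih, h (en n)]
      unfold nx
      rw [Equiv.symm_apply_apply]
  have k1 := key (en.symm m)
  have k2 := key (en.symm m')
  rw [Equiv.apply_symm_apply] at k1 k2
  rw [k1, k2]

lemma finite_or_cofinite_of_nx {S : Set Z2} (h : {m | ¬ (m ∈ S ↔ nx m ∈ S)}.Finite) :
    S.Finite ∨ Sᶜ.Finite := by
  obtain ⟨N, hN⟩ := (h.image en.symm).bddAbove
  have key : ∀ n : ℕ, N < n → (en n ∈ S ↔ en (N + 1) ∈ S) := by
    intro n hn
    induction n, hn using Nat.le_induction with
    | base => rfl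
    | succ n hn ih =>
      rw [← ih]
      by_contra hc
      have h1 : en n ∈ {m | ¬ (m ∈ S ↔ nx m ∈ S)} := by
        simp only [Set.mem_ofPred_eq]
        unfold nx
        rw [Equiv.symm_apply_apply]
        tauto
      have := hN ⟨_, h1, rfl⟩
      rw [Equiv.symm_apply_apply] at this
      omega
  have hfin : (en '' Set.Iic N).Finite := (Set.finite_Iic N).image _
  by_cases h1 : en (N + 1) ∈ S
  · right
    refine hfin.subset (fun m hm => ?_)
    refine ⟨en.symm m, ?_, Equiv.apply_symm_apply _ _⟩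
    by_contra hc
    simp only [Set.mem_Iic, not_le] at hc
    have := key _ hc
    rw [Equiv.apply_symm_apply] at this
    exact hm (this.mpr h1)
  · left
    refine hfin.subset (fun m hm => ?_)
    refine ⟨en.symm m, ?_, Equiv.apply_symm_apply _ _⟩
    by_contra hc
    simp only [Set.mem_Iic, not_le] at hc
    have := key _ hc
    rw [Equiv.apply_symm_apply] at this
    exact h1 (this.mp hm)

lemma finite_of_fc {S : Set Z2} (h : S.Finite ∨ Sᶜ.Finite) (f : Z2 → Z2)
    (hf : Function.Injective f) : {m | ¬ (m ∈ S ↔ f m ∈ S)}.Finite := by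
  rcases h with h | h
  · refine (h.union (h.preimage hf.injOn)).subset (fun m hm => ?_)
    simp only [Set.mem_ofPred_eq, Set.mem_union, Set.mem_preimage] at hm ⊢
    tauto
  · refine (h.union (h.preimage hf.injOn)).subset (fun m hm => ?_)
    simp only [Set.mem_ofPred_eq, Set.mem_union, Set.mem_preimage, Set.mem_compl_iff] at hm ⊢
    tauto

theorem lc_iff_cut (A : Set (CoprodI.Word Fac)) :
    LC (CoprodI Fac) A ↔ tree.Cut A := by
  constructor
  · intro h k
    have h1 := (finite_iff k (fun w => CoprodI.of (M := Fac) (i := k)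
      (Multiplicative.ofAdd ((1, 0) : ℤ × ℤ)) • w) _ (fun h t ht => smul_symm k _ h t ht) A).mp
      (h (CoprodI.of (M := Fac) (i := k) (Multiplicative.ofAdd ((1, 0) : ℤ × ℤ))))
    have h2 := (finite_iff k (fun w => CoprodI.of (M := Fac) (i := k)
      (Multiplicative.ofAdd ((0, 1) : ℤ × ℤ)) • w) _ (fun h t ht => smul_symm k _ h t ht) A).mp
      (h (CoprodI.of (M := Fac) (i := k) (Multiplicative.ofAdd ((0, 1) : ℤ × ℤ))))
    refine (finite_iff k (step k) nx (fun h t ht => step_symm k h t ht) A).mpr ⟨?_, ?_⟩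
    · refine (h1.1.union h2.1).subset ?_
      rintro t ⟨ht, m, hm⟩
      by_contra hc
      simp only [Set.mem_union, Set.mem_ofPred_eq, not_or, not_exists, not_not] at hc
      exact hm (const_of_invariant _ (hc.1 ht) (hc.2 ht) _ _)
    · intro t ht
      exact finite_of_fc (finite_or_cofinite _ (h1.2 t ht) (h2.2 t ht)) nx nx_injective
  · intro h
    have key : ∀ (k : ℕ) (g : Z2),
        {w | ¬ (w ∈ A ↔ CoprodI.of (M := Fac) (i := k) g • w ∈ A)}.Finite := by
      intro k g
      have h1 := (finite_iff k (step k) nx (fun h t ht => step_symm k h t ht) A).mp (h k)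
      refine (finite_iff k (fun w => CoprodI.of (M := Fac) (i := k) g • w) _
        (fun h t ht => smul_symm k _ h t ht) A).mpr ⟨?_, ?_⟩
      · refine h1.1.subset ?_
        rintro t ⟨ht, m, hm⟩
        by_contra hc
        simp only [Set.mem_ofPred_eq, not_exists, not_not] at hc
        exact hm (nx_const (hc ht) _ _)
      · intro t ht
        exact finite_of_fc (finite_or_cofinite_of_nx (h1.2 t ht)) _ (mul_right_injective g)
    intro g
    induction g using CoprodI.induction_on with
    | one => exact finite_one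
    | of i m => exact key i m
    | mul x y hx hy => exact finite_mul hx hy

end Prod

end Pool.Agent.Q26.Ends
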