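import Mathlib

set_option autoImplicit false

/-!
Ultrahomogeneity of a countable rational metric space with the one-point extension property.
-/

namespace Q26.Ury

/-- The one point extension property. -/
def Ext (X : Type) [MetricSpace X] : Prop :=
  ∀ (A : Finset X) (f : X → ℚ), (∀ a ∈ A, 0 < f a) →
    (∀ a ∈ A, ∀ b ∈ A, |(f a : ℝ) - (f b : ℝ)| ≤ dist a b ∧ dist a b ≤ (f a : ℝ) + (f b : ℝ)) →
    ∃ x : X, ∀ a ∈ A, dist x a = (f a : ℝ)

/-- All distances are rational. -/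
def Rat (X : Type) [MetricSpace X] : Prop := ∀ x y : X, ∃ q : ℚ, dist x y = (q : ℝ)

variable {X : Type} [MetricSpace X]

lemma ext' (he : Ext X) {ι : Type} (s : Finset ι) (p : ι → X) (f : ι → ℝ)
    (hq : ∀ i ∈ s, ∃ q : ℚ, f i = (q : ℝ)) (hpos : ∀ i ∈ s, 0 < f i)
    (hK : ∀ i ∈ s, ∀ j ∈ s, f i - f j ≤ dist (p i) (p j) ∧ dist (p i) (p j) ≤ f i + f j) :
    ∃ x : X, ∀ i ∈ s, dist x (p i) = f i := by
  classical
  have h1 : ∀ a : X, ∃ q : ℚ, a ∈ s.image p → ∃ i ∈ s, p i = a ∧ f i = (q : ℝ) := by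
    intro a
    by_cases ha : a ∈ s.image p
    · obtain ⟨i, hi, hia⟩ := Finset.mem_image.1 ha
      obtain ⟨q, hq⟩ := hq i hi
      exact ⟨q, fun _ => ⟨i, hi, hia, hq⟩⟩
    · exact ⟨0, fun h => (ha h).elim⟩
  choose q hq' using h1
  have hh1 : ∀ a ∈ s.image p, 0 < q a := by
    intro a ha
    obtain ⟨j, hj, hji, hjq⟩ := hq' a ha
    have := hpos j hj
    rw [hjq] at this
    exact_mod_cast this
  have hh2 : ∀ a ∈ s.image p, ∀ b ∈ s.image p,
      |(q a : ℝ) - (q b : ℝ)| ≤ dist a b ∧ dist a b ≤ (q a : ℝ) + (q b : ℝ) := by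
    intro a ha b hb
    obtain ⟨i, hi, hia, hiq⟩ := hq' a ha
    obtain ⟨j, hj, hjb, hjq⟩ := hq' b hb
    rw [← hiq, ← hjq, ← hia, ← hjb]
    refine ⟨abs_sub_le_iff.2 ⟨(hK i hi j hj).1, ?_⟩, (hK i hi j hj).2⟩
    rw [dist_comm]
    exact (hK j hj i hi).1
  obtain ⟨x, hx⟩ := he (s.image p) q hh1 hh2
  refine ⟨x, fun i hi => ?_⟩
  have h2 := hx (p i) (Finset.mem_image_of_mem p hi)
  obtain ⟨j, hj, hji, hjq⟩ := hq' (p i) (Finset.mem_image_of_mem p hi)
  rw [h2, ← hjq]
  have h3 := (hK i hi j hj).1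
  have h4 := (hK j hj i hi).1
  rw [hji, dist_self] at h3 h4
  linarith

/-- One step of an extension of a finite isometry. -/
lemma one_step (hr : Rat X) (he : Ext X) {ι : Type} (s : Finset ι) (p q : ι → X)
    (h : ∀ i ∈ s, ∀ j ∈ s, dist (p i) (p j) = dist (q i) (q j)) (x : X) :
    ∃ y : X, ∀ i ∈ s, dist y (q i) = dist x (p i) := by
  by_cases hx : ∃ i ∈ s, p i = x
  · obtain ⟨i, hi, rfl⟩ := hx
    exact ⟨q i, fun j hj => (h i hi j hj).symm⟩
  · push Not at hx
    refine ext' he s q (fun i => dist x (p i)) (fun i _ => hr _ _) ?_ ?_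
    · intro i hi
      exact dist_pos.2 (hx i hi).symm
    · intro i hi j hj
      rw [← h i hi j hj]
      constructor
      · have := dist_triangle x (p j) (p i)
        rw [dist_comm (p j) (p i)] at this
        linarith
      · have := dist_triangle (p i) x (p j)
        rw [dist_comm (p i) x] at this
        exact this

variable (X) in
/-- Finite isometries, encoded by finite sets of pairs. -/
def PI : Type := {s : Finset (X × X) // ∀ p ∈ s, ∀ q ∈ s, dist p.1 q.1 = dist p.2 q.2}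

instance : Preorder (PI X) := Preorder.lift (fun s : PI X => s.1)

/-- Finite isometries defined at `x`. -/
def defLeft (hr : Rat X) (he : Ext X) (x : X) : Order.Cofinal (PI X) where
  carrier := {f | ∃ y : X, (x, y) ∈ f.1}
  isCofinal f := by
    classical
    obtain ⟨y, hy⟩ := one_step hr he f.1 Prod.fst Prod.snd (fun p hp q hq => f.2 p hp q hq) x
    refine ⟨⟨insert (x, y) f.1, ?_⟩, ⟨y, Finset.mem_insert_self _ _⟩, Finset.subset_insert _ _⟩
    intro p hp q hq
    rw [Finset.mem_insert] at hp hq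
    rcases hp with rfl | hp <;> rcases hq with rfl | hq
    · simp
    · exact (hy q hq).symm
    · rw [dist_comm p.1, dist_comm p.2]
      exact (hy p hp).symm
    · exact f.2 p hp q hq

/-- Finite isometries whose range contains `y`. -/
def defRight (hr : Rat X) (he : Ext X) (y : X) : Order.Cofinal (PI X) where
  carrier := {f | ∃ x : X, (x, y) ∈ f.1}
  isCofinal f := by
    classical
    obtain ⟨x, hx⟩ := one_step hr he f.1 Prod.snd Prod.fst
      (fun p hp q hq => (f.2 p hp q hq).symm) y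
    refine ⟨⟨insert (x, y) f.1, ?_⟩, ⟨x, Finset.mem_insert_self _ _⟩, Finset.subset_insert _ _⟩
    intro p hp q hq
    rw [Finset.mem_insert] at hp hq
    rcases hp with rfl | hp <;> rcases hq with rfl | hq
    · simp
    · exact hx q hq
    · rw [dist_comm p.1, dist_comm p.2]
      exact hx p hp
    · exact f.2 p hp q hq

/-- Ultrahomogeneity. -/
theorem ultrahomogeneous [Countable X] (hr : Rat X) (he : Ext X) {ι : Type} (s : Finset ι)
    (p q : ι → X) (h : ∀ i ∈ s, ∀ j ∈ s, dist (p i) (p j) = dist (q i) (q j)) :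
    ∃ g : X ≃ᵢ X, ∀ i ∈ s, g (p i) = q i := by
  classical
  cases nonempty_encodable X
  let f0 : PI X := ⟨s.image (fun i => (p i, q i)), by
    intro a ha b hb
    obtain ⟨i, hi, rfl⟩ := Finset.mem_image.1 ha
    obtain ⟨j, hj, rfl⟩ := Finset.mem_image.1 hb
    exact h i hi j hj⟩
  let to_cofinal : X ⊕ X → Order.Cofinal (PI X) := fun x => Sum.recOn x (defLeft hr he) (defRight hr he)
  let I := Order.idealOfCofinals f0 to_cofinal
  have hF : ∀ x : X, ∃ y : X, ∃ f ∈ I, (x, y) ∈ f.1 := by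
    intro x
    obtain ⟨f, hf, hfI⟩ := Order.cofinal_meets_idealOfCofinals f0 to_cofinal (Sum.inl x)
    obtain ⟨y, hy⟩ := hf
    exact ⟨y, f, hfI, hy⟩
  have hG : ∀ y : X, ∃ x : X, ∃ f ∈ I, (x, y) ∈ f.1 := by
    intro x
    obtain ⟨f, hf, hfI⟩ := Order.cofinal_meets_idealOfCofinals f0 to_cofinal (Sum.inr x)
    obtain ⟨y, hy⟩ := hf
    exact ⟨y, f, hfI, hy⟩
  have hdir : ∀ f ∈ I, ∀ f' ∈ I, ∀ a ∈ f.1, ∀ b ∈ f'.1, dist a.1 b.1 = dist a.2 b.2 := by
    intro f hf f' hf' a ha b hb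
    obtain ⟨k, hk, hfk, hfk'⟩ := I.directed f hf f' hf'
    exact k.2 a (hfk ha) b (hfk' hb)
  choose F fF hfF hF using hF
  choose Gv fG hfG hG using hG
  have hiso : Isometry F := by
    refine Isometry.of_dist_eq ?_
    intro x y
    exact (hdir _ (hfF x) _ (hfF y) _ (hF x) _ (hF y)).symm
  have hinvr : ∀ y, F (Gv y) = y := by
    intro y
    have := hdir _ (hfF (Gv y)) _ (hfG y) _ (hF (Gv y)) _ (hG y)
    simp only [dist_self] at this
    exact dist_eq_zero.1 this.symm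
  refine ⟨IsometryEquiv.mk' F Gv hinvr hiso, ?_⟩
  intro i hi
  show F (p i) = q i
  have hmem : f0 ∈ I := Order.mem_idealOfCofinals f0 to_cofinal
  have := hdir _ (hfF (p i)) _ hmem _ (hF (p i)) _ (Finset.mem_image_of_mem (fun i => (p i, q i)) hi)
  simp only [dist_self] at this
  exact dist_eq_zero.1 this.symm

end Q26.Ury
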