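import Mathlib

set_option autoImplicit false

/-!
Weak limits of bounded sequences in reflexive spaces along an ultrafilter, and convex blocks.
-/

namespace Q26.Ury

open Filter Topology

variable {E : Type} [NormedAddCommGroup E] [NormedSpace ℝ E]

/-- `w` is the weak limit of `u` along the hyperfilter. -/
def WLim (u : ℕ → E) (w : E) : Prop :=
  ∀ l : StrongDual ℝ E, Tendsto (fun n => l (u n)) (hyperfilter ℕ : Filter ℕ) (𝓝 (l w))

lemma exists_lim {a : ℕ → ℝ} {M : ℝ} (h : ∀ n, |a n| ≤ M) :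
    ∃ L : ℝ, Tendsto a (hyperfilter ℕ : Filter ℕ) (𝓝 L) := by
  have hc : IsCompact (Set.Icc (-M) M) := isCompact_Icc
  have h2 : ((hyperfilter ℕ).map a : Filter ℝ) ≤ 𝓟 (Set.Icc (-M) M) := by
    rw [le_principal_iff]
    show a ⁻¹' Set.Icc (-M) M ∈ (hyperfilter ℕ : Filter ℕ)
    exact Filter.univ_mem' (fun n => abs_le.1 (h n))
  obtain ⟨L, _, hL⟩ := hc.ultrafilter_le_nhds ((hyperfilter ℕ).map a) h2
  exact ⟨L, hL⟩

/-- Bounded sequences have weak limits in reflexive spaces. -/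
theorem exists_wlim (hE : Function.Surjective (NormedSpace.inclusionInDoubleDual ℝ E))
    {u : ℕ → E} {M : ℝ} (h : ∀ n, ‖u n‖ ≤ M) : ∃ w : E, WLim u w := by
  have hb : ∀ (l : StrongDual ℝ E) (n : ℕ), |l (u n)| ≤ M * ‖l‖ := by
    intro l n
    have h1 := l.le_opNorm (u n)
    rw [Real.norm_eq_abs] at h1
    refine h1.trans ?_
    rw [mul_comm]
    exact mul_le_mul_of_nonneg_right (h n) (norm_nonneg l)
  choose L hL using fun l : StrongDual ℝ E => exists_lim (hb l)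
  let Ll : (StrongDual ℝ E) →ₗ[ℝ] ℝ :=
    { toFun := L
      map_add' := fun l l' => tendsto_nhds_unique (hL (l + l')) ((hL l).add (hL l'))
      map_smul' := fun c l => tendsto_nhds_unique (hL (c • l)) ((hL l).const_mul c) }
  let LL : StrongDual ℝ (StrongDual ℝ E) := Ll.mkContinuous M (by
    intro l
    have h1 : |L l| ≤ M * ‖l‖ :=
      le_of_tendsto (hL l).abs (Filter.Eventually.of_forall (hb l))
    exact h1)
  obtain ⟨w, hw⟩ := hE LL
  refine ⟨w, fun l => ?_⟩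
  have h2 : l w = L l := by
    have := congrArg (fun (F : StrongDual ℝ (StrongDual ℝ E)) => F l) hw
    exact this
  rw [h2]
  exact hL l

/-- Mazur: the weak limit is in the closed convex hull. -/
lemma wlim_mem {u : ℕ → E} {w : E} (h : WLim u w) {S : Set ℕ}
    (hS : S ∈ (hyperfilter ℕ : Filter ℕ)) : w ∈ closure (convexHull ℝ (u '' S)) := by
  by_contra hcon
  obtain ⟨l, s, h1, h2⟩ := geometric_hahn_banach_closed_point
    (convex_convexHull ℝ (u '' S)).closure isClosed_closure hcon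
  have h3 : ∀ᶠ n in (hyperfilter ℕ : Filter ℕ), l (u n) ≤ s := by
    filter_upwards [hS] with n hn
    exact (h1 _ (subset_closure (subset_convexHull ℝ _ ⟨n, hn, rfl⟩))).le
  have h4 := le_of_tendsto (h l) h3
  linarith

lemma block_of_mem {u : ℕ → E} {S : Set ℕ} {z : E} (hz : z ∈ convexHull ℝ (u '' S)) :
    ∃ (ι : Type) (t : Finset ι) (c : ι → ℝ) (n : ι → ℕ), (∀ i ∈ t, 0 ≤ c i) ∧
    ∑ i ∈ t, c i = 1 ∧ (∀ i ∈ t, n i ∈ S) ∧ ∑ i ∈ t, c i • u (n i) = z := by
  rw [convexHull_eq] at hz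
  obtain ⟨ι, t, w, zz, h0, h1, h2, h3⟩ := hz
  choose! n hn hn' using h2
  refine ⟨ι, t, w, n, h0, h1, hn, ?_⟩
  rw [Finset.centerMass_eq_of_sum_1 _ _ h1] at h3
  rw [← h3]
  exact Finset.sum_congr rfl (fun i hi => by rw [hn' i hi])

/-- Two far apart blocks which are close to each other. -/
theorem blocks (hE : Function.Surjective (NormedSpace.inclusionInDoubleDual ℝ E))
    {u : ℕ → E} {M : ℝ} (h : ∀ n, ‖u n‖ ≤ M) {ε : ℝ} (hε : 0 < ε) :
    ∃ (N : ℕ) (ι κ : Type) (t : Finset ι) (r : Finset κ) (c : ι → ℝ) (d : κ → ℝ)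
      (n : ι → ℕ) (m : κ → ℕ),
      (∀ i ∈ t, 0 ≤ c i) ∧ ∑ i ∈ t, c i = 1 ∧ (∀ i ∈ t, n i < N) ∧
      (∀ j ∈ r, 0 ≤ d j) ∧ ∑ j ∈ r, d j = 1 ∧ (∀ j ∈ r, N ≤ m j) ∧
      ‖∑ i ∈ t, c i • u (n i) - ∑ j ∈ r, d j • u (m j)‖ < ε := by
  obtain ⟨w, hw⟩ := exists_wlim hE h
  have h1 := wlim_mem hw (S := Set.univ) Filter.univ_mem
  obtain ⟨z, hz, hwz⟩ := Metric.mem_closure_iff.1 h1 (ε / 2) (by positivity)
  obtain ⟨ι, t, c, n, hc0, hc1, -, hc2⟩ := block_of_mem hz
  let N : ℕ := t.sup n + 1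
  have hN : ∀ i ∈ t, n i < N := fun i hi => Nat.lt_succ_of_le (Finset.le_sup hi)
  have hS : {k : ℕ | N ≤ k} ∈ (hyperfilter ℕ : Filter ℕ) := by
    apply Nat.hyperfilter_le_atTop
    exact mem_atTop N
  obtain ⟨z', hz', hwz'⟩ := Metric.mem_closure_iff.1 (wlim_mem hw hS) (ε / 2) (by positivity)
  obtain ⟨κ, r, d, m, hd0, hd1, hm, hd2⟩ := block_of_mem hz'
  refine ⟨N, ι, κ, t, r, c, d, n, m, hc0, hc1, hN, hd0, hd1, hm, ?_⟩
  rw [hc2, hd2, ← dist_eq_norm]
  calc dist z z' ≤ dist z w + dist w z' := dist_triangle _ _ _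
    _ < ε / 2 + ε / 2 := by
      rw [dist_comm z w]
      exact add_lt_add hwz hwz'
    _ = ε := by ring

/-- Affine isometries respect convex combinations. -/
lemma affine_sum (e : E ≃ᵃⁱ[ℝ] E) {ι : Type} (t : Finset ι) (c : ι → ℝ) (hc : ∑ i ∈ t, c i = 1)
    (z : ι → E) : e (∑ i ∈ t, c i • z i) = ∑ i ∈ t, c i • e (z i) := by
  have h : ∀ x : E, e x = e.linearIsometryEquiv x + e 0 := by
    intro x
    have := e.map_vadd 0 x
    simpa using this
  rw [h, map_sum]
  have h2 : ∑ i ∈ t, c i • e (z i) =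
      ∑ i ∈ t, c i • e.linearIsometryEquiv (z i) + (∑ i ∈ t, c i) • e 0 := by
    rw [Finset.sum_smul, ← Finset.sum_add_distrib]
    refine Finset.sum_congr rfl (fun i _ => ?_)
    rw [h (z i), smul_add]
  rw [h2, hc, one_smul]
  simp

/-- Convex combinations of close vectors are close. -/
lemma sum_close {ι : Type} (t : Finset ι) (c : ι → ℝ) (h0 : ∀ i ∈ t, 0 ≤ c i)
    (hc : ∑ i ∈ t, c i = 1) (z z' : ι → E) {ε : ℝ} (h : ∀ i ∈ t, ‖z i - z' i‖ ≤ ε) :
    ‖∑ i ∈ t, c i • z i - ∑ i ∈ t, c i • z' i‖ ≤ ε := by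
  rw [← Finset.sum_sub_distrib]
  refine (norm_sum_le _ _).trans ?_
  have : ∀ i ∈ t, ‖c i • z i - c i • z' i‖ ≤ c i * ε := by
    intro i hi
    rw [← smul_sub, norm_smul, Real.norm_eq_abs, abs_of_nonneg (h0 i hi)]
    exact mul_le_mul_of_nonneg_left (h i hi) (h0 i hi)
  refine (Finset.sum_le_sum this).trans ?_
  rw [← Finset.sum_mul, hc, one_mul]

/-- Weak limits of almost fixed vectors are fixed. -/
lemma wlim_fixed {u : ℕ → E} {w : E} (hw : WLim u w) (e : E ≃ᵃⁱ[ℝ] E)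
    (h : Tendsto (fun n => e (u n) - u n) atTop (𝓝 0)) : e w = w := by
  have h0 : ∀ x : E, e x = e.linearIsometryEquiv x + e 0 := by
    intro x
    have := e.map_vadd 0 x
    simpa using this
  have key : ∀ l : StrongDual ℝ E, l (e w) = l w := by
    intro l
    have h1 : Tendsto (fun n => l (e (u n))) (hyperfilter ℕ : Filter ℕ) (𝓝 (l (e w))) := by
      have h2 := hw (l.comp (e.linearIsometryEquiv : E →L[ℝ] E))
      have h3 : (fun n => l (e (u n))) =
          fun n => (l.comp (e.linearIsometryEquiv : E →L[ℝ] E)) (u n) + l (e 0) := by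
        funext n
        rw [h0 (u n), map_add]
        rfl
      have h4 : l (e w) = (l.comp (e.linearIsometryEquiv : E →L[ℝ] E)) w + l (e 0) := by
        rw [h0 w, map_add]
        rfl
      rw [h3, h4]
      exact h2.add_const _
    have h5 : Tendsto (fun n => l (e (u n)) - l (u n)) (hyperfilter ℕ : Filter ℕ)
        (𝓝 (l (e w) - l w)) := h1.sub (hw l)
    have h6 : Tendsto (fun n => l (e (u n)) - l (u n)) (hyperfilter ℕ : Filter ℕ) (𝓝 0) := by
      have h7 : (fun n => l (e (u n)) - l (u n)) = fun n => l (e (u n) - u n) := by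
        funext n
        rw [map_sub]
      rw [h7]
      have h8 : Tendsto (fun n => l (e (u n) - u n)) atTop (𝓝 (l 0)) :=
        (l.continuous.tendsto 0).comp h
      rw [map_zero] at h8
      exact h8.mono_left Nat.hyperfilter_le_atTop
    have := tendsto_nhds_unique h5 h6
    linarith
  exact (SeparatingDual.eq_iff_forall_dual_eq (R := ℝ)).2 key

end Q26.Ury
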