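import Mathlib
import Pool.Agent.Q26.UryA
import Pool.Agent.Q26.UryB

set_option autoImplicit false

/-!
Continuous affine isometric actions of the isometry group of the rational Urysohn space on
reflexive spaces have fixed points.
-/

namespace Q26.Ury

open Filter Topology

variable {X : Type} [MetricSpace X]

/-- A copy of `F` over `o` which is free from `B`. -/
lemma free_copy [Countable X] (hr : Rat X) (he : Ext X) (o : X) (F B : Finset X) :
    ∃ a : X ≃ᵢ X, a o = o ∧ ∀ y ∈ F, ∀ b ∈ B, dist (a y) b = dist y o + dist o b := by
  classical
  have key : ∃ ψ : X → X, ψ o = o ∧
      (∀ y ∈ insert o F, ∀ z ∈ insert o F, dist (ψ y) (ψ z) = dist y z) ∧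
      ∀ y ∈ F, ∀ b ∈ B, dist (ψ y) b = dist y o + dist o b := by
    induction F using Finset.induction_on with
    | empty =>
        refine ⟨id, rfl, fun y _ z _ => rfl, ?_⟩
        intro y hy
        exact absurd hy (Finset.notMem_empty y)
    | insert y F hy ih =>
        obtain ⟨ψ, h0, h1, h2⟩ := ih
        by_cases hyo : y = o
        · subst hyo
          refine ⟨ψ, h0, ?_, ?_⟩
          · intro a ha b hb
            exact h1 a (by simpa using ha) b (by simpa using hb)
          · intro a ha b hb
            rcases Finset.mem_insert.1 ha with rfl | ha
            · rw [h0, dist_self, zero_add]
            · exact h2 a ha b hb
        · have h2' : ∀ z ∈ insert o F, ∀ b ∈ B, dist (ψ z) b = dist z o + dist o b := by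
            intro z hz b hb
            rcases Finset.mem_insert.1 hz with rfl | hz
            · rw [h0, dist_self, zero_add]
            · exact h2 z hz b hb
          have hne : ∀ z ∈ insert o F, y ≠ z := by
            intro z hz hyz
            subst hyz
            rcases Finset.mem_insert.1 hz with h | h
            · exact hyo h
            · exact hy h
          obtain ⟨p, hp⟩ := ext' he (B.disjSum (insert o F)) (Sum.elim id ψ)
            (Sum.elim (fun b => dist y o + dist o b) (fun z => dist y z)) (by
              intro i hi
              rcases i with b | z
              · obtain ⟨q, hq⟩ := hr y o
                obtain ⟨q', hq'⟩ := hr o b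
                exact ⟨q + q', by simp [hq, hq']⟩
              · exact hr y z) (by
              intro i hi
              rcases i with b | z
              · have h3 : 0 < dist y o := dist_pos.2 hyo
                have h4 : 0 ≤ dist o b := dist_nonneg
                simp only [Sum.elim_inl]
                linarith
              · have hz : z ∈ insert o F := by simpa using hi
                exact dist_pos.2 (hne z hz)) (by
              intro i hi j hj
              rcases i with b | z <;> rcases j with b' | z' <;>
                simp only [Sum.elim_inl, Sum.elim_inr, id_eq]
              · have t1 := dist_triangle o b' b
                have t2 := dist_triangle b o b'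
                have t3 : 0 ≤ dist y o := dist_nonneg
                rw [dist_comm b' b] at t1
                rw [dist_comm b o] at t2
                constructor <;> linarith
              · have hz : z' ∈ insert o F := by simpa using hj
                have hb : b ∈ B := by simpa using hi
                have e1 := h2' z' hz b hb
                rw [dist_comm b, e1]
                have t1 := dist_triangle y z' o
                have t2 := dist_triangle z' y o
                rw [dist_comm z' y] at t2
                constructor <;> linarith
              · have hz : z ∈ insert o F := by simpa using hi
                have hb : b' ∈ B := by simpa using hj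
                have e1 := h2' z hz b' hb
                rw [e1]
                have t1 := dist_triangle y o z
                have t2 := dist_triangle z y o
                have t3 : 0 ≤ dist o b' := dist_nonneg
                rw [dist_comm z y] at t2
                rw [dist_comm o z] at t1
                constructor <;> linarith
              · have hz : z ∈ insert o F := by simpa using hi
                have hz' : z' ∈ insert o F := by simpa using hj
                rw [h1 z hz z' hz']
                have t1 := dist_triangle y z' z
                have t2 := dist_triangle z y z'
                rw [dist_comm z' z] at t1
                rw [dist_comm z y] at t2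
                constructor <;> linarith)
          have hpB : ∀ b ∈ B, dist p b = dist y o + dist o b := by
            intro b hb
            exact hp (Sum.inl b) (by simpa using hb)
          have hpF : ∀ z ∈ insert o F, dist p (ψ z) = dist y z := by
            intro z hz
            exact hp (Sum.inr z) (by simpa using hz)
          refine ⟨Function.update ψ y p, ?_, ?_, ?_⟩
          · rw [Function.update_of_ne (Ne.symm hyo), h0]
          · intro a ha b hb
            have hcase : ∀ c ∈ insert o (insert y F), c = y ∨ c ∈ insert o F := by
              intro c hc
              simp only [Finset.mem_insert] at hc ⊢
              tauto
            rcases hcase a ha with rfl | ha' <;> rcases hcase b hb with rfl | hb'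
            · simp
            · rw [Function.update_self, Function.update_of_ne (hne b hb').symm]
              exact hpF b hb'
            · rw [Function.update_self, Function.update_of_ne (hne a ha').symm, dist_comm,
                dist_comm a]
              exact hpF a ha'
            · rw [Function.update_of_ne (hne b hb').symm, Function.update_of_ne (hne a ha').symm]
              exact h1 a ha' b hb'
          · intro a ha b hb
            rcases Finset.mem_insert.1 ha with rfl | ha'
            · rw [Function.update_self]
              exact hpB b hb
            · rw [Function.update_of_ne (hne a (Finset.mem_insert_of_mem ha')).symm]
              exact h2 a ha' b hb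
  obtain ⟨ψ, h0, h1, h2⟩ := key
  obtain ⟨a, ha⟩ := ultrahomogeneous hr he (insert o F) id ψ (fun i hi j hj => (h1 i hi j hj).symm)
  refine ⟨a, ?_, ?_⟩
  · rw [← h0]
    have := ha o (Finset.mem_insert_self _ _)
    simpa [h0] using this
  · intro y hy b hb
    have := ha y (Finset.mem_insert_of_mem hy)
    simp only [id_eq] at this
    rw [this]
    exact h2 y hy b hb

end Q26.Ury
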