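import Mathlib
import Pool.Agent.Q26.UryC

set_option autoImplicit false

/-!
Fixed vectors for the stabilizer of a point.
-/

namespace Q26.Ury

open Filter Topology

variable {X : Type} [MetricSpace X] {E : Type} [NormedAddCommGroup E] [NormedSpace ℝ E]

/-- Continuity of the action, in terms of finite sets. -/
def Cont (α : (X ≃ᵢ X) →* (E ≃ᵃⁱ[ℝ] E)) : Prop :=
  ∀ (v : E) (g : X ≃ᵢ X) (ε : ℝ), 0 < ε →
    ∃ F : Finset X, ∀ h : X ≃ᵢ X, (∀ x ∈ F, h x = g x) → dist (α h v) (α g v) < ε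

variable (α : (X ≃ᵢ X) →* (E ≃ᵃⁱ[ℝ] E))

lemma mul_app (g h : X ≃ᵢ X) (v : E) : α (g * h) v = α g (α h v) := by
  rw [map_mul]
  rfl

lemma one_app (v : E) : α 1 v = v := by
  rw [map_one]
  rfl

lemma inv_app (g : X ≃ᵢ X) (v : E) : α g⁻¹ (α g v) = v := by
  rw [← mul_app, inv_mul_cancel, one_app]

lemma norm_app (g : X ≃ᵢ X) (v w : E) : ‖α g v - α g w‖ = ‖v - w‖ := by
  rw [← dist_eq_norm, ← dist_eq_norm]
  exact (α g).dist_map v w

/-- `F` controls `v` up to `ε`. -/
def Ctrl (F : Finset X) (v : E) (ε : ℝ) : Prop :=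
  ∀ g h : X ≃ᵢ X, (∀ x ∈ F, h x = g x) → ‖α h v - α g v‖ ≤ ε

variable {α}

lemma exists_ctrl (hc : Cont α) (v : E) {ε : ℝ} (hε : 0 < ε) : ∃ F : Finset X, Ctrl α F v ε := by
  obtain ⟨F, hF⟩ := hc v 1 ε hε
  refine ⟨F, fun g h hgh => ?_⟩
  have h1 := hF (g⁻¹ * h) (by
    intro x hx
    show g.symm (h x) = x
    rw [hgh x hx, IsometryEquiv.symm_apply_apply])
  rw [mul_app, one_app, dist_eq_norm, ← norm_app α g, ← mul_app, mul_inv_cancel, one_app] at h1
  exact h1.le

/-- A comparison of blocks. -/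
lemma block_compare {N : ℕ} {ι κ : Type} {t : Finset ι} {r : Finset κ} {c : ι → ℝ} {d : κ → ℝ}
    {n : ι → ℕ} {m : κ → ℕ} (hc0 : ∀ i ∈ t, 0 ≤ c i) (hc1 : ∑ i ∈ t, c i = 1)
    (hn : ∀ i ∈ t, n i < N) (hd0 : ∀ j ∈ r, 0 ≤ d j) (hd1 : ∑ j ∈ r, d j = 1)
    {u z : ℕ → E} {ε : ℝ}
    (hu : ‖∑ i ∈ t, c i • u (n i) - ∑ j ∈ r, d j • u (m j)‖ < ε) (h φ : X ≃ᵢ X)
    (h1 : ∀ k < N, ‖α h (u k) - α φ (u k)‖ ≤ ε)
    (h2 : ∀ j ∈ r, ‖α φ (u (m j)) - z (m j)‖ ≤ ε) :
    ‖α h (∑ i ∈ t, c i • u (n i)) - ∑ j ∈ r, d j • z (m j)‖ ≤ 3 * ε := by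
  have e1 : ‖α h (∑ i ∈ t, c i • u (n i)) - α φ (∑ i ∈ t, c i • u (n i))‖ ≤ ε := by
    rw [affine_sum (α h) t c hc1, affine_sum (α φ) t c hc1]
    exact sum_close t c hc0 hc1 _ _ (fun i hi => h1 _ (hn i hi))
  have e2 : ‖α φ (∑ i ∈ t, c i • u (n i)) - α φ (∑ j ∈ r, d j • u (m j))‖ ≤ ε := by
    rw [norm_app]
    exact hu.le
  have e3 : ‖α φ (∑ j ∈ r, d j • u (m j)) - ∑ j ∈ r, d j • z (m j)‖ ≤ ε := by
    rw [affine_sum (α φ) r d hd1]
    exact sum_close r d hd0 hd1 _ _ (fun j hj => h2 j hj)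
  have e4 := norm_add₃_le
    (a := α h (∑ i ∈ t, c i • u (n i)) - α φ (∑ i ∈ t, c i • u (n i)))
    (b := α φ (∑ i ∈ t, c i • u (n i)) - α φ (∑ j ∈ r, d j • u (m j)))
    (c := α φ (∑ j ∈ r, d j • u (m j)) - ∑ j ∈ r, d j • z (m j))
  have e5 : α h (∑ i ∈ t, c i • u (n i)) - α φ (∑ i ∈ t, c i • u (n i)) +
      (α φ (∑ i ∈ t, c i • u (n i)) - α φ (∑ j ∈ r, d j • u (m j))) +
      (α φ (∑ j ∈ r, d j • u (m j)) - ∑ j ∈ r, d j • z (m j)) =
      α h (∑ i ∈ t, c i • u (n i)) - ∑ j ∈ r, d j • z (m j) := by abel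
  rw [e5] at e4
  linarith

/-- The displacement of `v` under the stabilizer of `o` is at most `D`. -/
def Disp (α : (X ≃ᵢ X) →* (E ≃ᵃⁱ[ℝ] E)) (o : X) (v : E) (D : ℝ) : Prop :=
  ∀ g : X ≃ᵢ X, g o = o → ‖α g v - v‖ ≤ D

/-- Orbits of the stabilizer of a point are bounded. -/
theorem exists_disp [Countable X] (hr : Rat X) (he : Ext X) (hc : Cont α) (o : X) (v : E) :
    ∃ D : ℝ, Disp α o v D := by
  classical
  obtain ⟨F, hF⟩ := exists_ctrl hc v one_pos
  obtain ⟨h0, h0o, h0F⟩ := free_copy hr he o F F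
  refine ⟨2 * (2 + ‖α h0 v - v‖), fun g hg => ?_⟩
  obtain ⟨h, ho, hh⟩ := free_copy hr he o F (F ∪ F.image g)
  have key : ∀ k : X ≃ᵢ X, k o = o → (∀ y ∈ F, k y ∈ F ∪ F.image g) →
      ‖α h v - α k v‖ ≤ 2 + ‖α h0 v - v‖ := by
    intro k hk hkF
    obtain ⟨u, hu⟩ := ultrahomogeneous hr he (F.disjSum F) (Sum.elim (fun y => y) h0)
      (Sum.elim k h) (by
        intro i hi j hj
        rcases i with y | y <;> rcases j with z | z <;>
          simp only [Sum.elim_inl, Sum.elim_inr]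
        · exact (k.dist_eq y z).symm
        · have hy : y ∈ F := by simpa using hi
          have hz : z ∈ F := by simpa using hj
          rw [dist_comm y, h0F z hz y hy, dist_comm (k y), hh z hz (k y) (hkF y hy)]
          congr 1
          rw [← k.dist_eq o y, hk]
        · have hy : y ∈ F := by simpa using hi
          have hz : z ∈ F := by simpa using hj
          rw [h0F y hy z hz, hh y hy (k z) (hkF z hz)]
          congr 1
          rw [← k.dist_eq o z, hk]
        · rw [h0.dist_eq, h.dist_eq])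
    have hu1 : ∀ y ∈ F, u y = k y := fun y hy => hu (Sum.inl y) (by simpa using hy)
    have hu2 : ∀ y ∈ F, u (h0 y) = h y := fun y hy => hu (Sum.inr y) (by simpa using hy)
    have e1 : ‖α h v - α u (α h0 v)‖ ≤ 1 := by
      rw [← mul_app]
      exact hF _ _ (fun x hx => (hu2 x hx).symm)
    have e2 : ‖α u (α h0 v) - α u v‖ = ‖α h0 v - v‖ := norm_app α u _ _
    have e3 : ‖α u v - α k v‖ ≤ 1 := hF _ _ (fun x hx => hu1 x hx)
    have e4 := norm_add₃_le (a := α h v - α u (α h0 v)) (b := α u (α h0 v) - α u v)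
      (c := α u v - α k v)
    have e5 : α h v - α u (α h0 v) + (α u (α h0 v) - α u v) + (α u v - α k v) =
        α h v - α k v := by abel
    rw [e5] at e4
    linarith
  have k1 := key 1 rfl (fun y hy => Finset.mem_union_left _ hy)
  have k2 := key g hg (fun y hy => Finset.mem_union_right _ (Finset.mem_image_of_mem g hy))
  rw [one_app] at k1
  have e6 : ‖α g v - v‖ ≤ ‖α h v - v‖ + ‖α h v - α g v‖ := by
    have : α g v - v = (α h v - v) - (α h v - α g v) := by abel
    rw [this]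
    exact norm_sub_le _ _
  linarith

/-- A free sequence of copies of `F` over `o`. -/
lemma free_seq [Countable X] (hr : Rat X) (he : Ext X) (o : X) (F B : Finset X) :
    ∃ a : ℕ → (X ≃ᵢ X), (∀ n, a n o = o ∧ ∀ y ∈ F, ∀ b ∈ B, dist (a n y) b = dist y o + dist o b) ∧
      ∀ m n, m ≠ n → ∀ y ∈ F, ∀ z ∈ F, dist (a m y) (a n z) = dist y o + dist o z := by
  classical
  have : Std.Symm (fun a a' : X ≃ᵢ X =>
      ∀ y ∈ F, ∀ z ∈ F, dist (a y) (a' z) = dist y o + dist o z) := by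
    refine ⟨fun a a' h y hy z hz => ?_⟩
    rw [dist_comm (a' y), h z hz y hy, add_comm, dist_comm o y, dist_comm z o]
  refine exists_seq_of_forall_finset_exists' (α := (X ≃ᵢ X))
    (fun a => a o = o ∧ ∀ y ∈ F, ∀ b ∈ B, dist (a y) b = dist y o + dist o b)
    (fun a a' => ∀ y ∈ F, ∀ z ∈ F, dist (a y) (a' z) = dist y o + dist o z) ?_
  intro s hs
  obtain ⟨a, ha, haF⟩ := free_copy hr he o F (B ∪ s.biUnion (fun a => F.image a))
  refine ⟨a, ⟨ha, fun y hy b hb => haF y hy b (Finset.mem_union_left _ hb)⟩, ?_⟩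
  intro x hx y hy z hz
  rw [dist_comm, haF z hz (x y) (Finset.mem_union_right _
    (Finset.mem_biUnion.2 ⟨x, hx, Finset.mem_image_of_mem x hy⟩))]
  have : dist o (x y) = dist o y := by
    rw [← x.dist_eq o y, (hs x hx).1]
  rw [this, add_comm, dist_comm o y, dist_comm z o]

/-- Vectors of small displacement near a given vector. -/
theorem small_disp [Countable X] (hr : Rat X) (he : Ext X) (hc : Cont α)
    (hE : Function.Surjective (NormedSpace.inclusionInDoubleDual ℝ E)) (o : X) (v : E) {D : ℝ}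
    (hD : Disp α o v D) {δ : ℝ} (hδ : 0 < δ) : ∃ ξ : E, Disp α o ξ δ ∧ ‖ξ - v‖ ≤ D := by
  classical
  obtain ⟨F, hF⟩ := exists_ctrl hc v (show 0 < δ / 6 by positivity)
  obtain ⟨a, ha, haa⟩ := free_seq hr he o F ∅
  have hbd : ∀ k, ‖α (a k) v‖ ≤ ‖v‖ + D := by
    intro k
    have h1 := hD (a k) (ha k).1
    have h2 : ‖α (a k) v‖ ≤ ‖v‖ + ‖α (a k) v - v‖ := by
      have : α (a k) v = v + (α (a k) v - v) := by abel
      calc ‖α (a k) v‖ = ‖v + (α (a k) v - v)‖ := by rw [← this]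
        _ ≤ _ := norm_add_le _ _
    linarith
  obtain ⟨N, ι, κ, t, r, c, d, n, m, hc0, hc1, hn, hd0, hd1, hm, hlt⟩ :=
    blocks hE (u := fun k => α (a k) v) hbd (show 0 < δ / 6 by positivity)
  refine ⟨∑ i ∈ t, c i • α (a (n i)) v, ?_, ?_⟩
  · intro g hg
    let B : Finset X := (Finset.range N).biUnion (fun k => F.image (a k)) ∪
      (Finset.range N).biUnion (fun k => F.image (fun y => g (a k y)))
    obtain ⟨b, hb, hbb⟩ := free_seq hr he o F B
    have key : ∀ h : X ≃ᵢ X, h o = o → (∀ k < N, ∀ y ∈ F, h (a k y) ∈ B) →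
        ‖α h (∑ i ∈ t, c i • α (a (n i)) v) - ∑ j ∈ r, d j • α (b (m j)) v‖ ≤ 3 * (δ / 6) := by
      intro h ho hB
      obtain ⟨φ, hφ⟩ := ultrahomogeneous hr he
        ((Finset.range N ∪ r.image m) ×ˢ F) (fun p : ℕ × X => a p.1 p.2)
        (fun p : ℕ × X => if p.1 < N then h (a p.1 p.2) else b p.1 p.2) (by
          rintro ⟨k, y⟩ hky ⟨l, z⟩ hlz
          have hy : y ∈ F := (Finset.mem_product.1 hky).2
          have hz : z ∈ F := (Finset.mem_product.1 hlz).2
          have hdo : ∀ (e : X ≃ᵢ X), e o = o → ∀ y, dist o (e y) = dist o y := by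
            intro e he' y
            rw [← e.dist_eq o y, he']
          by_cases hkl : k = l
          · subst hkl
            by_cases hk : k < N
            · simp only [hk, if_true]
              rw [h.dist_eq]
            · simp only [hk, if_false]
              rw [(a k).dist_eq, (b k).dist_eq]
          · show dist (a k y) (a l z) = _
            rw [haa k l hkl y hy z hz]
            by_cases hk : k < N <;> by_cases hl : l < N
            · simp only [hk, hl, if_true]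
              rw [h.dist_eq, haa k l hkl y hy z hz]
            · simp only [hk, hl, if_true, if_false]
              rw [dist_comm (h (a k y)), (hb l).2 z hz _ (hB k hk y hy), hdo h ho,
                hdo (a k) (ha k).1, dist_comm z o, dist_comm o y, add_comm]
            · simp only [hk, hl, if_true, if_false]
              rw [(hb k).2 y hy _ (hB l hl z hz), hdo h ho, hdo (a l) (ha l).1]
            · simp only [hk, hl, if_false]
              rw [hbb k l hkl y hy z hz])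
      refine block_compare (u := fun k => α (a k) v) (z := fun k => α (b k) v)
        hc0 hc1 hn hd0 hd1 hlt h φ ?_ ?_
      · intro k hk
        rw [← mul_app, ← mul_app]
        refine hF _ _ (fun x hx => ?_)
        have h1 := hφ (k, x) (Finset.mem_product.2 ⟨Finset.mem_union_left _
          (Finset.mem_range.2 hk), hx⟩)
        simp only [hk, if_true] at h1
        exact h1.symm
      · intro j hj
        show ‖α φ (α (a (m j)) v) - α (b (m j)) v‖ ≤ _
        rw [← mul_app]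
        refine hF _ _ (fun x hx => ?_)
        have h1 := hφ (m j, x) (Finset.mem_product.2 ⟨Finset.mem_union_right _
          (Finset.mem_image_of_mem m hj), hx⟩)
        have h2 : ¬ (m j < N) := not_lt.2 (hm j hj)
        simp only [h2, if_false] at h1
        exact h1
    have k1 := key 1 rfl (fun k hk y hy => Finset.mem_union_left _ (Finset.mem_biUnion.2
      ⟨k, Finset.mem_range.2 hk, Finset.mem_image_of_mem (a k) hy⟩))
    have k2 := key g hg (fun k hk y hy => Finset.mem_union_right _ (Finset.mem_biUnion.2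
      ⟨k, Finset.mem_range.2 hk, Finset.mem_image_of_mem (fun y => g (a k y)) hy⟩))
    rw [one_app] at k1
    have e6 : ∀ (p q z : E), ‖p - q‖ ≤ ‖p - z‖ + ‖q - z‖ := by
      intro p q z
      have : p - q = (p - z) - (q - z) := by abel
      rw [this]
      exact norm_sub_le _ _
    have e7 := e6 (α g (∑ i ∈ t, c i • α (a (n i)) v)) (∑ i ∈ t, c i • α (a (n i)) v)
      (∑ j ∈ r, d j • α (b (m j)) v)
    linarith
  · have h1 := sum_close t c hc0 hc1 (fun i => α (a (n i)) v) (fun _ => v) (ε := D)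
      (fun i _ => hD _ (ha (n i)).1)
    rw [← Finset.sum_smul, hc1, one_smul] at h1
    exact h1

/-- A fixed vector of the stabilizer of a point. -/
theorem stab_fixed [CompleteSpace E] [Countable X] (hr : Rat X) (he : Ext X) (hc : Cont α)
    (hE : Function.Surjective (NormedSpace.inclusionInDoubleDual ℝ E)) (o : X) :
    ∃ η : E, ∀ g : X ≃ᵢ X, g o = o → α g η = η := by
  classical
  obtain ⟨D0, hD0⟩ := exists_disp hr he hc o (0 : E)
  obtain ⟨ξ0, hξ0, -⟩ := small_disp hr he hc hE o (0 : E) hD0 (show (0 : ℝ) < 1 by norm_num)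
  have hstep : ∀ (n : ℕ) (v : {v : E // Disp α o v ((1 / 2 : ℝ) ^ n)}),
      ∃ w : {w : E // Disp α o w ((1 / 2 : ℝ) ^ (n + 1))}, ‖w.1 - v.1‖ ≤ (1 / 2 : ℝ) ^ n := by
    intro n v
    obtain ⟨ξ, hξ, hξ'⟩ := small_disp hr he hc hE o v.1 v.2
      (show (0 : ℝ) < (1 / 2 : ℝ) ^ (n + 1) by positivity)
    exact ⟨⟨ξ, hξ⟩, hξ'⟩
  choose nx hnx using hstep
  let s : (n : ℕ) → {v : E // Disp α o v ((1 / 2 : ℝ) ^ n)} := fun n =>
    Nat.rec ⟨ξ0, by simpa using hξ0⟩ (fun n v => nx n v) n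
  have hs : ∀ n, ‖(s (n + 1)).1 - (s n).1‖ ≤ (1 / 2 : ℝ) ^ n := fun n => hnx n (s n)
  have hcau : CauchySeq (fun n => (s n).1) := by
    refine cauchySeq_of_le_geometric (1 / 2 : ℝ) 1 (by norm_num) ?_
    intro n
    rw [dist_comm, dist_eq_norm, one_mul]
    exact hs n
  obtain ⟨η, hη⟩ := cauchySeq_tendsto_of_complete hcau
  refine ⟨η, fun g hg => ?_⟩
  have h1 : Tendsto (fun n => α g (s n).1 - (s n).1) atTop (𝓝 (α g η - η)) :=
    (((α g).continuous.tendsto η).comp hη).sub hη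
  have h2 : Tendsto (fun n => α g (s n).1 - (s n).1) atTop (𝓝 0) := by
    refine squeeze_zero_norm (fun n => (s n).2 g hg) ?_
    exact tendsto_pow_atTop_nhds_zero_of_lt_one (by norm_num) (by norm_num)
  have h3 := tendsto_nhds_unique h1 h2
  exact sub_eq_zero.1 h3

end Q26.Ury
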