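import Mathlib
import Pool.Agent.Q26.UryD

set_option autoImplicit false

/-!
Fixed vectors for the whole isometry group.
-/

namespace Q26.Ury

open Filter Topology

variable {X : Type} [MetricSpace X] {E : Type} [NormedAddCommGroup E] [NormedSpace ℝ E]
variable {α : (X ≃ᵢ X) →* (E ≃ᵃⁱ[ℝ] E)}

lemma transitive [Countable X] (hr : Rat X) (he : Ext X) (x y : X) : ∃ g : X ≃ᵢ X, g x = y := by
  obtain ⟨g, hg⟩ := ultrahomogeneous hr he ({()} : Finset Unit) (fun _ => x) (fun _ => y)
    (fun _ _ _ _ => by simp)
  exact ⟨g, hg () (Finset.mem_singleton_self _)⟩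

/-- New points at distance 4 from a finite set of diameter at most 8. -/
lemma seq_four (he : Ext X) (B : Finset X) (b0 : X) (hb0 : b0 ∈ B)
    (hB : ∀ b ∈ B, ∀ b' ∈ B, dist b b' ≤ 8) :
    ∃ z : ℕ → X, (∀ n, ∀ b ∈ B, dist (z n) b = 4) ∧ ∀ m n, m ≠ n → dist (z m) (z n) = 4 := by
  classical
  have : Std.Symm (fun a a' : X => dist a a' = 4) := ⟨fun a a' h => by rw [dist_comm]; exact h⟩
  refine exists_seq_of_forall_finset_exists' (α := X)
    (fun z => ∀ b ∈ B, dist z b = 4) (fun a a' => dist a a' = 4) ?_
  intro s hs
  have hbound : ∀ a ∈ B ∪ s, ∀ b ∈ B ∪ s, dist a b ≤ 8 := by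
    intro a ha b hb
    rcases Finset.mem_union.1 ha with ha | ha <;> rcases Finset.mem_union.1 hb with hb | hb
    · exact hB a ha b hb
    · rw [dist_comm, hs b hb a ha]; norm_num
    · rw [hs a ha b hb]; norm_num
    · have h1 := hs a ha b0 hb0
      have h2 := hs b hb b0 hb0
      have h3 := dist_triangle a b0 b
      rw [dist_comm b0 b] at h3
      linarith
  obtain ⟨x, hx⟩ := ext' he (B ∪ s) id (fun _ => 4) (fun i _ => ⟨4, by norm_num⟩)
    (fun i _ => by norm_num) (fun i hi j hj => ⟨by
      rw [sub_self]; exact dist_nonneg, by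
      have := hbound i hi j hj
      simp only [id_eq]
      linarith⟩)
  refine ⟨x, fun b hb => hx b (Finset.mem_union_left _ hb), fun y hy => ?_⟩
  rw [dist_comm]
  exact hx y (Finset.mem_union_right _ hy)

/-- Points at distance 2 from `o` and at mutual distance 4. -/
lemma seq_two (he : Ext X) (o : X) :
    ∃ x : ℕ → X, (∀ n, dist (x n) o = 2) ∧ ∀ m n, m ≠ n → dist (x m) (x n) = 4 := by
  classical
  have : Std.Symm (fun a a' : X => dist a a' = 4) := ⟨fun a a' h => by rw [dist_comm]; exact h⟩
  refine exists_seq_of_forall_finset_exists' (α := X)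
    (fun z => dist z o = 2) (fun a a' => dist a a' = 4) ?_
  intro s hs
  have hmut : ∀ a ∈ s, ∀ b ∈ s, dist a b ≤ 8 := by
    intro a ha b hb
    have h1 := hs a ha
    have h2 := hs b hb
    have h3 := dist_triangle a o b
    rw [dist_comm o b] at h3
    linarith
  obtain ⟨x, hx⟩ := ext' he (({()} : Finset Unit).disjSum s) (Sum.elim (fun _ => o) id)
    (Sum.elim (fun _ => 2) (fun _ => 4)) (by
      intro i _
      rcases i with i | i
      · exact ⟨2, by norm_num⟩
      · exact ⟨4, by norm_num⟩) (by
      intro i _
      rcases i with i | i <;> simp) (by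
      intro i hi j hj
      rcases i with i | i <;> rcases j with j | j <;>
        simp only [Sum.elim_inl, Sum.elim_inr, id_eq]
      · rw [dist_self]
        constructor <;> norm_num
      · have h1 : j ∈ s := by simpa using hj
        rw [dist_comm, hs j h1]
        constructor <;> norm_num
      · have h1 : i ∈ s := by simpa using hi
        rw [hs i h1]
        constructor <;> norm_num
      · have h1 : i ∈ s := by simpa using hi
        have h2 : j ∈ s := by simpa using hj
        have h3 := hmut i h1 j h2
        have h4 : 0 ≤ dist i j := dist_nonneg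
        constructor <;> linarith)
  refine ⟨x, hx (Sum.inl ()) (by simp), fun y hy => ?_⟩
  rw [dist_comm]
  exact hx (Sum.inr y) (by simpa using hy)

/-- The midpoint property. -/
lemma midpoint_exists (hr : Rat X) (he : Ext X) (x y : X) :
    ∃ z : X, dist z x = dist x y / 2 ∧ dist z y = dist x y / 2 := by
  by_cases hxy : x = y
  · subst hxy
    exact ⟨x, by simp, by simp⟩
  · have hpos : 0 < dist x y := dist_pos.2 hxy
    obtain ⟨q, hq⟩ := hr x y
    obtain ⟨z, hz⟩ := ext' he (Finset.univ : Finset Bool) (fun b => if b then x else y)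
      (fun _ => dist x y / 2) (fun _ _ => ⟨q / 2, by rw [hq]; push_cast; ring⟩)
      (fun _ _ => by positivity) (by
        intro i _ j _
        rw [sub_self]
        refine ⟨dist_nonneg, ?_⟩
        have h2 : dist x y / 2 + dist x y / 2 = dist x y := by ring
        rw [h2]
        rcases i with _ | _ <;> rcases j with _ | _ <;> simp [dist_comm, hpos.le])
    refine ⟨z, ?_, ?_⟩
    · simpa using hz true (Finset.mem_univ _)
    · simpa using hz false (Finset.mem_univ _)

/-- The main theorem: there is a fixed vector. -/
theorem exists_fixed [CompleteSpace E] [Countable X] (hr : Rat X) (he : Ext X) (hc : Cont α)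
    (hE : Function.Surjective (NormedSpace.inclusionInDoubleDual ℝ E)) :
    ∃ w : E, ∀ g : X ≃ᵢ X, α g w = w := by
  classical
  obtain ⟨o, -⟩ := he ∅ (fun _ => 1) (fun _ _ => by norm_num)
    (fun a ha => absurd ha (Finset.notMem_empty a))
  obtain ⟨η, hη⟩ := stab_fixed hr he hc hE o
  choose G hG using fun x => transitive hr he o x
  let f : X → E := fun x => α (G x) η
  have hf : ∀ (g : X ≃ᵢ X) (x : X), α g (f x) = f (g x) := by
    intro g x
    show α g (α (G x) η) = α (G (g x)) η
    have h1 : ((G (g x))⁻¹ * (g * G x)) o = o := by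
      show (G (g x)).symm (g (G x o)) = o
      rw [hG x]
      have h0 := (G (g x)).symm_apply_apply o
      rw [hG (g x)] at h0
      exact h0
    have h2 := hη _ h1
    rw [← mul_app]
    have h3 : α (G (g x)) (α ((G (g x))⁻¹ * (g * G x)) η) = α (G (g x)) η := by rw [h2]
    rw [← mul_app, mul_inv_cancel_left] at h3
    exact h3
  obtain ⟨x, hxo, hxx⟩ := seq_two he o
  obtain ⟨D, hD⟩ := exists_disp hr he hc o (f (x 0))
  have hbd : ∀ k, ‖f (x k)‖ ≤ ‖f (x 0)‖ + D := by
    intro k
    obtain ⟨h, hh⟩ := ultrahomogeneous hr he (Finset.univ : Finset Bool)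
      (fun b => if b then o else x 0) (fun b => if b then o else x k) (by
        intro i _ j _
        rcases i with _ | _ <;> rcases j with _ | _ <;>
          simp [hxo, dist_comm o])
    have h1 : h o = o := by simpa using hh true (Finset.mem_univ _)
    have h2 : h (x 0) = x k := by simpa using hh false (Finset.mem_univ _)
    have h3 := hD h h1
    rw [hf, h2] at h3
    calc ‖f (x k)‖ = ‖f (x 0) + (f (x k) - f (x 0))‖ := by congr 1; abel
      _ ≤ ‖f (x 0)‖ + ‖f (x k) - f (x 0)‖ := norm_add_le _ _
      _ ≤ _ := by linarith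
  -- approximately fixed vectors
  have happrox : ∀ k : ℕ, ∃ ξ : E, ‖ξ‖ ≤ ‖f (x 0)‖ + D ∧
      ∀ g : X ≃ᵢ X, dist (g o) o ≤ 4 → ‖α g ξ - ξ‖ ≤ 6 * (1 / ((k : ℝ) + 1)) := by
    intro k
    obtain ⟨N, ι, κ, t, r, c, d, n, m, hc0, hc1, hn, hd0, hd1, hm, hlt⟩ :=
      blocks hE (u := fun k => f (x k)) hbd (show (0 : ℝ) < 1 / ((k : ℝ) + 1) by positivity)
    refine ⟨∑ i ∈ t, c i • f (x (n i)), ?_, ?_⟩
    · have h1 := sum_close t c hc0 hc1 (fun i => f (x (n i))) (fun _ => 0)
        (ε := ‖f (x 0)‖ + D) (fun i _ => by rw [sub_zero]; exact hbd _)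
      simpa using h1
    · intro g hg
      let B : Finset X := insert o ((Finset.range N).image x ∪
        (Finset.range N).image (fun k => g (x k)))
      have hBmem : ∀ b ∈ B, b = o ∨ (∃ k, b = x k) ∨ ∃ k, b = g (x k) := by
        intro b hb
        rcases Finset.mem_insert.1 hb with h | h
        · exact Or.inl h
        · rcases Finset.mem_union.1 h with h | h
          · obtain ⟨k, -, rfl⟩ := Finset.mem_image.1 h
            exact Or.inr (Or.inl ⟨k, rfl⟩)
          · obtain ⟨k, -, rfl⟩ := Finset.mem_image.1 h
            exact Or.inr (Or.inr ⟨k, rfl⟩)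
      have hgo : ∀ k, dist (g (x k)) o ≤ 6 := by
        intro k
        have h1 := dist_triangle (g (x k)) (g o) o
        rw [g.dist_eq, hxo] at h1
        linarith
      have hB : ∀ b ∈ B, dist b o ≤ 6 ∧ (dist b o ≤ 2 ∨ ∃ k, b = g (x k)) := by
        intro b hb
        rcases hBmem b hb with rfl | ⟨k, rfl⟩ | ⟨k, rfl⟩
        · rw [dist_self]
          exact ⟨by norm_num, Or.inl (by norm_num)⟩
        · rw [hxo]
          exact ⟨by norm_num, Or.inl le_rfl⟩
        · exact ⟨hgo k, Or.inr ⟨k, rfl⟩⟩
      have hB8 : ∀ b ∈ B, ∀ b' ∈ B, dist b b' ≤ 8 := by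
        intro b hb b' hb'
        have h1 := dist_triangle b o b'
        rw [dist_comm o b'] at h1
        rcases (hB b hb).2 with h2 | ⟨k, h2⟩
        · have := (hB b' hb').1
          linarith
        · rcases (hB b' hb').2 with h3 | ⟨l, h3⟩
          · have := (hB b hb).1
            linarith
          · have h4 : dist b b' ≤ 4 := by
              rw [h2, h3, g.dist_eq]
              have h5 := dist_triangle (x k) o (x l)
              rw [dist_comm o, hxo, hxo] at h5
              linarith
            linarith
      obtain ⟨z, hz, hzz⟩ := seq_four he B o (Finset.mem_insert_self _ _) hB8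
      have key : ∀ h : X ≃ᵢ X, (∀ k < N, h (x k) ∈ B) →
          ‖α h (∑ i ∈ t, c i • f (x (n i))) - ∑ j ∈ r, d j • f (z (m j))‖ ≤
            3 * (1 / ((k : ℝ) + 1)) := by
        intro h hhB
        obtain ⟨φ, hφ⟩ := ultrahomogeneous hr he (Finset.range N ∪ r.image m) x
          (fun p => if p < N then h (x p) else z p) (by
            intro i _ j _
            by_cases hij : i = j
            · subst hij
              simp
            · rw [hxx i j hij]
              by_cases hi : i < N <;> by_cases hj : j < N
              · simp only [hi, hj, if_true]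
                rw [h.dist_eq, hxx i j hij]
              · simp only [hi, hj, if_true, if_false]
                rw [dist_comm, hz j _ (hhB i hi)]
              · simp only [hi, hj, if_true, if_false]
                rw [hz i _ (hhB j hj)]
              · simp only [hi, hj, if_false]
                rw [hzz i j hij])
        have hpos : (0 : ℝ) ≤ 1 / ((k : ℝ) + 1) := by positivity
        refine block_compare (u := fun k => f (x k)) (z := fun k => f (z k))
          hc0 hc1 hn hd0 hd1 hlt h φ ?_ ?_
        · intro l hl
          have h1 := hφ l (Finset.mem_union_left _ (Finset.mem_range.2 hl))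
          simp only [hl, if_true] at h1
          rw [hf, hf, h1, sub_self, norm_zero]
          exact hpos
        · intro j hj
          have h1 := hφ (m j) (Finset.mem_union_right _ (Finset.mem_image_of_mem m hj))
          have h2 : ¬ (m j < N) := not_lt.2 (hm j hj)
          simp only [h2, if_false] at h1
          rw [hf, h1, sub_self, norm_zero]
          exact hpos
      have k1 := key 1 (fun k hk => Finset.mem_insert_of_mem (Finset.mem_union_left _
        (Finset.mem_image_of_mem x (Finset.mem_range.2 hk))))
      have k2 := key g (fun k hk => Finset.mem_insert_of_mem (Finset.mem_union_right _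
        (Finset.mem_image_of_mem (fun k => g (x k)) (Finset.mem_range.2 hk))))
      rw [one_app] at k1
      have e6 : ∀ (p q z : E), ‖p - q‖ ≤ ‖p - z‖ + ‖q - z‖ := by
        intro p q z
        have : p - q = (p - z) - (q - z) := by abel
        rw [this]
        exact norm_sub_le _ _
      have e7 := e6 (α g (∑ i ∈ t, c i • f (x (n i)))) (∑ i ∈ t, c i • f (x (n i)))
        (∑ j ∈ r, d j • f (z (m j)))
      linarith
  choose ξ hξ hξg using happrox
  obtain ⟨w, hw⟩ := exists_wlim hE hξ
  have hbase : ∀ g : X ≃ᵢ X, dist (g o) o ≤ 4 → α g w = w := by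
    intro g hg
    apply wlim_fixed hw
    refine squeeze_zero_norm (fun n => hξg n g hg) ?_
    have := tendsto_one_div_add_atTop_nhds_zero_nat (𝕜 := ℝ)
    simpa using this.const_mul 6
  have hall : ∀ k : ℕ, ∀ g : X ≃ᵢ X, dist (g o) o ≤ 4 * 2 ^ k → α g w = w := by
    intro k
    induction k with
    | zero =>
        intro g hg
        exact hbase g (by simpa using hg)
    | succ k ih =>
        intro g hg
        obtain ⟨z, hz1, hz2⟩ := midpoint_exists hr he o (g o)
        rw [dist_comm o] at hz1 hz2
        obtain ⟨h, hh⟩ := transitive hr he o z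
        have h1 : α h w = w := by
          apply ih
          rw [hh, hz1]
          rw [pow_succ] at hg
          linarith
        have h2 : α (h⁻¹ * g) w = w := by
          apply ih
          have h3 : dist ((h⁻¹ * g) o) o = dist (g o) z := by
            show dist (h.symm (g o)) o = _
            rw [← hh, ← h.dist_eq (h.symm (g o)) o, IsometryEquiv.apply_symm_apply]
          rw [h3, dist_comm, hz2]
          rw [pow_succ] at hg
          linarith
        have h4 : α g w = α h (α (h⁻¹ * g) w) := by
          rw [← mul_app, mul_inv_cancel_left]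
        rw [h4, h2, h1]
  refine ⟨w, fun g => ?_⟩
  obtain ⟨k, hk⟩ := pow_unbounded_of_one_lt (dist (g o) o) (show (1 : ℝ) < 2 by norm_num)
  refine hall k g ?_
  have : (0 : ℝ) ≤ 2 ^ k := by positivity
  linarith

end Q26.Ury
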