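import Mathlib
import Pool.Agent.Q26.UryA

set_option autoImplicit false

/-!
Existence of the rational Urysohn space.
-/

namespace Q26.Ury

/-- `m` is a metric on the numbers below `n`. -/
structure IsMet (m : ℕ → ℕ → ℚ) (n : ℕ) : Prop where
  self : ∀ i < n, m i i = 0
  pos : ∀ i < n, ∀ j < n, i ≠ j → 0 < m i j
  symm : ∀ i < n, ∀ j < n, m i j = m j i
  tri : ∀ i < n, ∀ j < n, ∀ k < n, m i k ≤ m i j + m j k

/-- Admissible data for a new point. -/
structure Adm (m : ℕ → ℕ → ℚ) (n : ℕ) (s : Finset (ℕ × ℚ)) : Prop where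
  ne : s.Nonempty
  lt : ∀ p ∈ s, p.1 < n
  pos : ∀ p ∈ s, 0 < p.2
  le : ∀ p ∈ s, ∀ p' ∈ s, p.2 ≤ p'.2 + m p'.1 p.1
  sum : ∀ p ∈ s, ∀ p' ∈ s, m p.1 p'.1 ≤ p.2 + p'.2

open Classical in
/-- The data used at stage `n`. -/
noncomputable def sel (m : ℕ → ℕ → ℚ) (n : ℕ) (s : Finset (ℕ × ℚ)) : Finset (ℕ × ℚ) :=
  if Adm m n s then s else {(0, 1)}

lemma sel_ne (m : ℕ → ℕ → ℚ) (n : ℕ) (s : Finset (ℕ × ℚ)) : (sel m n s).Nonempty := by
  unfold sel
  split_ifs with h
  · exact h.ne
  · exact Finset.singleton_nonempty _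

/-- The distances of the new point. -/
noncomputable def nw (m : ℕ → ℕ → ℚ) (n : ℕ) (s : Finset (ℕ × ℚ)) (j : ℕ) : ℚ :=
  (sel m n s).inf' (sel_ne m n s) (fun p => p.2 + m p.1 j)

lemma sel_adm {m : ℕ → ℕ → ℚ} {n : ℕ} (hm : IsMet m n) (hn : 0 < n) (s : Finset (ℕ × ℚ)) :
    Adm m n (sel m n s) := by
  unfold sel
  split_ifs with h
  · exact h
  · refine ⟨Finset.singleton_nonempty _, ?_, ?_, ?_, ?_⟩
    · intro p hp
      rw [Finset.mem_singleton.1 hp]
      exact hn
    · intro p hp
      rw [Finset.mem_singleton.1 hp]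
      norm_num
    · intro p hp p' hp'
      rw [Finset.mem_singleton.1 hp, Finset.mem_singleton.1 hp', hm.self 0 hn]
      norm_num
    · intro p hp p' hp'
      rw [Finset.mem_singleton.1 hp, Finset.mem_singleton.1 hp', hm.self 0 hn]
      norm_num

lemma nw_le {m : ℕ → ℕ → ℚ} {n : ℕ} {s : Finset (ℕ × ℚ)} {p : ℕ × ℚ} (hp : p ∈ sel m n s)
    (j : ℕ) : nw m n s j ≤ p.2 + m p.1 j :=
  Finset.inf'_le (fun p : ℕ × ℚ => p.2 + m p.1 j) hp

lemma nw_eq (m : ℕ → ℕ → ℚ) (n : ℕ) (s : Finset (ℕ × ℚ)) (j : ℕ) :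
    ∃ p ∈ sel m n s, nw m n s j = p.2 + m p.1 j :=
  Finset.exists_mem_eq_inf' (sel_ne m n s) (fun p : ℕ × ℚ => p.2 + m p.1 j)

lemma nw_pos {m : ℕ → ℕ → ℚ} {n : ℕ} (hm : IsMet m n) (hn : 0 < n) (s : Finset (ℕ × ℚ))
    {j : ℕ} (hj : j < n) : 0 < nw m n s j := by
  have ha := sel_adm hm hn s
  obtain ⟨p, hp, he⟩ := nw_eq m n s j
  rw [he]
  have h1 := ha.pos p hp
  have h2 : 0 ≤ m p.1 j := by
    by_cases h : p.1 = j
    · rw [h, hm.self j hj]
    · exact (hm.pos _ (ha.lt p hp) _ hj h).le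
  linarith

lemma nw_lip {m : ℕ → ℕ → ℚ} {n : ℕ} (hm : IsMet m n) (hn : 0 < n) (s : Finset (ℕ × ℚ))
    {i j : ℕ} (hi : i < n) (hj : j < n) : nw m n s i ≤ nw m n s j + m j i := by
  have ha := sel_adm hm hn s
  obtain ⟨p, hp, he⟩ := nw_eq m n s j
  rw [he]
  have h1 := nw_le hp i
  have h2 := hm.tri _ (ha.lt p hp) _ hj _ hi
  linarith

lemma nw_sum {m : ℕ → ℕ → ℚ} {n : ℕ} (hm : IsMet m n) (hn : 0 < n) (s : Finset (ℕ × ℚ))
    {i j : ℕ} (hi : i < n) (hj : j < n) : m i j ≤ nw m n s i + nw m n s j := by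
  have ha := sel_adm hm hn s
  obtain ⟨p, hp, he⟩ := nw_eq m n s i
  obtain ⟨p', hp', he'⟩ := nw_eq m n s j
  rw [he, he']
  have h1 := hm.tri _ hi _ (ha.lt p hp) _ hj
  have h2 := hm.tri _ (ha.lt p hp) _ (ha.lt p' hp') _ hj
  have h3 := ha.sum p hp p' hp'
  rw [hm.symm i hi _ (ha.lt p hp)] at h1
  linarith

lemma nw_val {m : ℕ → ℕ → ℚ} {n : ℕ} (hm : IsMet m n) {s : Finset (ℕ × ℚ)}
    (hs : Adm m n s) {p : ℕ × ℚ} (hp : p ∈ s) : nw m n s p.1 = p.2 := by
  have hsel : sel m n s = s := by
    unfold sel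
    rw [if_pos hs]
  apply le_antisymm
  · have h1 : p ∈ sel m n s := by rw [hsel]; exact hp
    have h2 := nw_le h1 p.1
    rw [hm.self _ (hs.lt p hp), add_zero] at h2
    exact h2
  · obtain ⟨p', hp', he⟩ := nw_eq m n s p.1
    rw [he]
    rw [hsel] at hp'
    exact hs.le p hp p' hp'

/-- An enumeration of the tasks, each occurring infinitely often. -/
lemma exists_tasks : ∃ tsk : ℕ → Finset (ℕ × ℚ), ∀ (s : Finset (ℕ × ℚ)) (N : ℕ),
    ∃ n, N ≤ n ∧ tsk n = s := by
  obtain ⟨g, hg⟩ := exists_surjective_nat (Finset (ℕ × ℚ))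
  refine ⟨fun n => g (Nat.unpair n).1, fun s N => ?_⟩
  obtain ⟨a, rfl⟩ := hg s
  exact ⟨Nat.pair a N, Nat.right_le_pair a N, by simp⟩

/-- The enumeration. -/
noncomputable def tsk : ℕ → Finset (ℕ × ℚ) := Classical.choose exists_tasks

lemma tsk_spec (s : Finset (ℕ × ℚ)) (N : ℕ) : ∃ n, N ≤ n ∧ tsk n = s :=
  Classical.choose_spec exists_tasks s N

/-- The metric at stage `n`. -/
noncomputable def Mt : ℕ → ℕ → ℕ → ℚ
  | 0 => fun _ _ => 0
  | n + 1 => fun i j =>
      if i < n ∧ j < n then Mt n i j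
      else if i = j then 0
      else if i = n then nw (Mt n) n (tsk n) j
      else nw (Mt n) n (tsk n) i

lemma Mt_succ (n i j : ℕ) : Mt (n + 1) i j =
    if i < n ∧ j < n then Mt n i j
      else if i = j then 0
      else if i = n then nw (Mt n) n (tsk n) j
      else nw (Mt n) n (tsk n) i := rfl

lemma Mt_lt {n i j : ℕ} (hi : i < n) (hj : j < n) : Mt (n + 1) i j = Mt n i j := by
  rw [Mt_succ, if_pos ⟨hi, hj⟩]

lemma Mt_nn (n : ℕ) : Mt (n + 1) n n = 0 := by
  rw [Mt_succ]
  simp

lemma Mt_left {n j : ℕ} (hj : j < n) : Mt (n + 1) n j = nw (Mt n) n (tsk n) j := by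
  rw [Mt_succ, if_neg (by omega), if_neg (by omega), if_pos rfl]

lemma Mt_right {n i : ℕ} (hi : i < n) : Mt (n + 1) i n = nw (Mt n) n (tsk n) i := by
  rw [Mt_succ, if_neg (by omega), if_neg (by omega), if_neg (by omega)]

lemma Mt_met (n : ℕ) : IsMet (Mt n) n := by
  induction n with
  | zero => exact ⟨fun i hi => by omega, fun i hi => by omega, fun i hi => by omega,
      fun i hi => by omega⟩
  | succ n ih =>
      have hcase : ∀ i < n + 1, i < n ∨ i = n := fun i hi => by omega
      have hpos : ∀ i < n, 0 < n := fun i hi => by omega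
      refine ⟨?_, ?_, ?_, ?_⟩
      · intro i hi
        rcases hcase i hi with h | rfl
        · rw [Mt_lt h h, ih.self i h]
        · exact Mt_nn i
      · intro i hi j hj hij
        rcases hcase i hi with h | rfl <;> rcases hcase j hj with h' | rfl
        · rw [Mt_lt h h']
          exact ih.pos i h j h' hij
        · rw [Mt_right h]
          exact nw_pos ih (hpos i h) _ h
        · rw [Mt_left h']
          exact nw_pos ih (hpos j h') _ h'
        · exact absurd rfl hij
      · intro i hi j hj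
        rcases hcase i hi with h | rfl <;> rcases hcase j hj with h' | rfl
        · rw [Mt_lt h h', Mt_lt h' h]
          exact ih.symm i h j h'
        · rw [Mt_right h, Mt_left h]
        · rw [Mt_right h', Mt_left h']
        · rfl
      · intro i hi j hj k hk
        rcases hcase i hi with h | rfl <;> rcases hcase j hj with h' | rfl <;>
          rcases hcase k hk with h'' | rfl
        · rw [Mt_lt h h', Mt_lt h' h'', Mt_lt h h'']
          exact ih.tri i h j h' k h''
        · rw [Mt_right h, Mt_right h', Mt_lt h h', ih.symm i h j h']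
          have := nw_lip ih (hpos i h) (tsk k) h h'
          linarith
        · rw [Mt_right h, Mt_left h'', Mt_lt h h'']
          exact nw_sum ih (hpos i h) _ h h''
        · rw [Mt_nn, add_zero]
        · rw [Mt_left h', Mt_left h'', Mt_lt h' h'']
          exact nw_lip ih (hpos j h') _ h'' h'
        · rw [Mt_nn, Mt_left h', Mt_right h']
          have := nw_pos ih (hpos j h') (tsk k) h'
          linarith
        · rw [Mt_nn, zero_add]
        · rw [Mt_nn, add_zero]

lemma Mt_stable {n i j : ℕ} (hi : i < n) (hj : j < n) (k : ℕ) : Mt (n + k) i j = Mt n i j := by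
  induction k with
  | zero => rfl
  | succ k ih =>
      rw [← add_assoc, Mt_lt (by omega) (by omega), ih]

/-- The rational metric. -/
noncomputable def dq (i j : ℕ) : ℚ := Mt (i + j + 1) i j

lemma dq_eq {n i j : ℕ} (hi : i < n) (hj : j < n) : Mt n i j = dq i j := by
  unfold dq
  have h1 := Mt_stable (n := n) hi hj (i + j + 1)
  have h2 := Mt_stable (n := i + j + 1) (i := i) (j := j) (by omega) (by omega) n
  rw [add_comm] at h1
  rw [← h1, h2]

/-- The rational Urysohn space. -/
structure QU : Type where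
  val : ℕ

instance : Countable QU :=
  (show Function.Injective QU.val from fun a b h => by cases a; cases b; simp_all).countable

noncomputable instance : MetricSpace QU where
  dist a b := (dq a.val b.val : ℝ)
  dist_self a := by
    have h := (Mt_met (a.val + 1)).self a.val (by omega)
    rw [dq_eq (by omega) (by omega)] at h
    show (dq a.val a.val : ℝ) = 0
    rw [h]
    norm_num
  dist_comm a b := by
    have h := (Mt_met (a.val + b.val + 1)).symm a.val (by omega) b.val (by omega)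
    rw [dq_eq (by omega) (by omega), dq_eq (by omega) (by omega)] at h
    show (dq a.val b.val : ℝ) = dq b.val a.val
    rw [h]
  dist_triangle a b c := by
    have h := (Mt_met (a.val + b.val + c.val + 1)).tri a.val (by omega) b.val (by omega)
      c.val (by omega)
    rw [dq_eq (by omega) (by omega), dq_eq (by omega) (by omega),
      dq_eq (by omega) (by omega)] at h
    show (dq a.val c.val : ℝ) ≤ dq a.val b.val + dq b.val c.val
    exact_mod_cast h
  eq_of_dist_eq_zero := by
    intro a b h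
    by_contra hne
    have hne' : a.val ≠ b.val := fun h' => hne (by cases a; cases b; simp_all)
    have h2 := (Mt_met (a.val + b.val + 1)).pos a.val (by omega) b.val (by omega) hne'
    rw [dq_eq (by omega) (by omega)] at h2
    have h3 : (dq a.val b.val : ℝ) = 0 := h
    have h4 : dq a.val b.val = 0 := by exact_mod_cast h3
    linarith

lemma QU_dist (a b : QU) : dist a b = (dq a.val b.val : ℝ) := rfl

lemma QU_rat : Rat QU := fun a b => ⟨dq a.val b.val, rfl⟩

lemma QU_ext : Ext QU := by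
  classical
  intro A f hpos hK
  by_cases hA : A.Nonempty
  · let s : Finset (ℕ × ℚ) := A.image (fun a => (a.val, f a))
    let N : ℕ := A.sup QU.val + 1
    obtain ⟨n, hn, hns⟩ := tsk_spec s N
    have hlt : ∀ a ∈ A, a.val < n := by
      intro a ha
      have h1 : a.val ≤ A.sup QU.val := Finset.le_sup (f := QU.val) ha
      omega
    have hadm : Adm (Mt n) n s := by
      refine ⟨hA.image _, ?_, ?_, ?_, ?_⟩
      · intro p hp
        obtain ⟨a, ha, rfl⟩ := Finset.mem_image.1 hp
        exact hlt a ha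
      · intro p hp
        obtain ⟨a, ha, rfl⟩ := Finset.mem_image.1 hp
        exact hpos a ha
      · intro p hp p' hp'
        obtain ⟨a, ha, rfl⟩ := Finset.mem_image.1 hp
        obtain ⟨b, hb, rfl⟩ := Finset.mem_image.1 hp'
        show f a ≤ f b + Mt n b.val a.val
        rw [dq_eq (hlt b hb) (hlt a ha)]
        have h1 := (abs_le.1 (hK b hb a ha).1).1
        rw [QU_dist] at h1
        have h2 : (f a : ℝ) ≤ (f b : ℝ) + (dq b.val a.val : ℝ) := by linarith
        exact_mod_cast h2
      · intro p hp p' hp'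
        obtain ⟨a, ha, rfl⟩ := Finset.mem_image.1 hp
        obtain ⟨b, hb, rfl⟩ := Finset.mem_image.1 hp'
        show Mt n a.val b.val ≤ f a + f b
        rw [dq_eq (hlt a ha) (hlt b hb)]
        have h1 := (hK a ha b hb).2
        rw [QU_dist] at h1
        exact_mod_cast h1
    refine ⟨⟨n⟩, fun a ha => ?_⟩
    rw [QU_dist]
    have h1 := nw_val (Mt_met n) hadm (p := (a.val, f a)) (Finset.mem_image_of_mem _ ha)
    have h2 := Mt_left (hlt a ha)
    rw [hns, h1, dq_eq (by omega) (by have := hlt a ha; omega)] at h2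
    show (dq n a.val : ℝ) = f a
    rw [h2]
  · rw [Finset.not_nonempty_iff_eq_empty] at hA
    subst hA
    exact ⟨⟨0⟩, fun a ha => absurd ha (Finset.notMem_empty a)⟩

end Q26.Ury
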